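import Pool.Agent.LE.StmtsG
import Pool.Agent.Helper83_LE.DetA

/-!
# DETG and DETX: the deterministic steps on the good events
-/

set_option autoImplicit false

open MeasureTheory ProbabilityTheory Function

open scoped ENNReal BigOperators

noncomputable section

namespace Pool.Agent.LE.H59

open Pool.Agent.Anderson Pool.Agent.Loc Pool.Agent.Mob Pool.Agent.Helper54.Bal
open Pool.Agent.LE.H83A (big exK sd_sm sd_sm_eq sm_add sd_zero_add DL_comm)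

variable {d : ℕ}

/-- the nearest site of the coarse sphere (helper83's `exY` with a weaker hypothesis) -/
theorem exY2 [NeZero d] {ℓ Q : ℕ} (hℓ : 1 ≤ ℓ) (g u : Site d)
    (h1 : Q * ℓ ≤ sd g u + ℓ) (h2 : sd g u ≤ Q * ℓ + 2 * ℓ) :
    ∃ y : Site d, sd 0 y = Q ∧ sd (g + sm ℓ y) u ≤ 2 * ℓ := by
  have hl : (0 : ℤ) < ℓ := by exact_mod_cast hℓ
  have hl1 : (1 : ℤ) ≤ ℓ := by exact_mod_cast hℓ
  have hQ0 : (0 : ℤ) ≤ Q := by positivity
  obtain ⟨i₀, hi₀⟩ := exists_sd_eq g u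
  have h1' : (Q : ℤ) * ℓ ≤ sd g u + ℓ := by exact_mod_cast h1
  have h2' : (sd g u : ℤ) ≤ Q * ℓ + 2 * ℓ := by exact_mod_cast h2
  refine ⟨fun i => if i = i₀ then (if g i₀ ≤ u i₀ then (Q : ℤ) else -Q) else
    max (-(Q : ℤ)) (min Q ((u i - g i) / ℓ)), ?_, ?_⟩
  · apply le_antisymm
    · rw [sd_le_iff]
      intro i
      simp only [Pi.zero_apply]
      split_ifs
      · simp
      · simp
      · rw [abs_le]
        have e1 : -(Q : ℤ) ≤ max (-(Q : ℤ)) (min Q ((u i - g i) / ℓ)) := le_max_left _ _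
        have e2 : max (-(Q : ℤ)) (min Q ((u i - g i) / ℓ)) ≤ Q :=
          max_le (by linarith) (min_le_left _ _)
        constructor <;> linarith
    · have key : ∀ yy : Site d, |yy i₀| = Q → Q ≤ sd 0 yy := by
        intro yy hyy
        have h3 := sd_le_iff.1 (le_refl (sd (0 : Site d) yy)) i₀
        simp only [Pi.zero_apply, zero_sub, abs_neg] at h3
        rw [hyy] at h3
        exact_mod_cast h3
      apply key
      simp only [if_true]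
      split_ifs
      · exact Nat.abs_cast Q
      · rw [abs_neg]
        exact Nat.abs_cast Q
  · rw [sd_le_iff]
    intro i
    simp only [Pi.add_apply, sm]
    have h4 := sd_le_iff.1 (le_refl (sd g u)) i
    obtain ⟨h5, h6⟩ := abs_le.1 h4
    push_cast
    by_cases hi : i = i₀
    · subst hi
      rw [if_pos rfl]
      by_cases hgu : g i ≤ u i
      · rw [if_pos hgu]
        rw [abs_of_nonpos (by linarith : g i - u i ≤ 0)] at hi₀
        rw [abs_le]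
        constructor <;> linarith
      · rw [if_neg hgu]
        rw [abs_of_pos (by linarith [not_le.1 hgu] : 0 < g i - u i)] at hi₀
        rw [abs_le]
        constructor <;> linarith
    · rw [if_neg hi]
      have e1 := Int.mul_ediv_add_emod (u i - g i) (ℓ : ℤ)
      have e2 := Int.emod_nonneg (u i - g i) hl.ne'
      have e3 := Int.emod_lt_of_pos (u i - g i) hl
      set q : ℤ := (u i - g i) / ℓ with hq
      rcases lt_or_ge (Q : ℤ) q with c1 | c1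
      · rw [min_eq_left c1.le, max_eq_right (by linarith)]
        have e4 : (ℓ : ℤ) * (Q + 1) ≤ ℓ * q := mul_le_mul_of_nonneg_left (by linarith) hl.le
        rw [abs_le]
        constructor <;> nlinarith
      · rw [min_eq_right c1]
        rcases lt_or_ge q (-(Q : ℤ)) with c2 | c2
        · rw [max_eq_left c2.le]
          have e4 : (ℓ : ℤ) * q ≤ ℓ * (-Q - 1) := mul_le_mul_of_nonneg_left (by linarith) hl.le
          rw [abs_le]
          constructor <;> nlinarith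
        · rw [max_eq_right c2]
          rw [abs_le]
          constructor <;> linarith

/-- a site of the sphere of radius `L` near a site of the coarse sphere -/
theorem exU [NeZero d] {ℓ Q L : ℕ} (hL : Q * ℓ ≤ L) (b y : Site d) (hy : sd 0 y = Q) :
    ∃ u : Site d, sd b u = L ∧ sd (b + sm ℓ y) u ≤ L - Q * ℓ := by
  obtain ⟨i₀, hi₀⟩ := exists_sd_eq (0 : Site d) y
  obtain ⟨r, hr⟩ : ∃ r : ℕ, L = Q * ℓ + r := ⟨L - Q * ℓ, by omega⟩
  simp only [Pi.zero_apply, zero_sub, abs_neg] at hi₀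
  rw [hy] at hi₀
  -- the sign
  obtain ⟨s, hs, hsy⟩ : ∃ s : ℤ, |s| = 1 ∧ |(ℓ : ℤ) * y i₀ + s * r| = ℓ * |y i₀| + r := by
    rcases le_total 0 (y i₀) with h | h
    · refine ⟨1, by simp, ?_⟩
      rw [abs_of_nonneg h, one_mul, abs_of_nonneg]
      positivity
    · refine ⟨-1, by simp, ?_⟩
      rw [abs_of_nonpos h, abs_of_nonpos]
      · ring
      · have : (ℓ : ℤ) * y i₀ ≤ 0 := mul_nonpos_of_nonneg_of_nonpos (by positivity) h
        have h2 : (0 : ℤ) ≤ r := by positivity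
        linarith
  have hyb : ∀ i, |y i| ≤ Q := by
    intro i
    have h := sd_le_iff.1 hy.le i
    simpa using h
  refine ⟨b + sm ℓ y + Pi.single i₀ (s * r), ?_, ?_⟩
  · apply le_antisymm
    · rw [sd_le_iff]
      intro i
      simp only [Pi.add_apply, sm]
      by_cases hi : i = i₀
      · subst hi
        rw [Pi.single_eq_same]
        rw [show b i - (b i + ℓ * y i + s * r) = -(ℓ * y i + s * r) by ring, abs_neg, hsy, hr]
        push_cast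
        rw [← hi₀]
        apply le_of_eq
        ring
      · rw [Pi.single_eq_of_ne hi, add_zero]
        rw [show b i - (b i + ℓ * y i) = -(ℓ * y i) by ring, abs_neg, abs_mul, Nat.abs_cast, hr]
        push_cast
        have := mul_le_mul_of_nonneg_left (hyb i) (by positivity : (0 : ℤ) ≤ ℓ)
        have h2 : (0 : ℤ) ≤ r := by positivity
        linarith
    · have h := sd_le_iff.1 (le_refl (sd b (b + sm ℓ y + Pi.single i₀ (s * r)))) i₀
      simp only [Pi.add_apply, sm, Pi.single_eq_same] at h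
      rw [show b i₀ - (b i₀ + ℓ * y i₀ + s * r) = -(ℓ * y i₀ + s * r) by ring, abs_neg, hsy,
        ← hi₀] at h
      have h2 : ((L : ℕ) : ℤ) ≤ (sd b (b + sm ℓ y + Pi.single i₀ (s * r)) : ℤ) := by
        rw [hr]
        push_cast
        linarith
      exact_mod_cast h2
  · rw [sd_le_iff]
    intro i
    have e : L - Q * ℓ = r := by omega
    rw [e]
    simp only [Pi.add_apply]
    by_cases hi : i = i₀
    · subst hi
      rw [Pi.single_eq_same, sub_add_cancel_left, abs_neg, abs_mul, hs, one_mul, Nat.abs_cast]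
    · rw [Pi.single_eq_of_ne hi, add_zero, sub_self, abs_zero]
      positivity

/-- the two comparisons on the good event -/
theorem cmp (fvd : FvdStmt) {κ₃ : ℝ} (hκ₃ : 0 < κ₃) {L₀ : ℕ}
    (hbig : ∀ L : ℕ, L₀ ≤ L →
      1 + 2 * d * (2 * L + 1) ^ d * Real.exp (κ₃ * L) ≤ Real.exp (2 * κ₃ * L))
    {V : Site d → ℝ} {N Q ℓ L : ℕ} {a : Site d} {E : ℝ} (hQ : 1 ≤ Q) (hQℓ : Q ≤ ℓ)
    (hL₀ : L₀ ≤ L) (hL : Q * ℓ ≤ L) (hL' : L < Q * (ℓ + 1)) (hsub : box a (12 * (Q * ℓ)) ⊆ box 0 N)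
    (hG : GoodG V N Q ℓ a E κ₃) {t : Site d} (ht : sd a t ≤ 8 * (Q * ℓ)) :
    (RM V (box t L) E).det ≠ 0 ∧
    (∀ κ : ℝ, (∀ u, sd t u = L → |gr V (box t L) E t u| ≤ Real.exp (-κ * L)) →
      ∀ u, (sd t u = L ∨ sd t u = L + 1) → (κ - 2 * κ₃) * L ≤ DL (box 0 N) E V t u) ∧
    (∀ κ : ℝ, (∀ u, (sd t u = L ∨ sd t u = L + 1) → κ * L ≤ DL (box 0 N) E V t u) →
      ∀ u, sd t u = L → |gr V (box t L) E t u| ≤ Real.exp (-(κ - 2 * κ₃) * L)) := by
  obtain ⟨g1, g2, g3, g4, g5, g6⟩ := hG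
  have hmul : Q * (ℓ + 1) = Q * ℓ + Q := by ring
  have hQQ : Q ≤ Q * ℓ := Nat.le_mul_of_pos_right _ (by omega)
  have hbig' := hbig L hL₀
  have hT : (0 : ℝ) ≤ Real.exp (κ₃ * (Q * ℓ)) := (Real.exp_pos _).le
  have hTL : Real.exp (κ₃ * (Q * ℓ)) ≤ Real.exp (κ₃ * L) := by
    rw [Real.exp_le_exp]
    apply mul_le_mul_of_nonneg_left _ hκ₃.le
    exact_mod_cast hL
  have hfac : 1 + 2 * d * (2 * (L : ℝ) + 1) ^ d * Real.exp (κ₃ * (Q * ℓ)) ≤
      Real.exp (2 * κ₃ * L) := by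
    refine le_trans ?_ hbig'
    have : 2 * d * (2 * (L : ℝ) + 1) ^ d * Real.exp (κ₃ * (Q * ℓ)) ≤
        2 * d * (2 * (L : ℝ) + 1) ^ d * Real.exp (κ₃ * L) :=
      mul_le_mul_of_nonneg_left hTL (by positivity)
    linarith
  have sub12 : box t (L + 1) ⊆ box a (12 * (Q * ℓ)) := by
    intro x hx
    rw [mem_box] at hx ⊢
    have := sd_triangle a t x
    omega
  obtain ⟨r, hr⟩ : ∃ r : ℕ, L = Q * ℓ + r := ⟨L - Q * ℓ, by omega⟩
  have h8 := g6 r (by omega) t (mem_box.2 ht)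
  rw [← hr] at h8
  have hf := fun A : ℝ => fun hA : 0 ≤ A => fvd d V (box 0 N) t L E (Real.exp (κ₃ * (Q * ℓ))) A
    hT hA (sub12.trans hsub) g1 h8.1 h8.2 (fun x hx y hy => (g2 x (sub12 hx) y (sub12 hy)).2)
  have htin : t ∈ box a (12 * (Q * ℓ)) := by
    rw [mem_box]
    omega
  refine ⟨h8.1, fun κ h u hu => ?_, fun κ h u hu => ?_⟩
  · have h1 := ((hf (Real.exp (-κ * L)) (Real.exp_pos _).le).1 h u hu).trans
      (mul_le_mul_of_nonneg_right hfac (Real.exp_pos _).le)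
    have hu' : u ∈ box a (12 * (Q * ℓ)) := by
      apply sub12
      rw [mem_box]
      omega
    have hne := (g2 t htin u hu').1
    rw [← Real.exp_add] at h1
    unfold DL
    have h2 := Real.log_le_log (abs_pos.2 hne) h1
    rw [Real.log_exp] at h2
    linarith
  · have h0 : ∀ u, (sd t u = L ∨ sd t u = L + 1) →
        |gr V (box 0 N) E t u| ≤ Real.exp (-κ * L) := by
      intro u hu
      have hu' : u ∈ box a (12 * (Q * ℓ)) := by
        apply sub12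
        rw [mem_box]
        omega
      have hne := (g2 t htin u hu').1
      have h1 := h u hu
      unfold DL at h1
      rw [← Real.exp_log (abs_pos.2 hne)]
      exact Real.exp_le_exp.2 (by linarith)
    refine ((hf (Real.exp (-κ * L)) (Real.exp_pos _).le).2 h0 u hu).trans ?_
    refine (mul_le_mul_of_nonneg_right hfac (Real.exp_pos _).le).trans ?_
    rw [← Real.exp_add]
    exact Real.exp_le_exp.2 (by linarith)

/-- decay about `b = a + ℓ k` in the large cube, on the coarse sphere -/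
theorem coarse [NeZero d] {κ κ₃ : ℝ} (hκ₃ : 0 < κ₃)
    {V : Site d → ℝ} {N Q ℓ L : ℕ} {a : Site d} {E : ℝ} (hQ : 1 ≤ Q) (hQℓ : Q ≤ ℓ)
    (hL : Q * ℓ ≤ L) (hL' : L < Q * (ℓ + 1))
    (hG : GoodG V N Q ℓ a E κ₃) {k : Site d} (hk : sd 0 k ≤ 8 * Q)
    (h : ∀ u, (sd (a + sm ℓ k) u = L ∨ sd (a + sm ℓ k) u = L + 1) →
      κ * L ≤ DL (box 0 N) E V (a + sm ℓ k) u) (y : Site d) (hy : sd 0 y = Q) :
    (κ - 2 * κ₃) * L ≤ DL (box 0 N) E V (a + sm ℓ k) (a + sm ℓ k + sm ℓ y) := by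
  obtain ⟨g1, g2, g3, g4, g5, g6⟩ := hG
  have hmul : Q * (ℓ + 1) = Q * ℓ + Q := by ring
  have hQQ : Q ≤ Q * ℓ := Nat.le_mul_of_pos_right _ (by omega)
  have hLR : (Q : ℝ) * ℓ ≤ L := by exact_mod_cast hL
  obtain ⟨u, hu, hu'⟩ := exU (ℓ := ℓ) hL (a + sm ℓ k) y hy
  have h1 := h u (Or.inl hu)
  have hky : a + sm ℓ k + sm ℓ y = a + sm ℓ (k + y) := by rw [sm_add, add_assoc]
  have q1 : sd 0 (k + y) ≤ 9 * Q := by
    have := sd_zero_add k y
    omega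
  have q2 : sd a (a + sm ℓ k) ≤ 8 * (Q * ℓ) := by
    calc sd a (a + sm ℓ k) ≤ ℓ * sd 0 k := sd_sm ℓ a k
      _ ≤ ℓ * (8 * Q) := Nat.mul_le_mul_left ℓ hk
      _ = 8 * (Q * ℓ) := by ring
  have q3 : sd a (a + sm ℓ (k + y)) ≤ 9 * (Q * ℓ) := by
    calc sd a (a + sm ℓ (k + y)) ≤ ℓ * sd 0 (k + y) := sd_sm ℓ a (k + y)
      _ ≤ ℓ * (9 * Q) := Nat.mul_le_mul_left ℓ q1
      _ = 9 * (Q * ℓ) := by ring
  have q4 : sd a u ≤ 10 * (Q * ℓ) := by
    have := sd_triangle a (a + sm ℓ k) u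
    omega
  have b1 : a + sm ℓ k ∈ box a (12 * (Q * ℓ)) := mem_box.2 (by omega)
  have b2 : a + sm ℓ (k + y) ∈ box a (12 * (Q * ℓ)) := mem_box.2 (by omega)
  have b4 : u ∈ box a (12 * (Q * ℓ)) := mem_box.2 (by omega)
  rw [hky] at hu' ⊢
  have r2 := g3 (a + sm ℓ k) b1 (a + sm ℓ (k + y)) b2 u b4
  have r5 := g4 (k + y) (mem_box.2 (by omega)) u (mem_box.2 (by omega))
  nlinarith

/-- decay about `s`, from the coarse spheres -/
theorem fine [NeZero d] {κ κ₃ : ℝ} (hκ₃ : 0 < κ₃)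
    {V : Site d → ℝ} {N Q ℓ L : ℕ} {a : Site d} {E : ℝ} (hQ : 1 ≤ Q) (hQℓ : Q ≤ ℓ)
    (hL : Q * ℓ ≤ L) (hL' : L < Q * (ℓ + 1))
    (hG : GoodG V N Q ℓ a E κ₃)
    (h : ∀ k : Site d, sd 0 k ≤ 8 * Q → ∀ y : Site d, sd 0 y = Q →
      κ * L ≤ DL (box 0 N) E V (a + sm ℓ k) (a + sm ℓ k + sm ℓ y))
    {s : Site d} (hs : sd a s ≤ 7 * (Q * ℓ)) :
    ∀ u, (sd s u = L ∨ sd s u = L + 1) → (κ - 4 * κ₃) * L ≤ DL (box 0 N) E V s u := by
  obtain ⟨g1, g2, g3, g4, g5, g6⟩ := hG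
  have hℓ : 1 ≤ ℓ := by omega
  have hmul : Q * (ℓ + 1) = Q * ℓ + Q := by ring
  have hQQ : Q ≤ Q * ℓ := Nat.le_mul_of_pos_right _ (by omega)
  have hℓQ : ℓ ≤ Q * ℓ := Nat.le_mul_of_pos_left _ (by omega)
  have hLR : (Q : ℝ) * ℓ ≤ L := by exact_mod_cast hL
  intro u hu
  obtain ⟨k, hk, hks⟩ := exK hℓ (7 * Q) a s (by rw [Nat.mul_assoc]; exact hs)
  have t1 := sd_triangle (a + sm ℓ k) s u
  have t2 := sd_triangle s (a + sm ℓ k) u
  rw [sd_comm s (a + sm ℓ k)] at t2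
  obtain ⟨y, hy, hyu⟩ := exY2 (Q := Q) hℓ (a + sm ℓ k) u (by omega) (by omega)
  have hky : a + sm ℓ k + sm ℓ y = a + sm ℓ (k + y) := by rw [sm_add, add_assoc]
  have q1 : sd 0 (k + y) ≤ 8 * Q := by
    have := sd_zero_add k y
    omega
  have q2 : sd a (a + sm ℓ k) ≤ 7 * (Q * ℓ) := by
    calc sd a (a + sm ℓ k) ≤ ℓ * sd 0 k := sd_sm ℓ a k
      _ ≤ ℓ * (7 * Q) := Nat.mul_le_mul_left ℓ hk
      _ = 7 * (Q * ℓ) := by ring
  have q3 : sd a (a + sm ℓ (k + y)) ≤ 8 * (Q * ℓ) := by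
    calc sd a (a + sm ℓ (k + y)) ≤ ℓ * sd 0 (k + y) := sd_sm ℓ a (k + y)
      _ ≤ ℓ * (8 * Q) := Nat.mul_le_mul_left ℓ q1
      _ = 8 * (Q * ℓ) := by ring
  have q4 : sd a u ≤ 10 * (Q * ℓ) := by
    have := sd_triangle a s u
    omega
  have b1 : a + sm ℓ k ∈ box a (12 * (Q * ℓ)) := mem_box.2 (by omega)
  have b2 : a + sm ℓ (k + y) ∈ box a (12 * (Q * ℓ)) := mem_box.2 (by omega)
  have b3 : s ∈ box a (12 * (Q * ℓ)) := mem_box.2 (by omega)
  have b4 : u ∈ box a (12 * (Q * ℓ)) := mem_box.2 (by omega)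
  have r1 := h k (by omega) y hy
  rw [hky] at r1 hyu
  have r2 := g3 (a + sm ℓ k) b1 s b3 (a + sm ℓ (k + y)) b2
  have r3 := g3 s b3 u b4 (a + sm ℓ (k + y)) b2
  have r4 := g4 k (mem_box.2 (by omega)) s (mem_box.2 (by omega))
  have r5 := g4 (k + y) (mem_box.2 (by omega)) u (mem_box.2 (by omega))
  rw [DL_comm] at r5
  nlinarith

theorem detG (fvd : FvdStmt) : DetGStmt := by
  intro d κ₃ hd hκ₃
  have : NeZero d := ⟨by omega⟩
  obtain ⟨L₀, _, hbig⟩ := big d κ₃ hκ₃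
  refine ⟨L₀, fun κ V N Q ℓ L a E hQ hQℓ hL₀ hL hL' hsub hG k hk hSG s hs => ?_⟩
  rw [mem_box] at hk hs
  have hLR : (Q : ℝ) * ℓ ≤ L := by exact_mod_cast hL
  have q2 : sd a (a + sm ℓ k) ≤ 8 * (Q * ℓ) := by
    calc sd a (a + sm ℓ k) ≤ ℓ * sd 0 k := sd_sm ℓ a k
      _ ≤ ℓ * (8 * Q) := Nat.mul_le_mul_left ℓ hk
      _ = 8 * (Q * ℓ) := by ring
  have c1 := (cmp fvd hκ₃ hbig hQ hQℓ hL₀ hL hL' hsub hG q2).2.1 κ hSG.2
  have c2 := coarse hκ₃ hQ hQℓ hL hL' hG hk c1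
  have c3 : ∀ k' : Site d, sd 0 k' ≤ 8 * Q → ∀ y : Site d, sd 0 y = Q →
      (κ - 6 * κ₃) * L ≤ DL (box 0 N) E V (a + sm ℓ k') (a + sm ℓ k' + sm ℓ y) := by
    intro k' hk' y hy
    have h1 := c2 y hy
    have h2 := hG.2.2.2.2.1 k (mem_box.2 hk) y (mem_box.2 hy.le)
    have h3 := hG.2.2.2.2.1 k' (mem_box.2 hk') y (mem_box.2 hy.le)
    have h4 := (abs_le.1 h2).1
    have h5 := (abs_le.1 h3).2
    nlinarith
  have c4 := fine hκ₃ hQ hQℓ hL hL' hG c3 hs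
  have hs8 : sd a s ≤ 8 * (Q * ℓ) := by omega
  obtain ⟨e1, _, e3⟩ := cmp fvd hκ₃ hbig hQ hQℓ hL₀ hL hL' hsub hG hs8
  refine ⟨e1, fun u hu => (e3 _ c4 u hu).trans ?_⟩
  rw [Real.exp_le_exp]
  apply le_of_eq
  ring

theorem detX (fvd : FvdStmt) : DetXStmt := by
  intro d κ₃ hd hκ₃
  have : NeZero d := ⟨by omega⟩
  obtain ⟨L₀, _, hbig⟩ := big d κ₃ hκ₃
  refine ⟨L₀, fun κ V N Q ℓ ℓ' L L' a E hQ hQℓ hQℓ' hκ hκ' hL₀ hL₀' hL hL1 hL' hL1' hsub hsub'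
    hG hG' hX hSG => ?_⟩
  have hLR : (Q : ℝ) * ℓ ≤ L := by exact_mod_cast hL
  have hLR' : (Q : ℝ) * ℓ' ≤ L' := by exact_mod_cast hL'
  have hL1R : (L : ℝ) ≤ Q * (ℓ + 1) := by exact_mod_cast hL1.le
  have hL1R' : (L' : ℝ) ≤ Q * (ℓ' + 1) := by exact_mod_cast hL1'.le
  have hQR : (1 : ℝ) ≤ Q := by exact_mod_cast hQ
  have hℓR : (1 : ℝ) ≤ ℓ := by exact_mod_cast hQ.trans hQℓ
  have hℓR' : (1 : ℝ) ≤ ℓ' := by exact_mod_cast hQ.trans hQℓ'
  have ha0 : a + sm ℓ (0 : Site d) = a := by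
    funext i
    simp [sm]
  have h0 : sd a a ≤ 8 * (Q * ℓ) := by rw [sd_self]; omega
  have h0' : sd a a ≤ 8 * (Q * ℓ') := by rw [sd_self]; omega
  have c1 := (cmp fvd hκ₃ hbig hQ hQℓ hL₀ hL hL1 hsub hG h0).2.1 κ hSG.2
  have c2 := coarse (k := 0) hκ₃ hQ hQℓ hL hL1 hG (by rw [sd_self]; omega)
    (by rw [ha0]; exact c1)
  rw [ha0] at c2
  -- the other scale, on the coarse sphere about `a`
  have c3 : ∀ y : Site d, sd 0 y = Q → (κ - 7 * κ₃) * L' ≤ DL (box 0 N) E V a (a + sm ℓ' y) := by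
    intro y hy
    have h1 := c2 y hy
    have h2 := (abs_le.1 (hX y (mem_box.2 hy.le))).2
    obtain ⟨X, hXd⟩ : ∃ X, X = DL (box 0 N) E V a (a + sm ℓ y) := ⟨_, rfl⟩
    obtain ⟨Y, hYd⟩ : ∃ Y, Y = DL (box 0 N) E V a (a + sm ℓ' y) := ⟨_, rfl⟩
    rw [← hXd] at h1 h2
    rw [← hYd] at h2 ⊢
    have hℓ0 : (0 : ℝ) < ℓ := by linarith
    have hℓ0' : (0 : ℝ) < ℓ' := by linarith
    -- (κ - 4κ₃) L ≥ (κ - 5κ₃) Q ℓ
    have k1 := abs_le.1 (le_refl |κ|)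
    have m1 : (κ - 5 * κ₃) * (Q * ℓ) ≤ (κ - 4 * κ₃) * L := by
      rcases le_total 0 (κ - 4 * κ₃) with hc | hc
      · have : (κ - 4 * κ₃) * (Q * ℓ) ≤ (κ - 4 * κ₃) * L := mul_le_mul_of_nonneg_left hLR hc
        have h3 : 0 ≤ κ₃ * (Q * ℓ) := by positivity
        linarith
      · have h3 : (κ - 4 * κ₃) * (Q * (ℓ + 1)) ≤ (κ - 4 * κ₃) * L :=
          mul_le_mul_of_nonpos_left hL1R hc
        have h4 : -(κ - 4 * κ₃) ≤ κ₃ * ℓ := by linarith
        have h5 : -(κ - 4 * κ₃) * Q ≤ κ₃ * ℓ * Q := mul_le_mul_of_nonneg_right h4 (by linarith)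
        have h6 : (κ - 4 * κ₃) * (Q * (ℓ + 1)) = (κ - 4 * κ₃) * (Q * ℓ) + (κ - 4 * κ₃) * Q := by
          ring
        linarith
    have m2 : (κ - 5 * κ₃) * Q ≤ X / ℓ := by
      rw [le_div_iff₀ hℓ0]
      calc (κ - 5 * κ₃) * Q * ℓ = (κ - 5 * κ₃) * (Q * ℓ) := by ring
        _ ≤ (κ - 4 * κ₃) * L := m1
        _ = (κ - 2 * κ₃ - 2 * κ₃) * L := by ring
        _ ≤ X := h1
    have m3 : (κ - 6 * κ₃) * Q ≤ Y / ℓ' := by linarith
    rw [le_div_iff₀ hℓ0'] at m3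
    refine le_trans ?_ m3
    rcases le_total 0 (κ - 6 * κ₃) with hc | hc
    · have h3 : (κ - 6 * κ₃) * L' ≤ (κ - 6 * κ₃) * (Q * (ℓ' + 1)) :=
        mul_le_mul_of_nonneg_left hL1R' hc
      have h4 : κ - 6 * κ₃ ≤ κ₃ * ℓ' := by linarith
      have h5 : (κ - 6 * κ₃) * Q ≤ κ₃ * ℓ' * Q := mul_le_mul_of_nonneg_right h4 (by linarith)
      have h6 : κ₃ * (Q * ℓ') ≤ κ₃ * L' := mul_le_mul_of_nonneg_left hLR' hκ₃.le
      have h7 : (κ - 6 * κ₃) * (Q * (ℓ' + 1)) = (κ - 6 * κ₃) * Q * ℓ' + (κ - 6 * κ₃) * Q := by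
        ring
      linarith
    · have h3 : (κ - 6 * κ₃) * L' ≤ (κ - 6 * κ₃) * (Q * ℓ') :=
        mul_le_mul_of_nonpos_left hLR' hc
      have h6 : 0 ≤ κ₃ * L' := by positivity
      linarith
  -- all sites at the other scale: only the base point is needed
  have c4 : ∀ u, (sd a u = L' ∨ sd a u = L' + 1) →
      (κ - 9 * κ₃) * L' ≤ DL (box 0 N) E V a u := by
    obtain ⟨g1, g2, g3, g4, g5, g6⟩ := hG'
    have hmul : Q * (ℓ' + 1) = Q * ℓ' + Q := by ring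
    have hQQ : Q ≤ Q * ℓ' := Nat.le_mul_of_pos_right _ (by omega)
    intro u hu
    obtain ⟨y, hy, hyu⟩ := exY2 (Q := Q) (ℓ := ℓ') (by omega) a u (by omega) (by omega)
    have r1 := c3 y hy
    have q3 : sd a (a + sm ℓ' y) ≤ 8 * (Q * ℓ') := by
      calc sd a (a + sm ℓ' y) ≤ ℓ' * sd 0 y := sd_sm ℓ' a y
        _ = Q * ℓ' := by rw [hy]; ring
        _ ≤ 8 * (Q * ℓ') := by omega
    have b1 : a ∈ box a (12 * (Q * ℓ')) := mem_box.2 (by rw [sd_self]; omega)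
    have b2 : a + sm ℓ' y ∈ box a (12 * (Q * ℓ')) := mem_box.2 (by omega)
    have b4 : u ∈ box a (12 * (Q * ℓ')) := mem_box.2 (by omega)
    have r3 := g3 a b1 u b4 (a + sm ℓ' y) b2
    have r5 := g4 y (mem_box.2 (by omega)) u (mem_box.2 (by omega))
    rw [DL_comm] at r5
    nlinarith
  obtain ⟨e1, _, e3⟩ := cmp fvd hκ₃ hbig hQ hQℓ' hL₀' hL' hL1' hsub' hG' h0'
  refine ⟨e1, fun u hu => (e3 _ c4 u hu).trans ?_⟩
  rw [Real.exp_le_exp]
  have : 0 ≤ κ₃ * L' := by positivity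
  linarith

end Pool.Agent.LE.H59
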