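import Pool.Agent.LE.StmtsA
import Pool.Agent.Helper96_EXP.Cvr
import Pool.Agent.Helper75_Mob.Transfer

/-!
# GEV, second part: chaining and the choice of `Q`
-/

set_option autoImplicit false

open MeasureTheory ProbabilityTheory Function Filter

open scoped ENNReal BigOperators

noncomputable section

namespace Pool.Agent.LE.H59

open Pool.Agent.Anderson Pool.Agent.Loc Pool.Agent.Helper54.Bal Pool.Agent.LE.H96

variable {d : ℕ}

/-- the part 4 of `GoodEv` -/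
def GoodB (V : Site d → ℝ) (N Q ℓ : ℕ) (a : Site d) (E κ₃ : ℝ) : Prop :=
  ∀ k ∈ box (0 : Site d) (10 * Q), ∀ y ∈ box (a + sm ℓ k) (3 * ℓ),
    DL (box 0 N) E V (a + sm ℓ k) y ≤ κ₃ * (Q * ℓ)

theorem sd_sm_le {Q ℓ : ℕ} {a k : Site d} (hk : k ∈ box (0 : Site d) Q) :
    sd a (a + sm ℓ k) ≤ Q * ℓ := by
  rw [mem_box, sd_le_iff] at hk
  rw [sd_le_iff]
  intro i
  have h1 := hk i
  rw [Pi.zero_apply, zero_sub, abs_neg] at h1
  unfold sm
  rw [Pi.add_apply, sub_add_cancel_left, abs_neg, abs_mul, Nat.abs_cast]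
  push_cast
  rw [mul_comm]
  exact mul_le_mul_of_nonneg_right h1 (by positivity)

theorem gev2 (σ E κ₃ p : ℝ) (hd : 1 ≤ d) (hκ : 0 < κ₃) (hp : 0 < p)
    (hchn : ∃ C, ChnTail d (gl σ) E C) :
    ∃ Q : ℕ, 4 ≤ Q ∧ ∀ ℓ : ℕ, 1 ≤ ℓ → ∀ (N : ℕ) (a : Site d),
      box a (12 * (Q * ℓ)) ⊆ box 0 N →
        PP d (gl σ) {V | ¬ GoodB V N Q ℓ a E κ₃} ≤ ENNReal.ofReal p := by
  classical
  obtain ⟨C, hC⟩ := hchn
  obtain ⟨Q, hQ4, hQ⟩ := exists_M (d := d) hd (κ := κ₃ / 3) (q := p) (C := |C| * 11 ^ d)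
    (by positivity) hp (by positivity)
  refine ⟨Q, hQ4, fun ℓ hℓ N a ha => ?_⟩
  have hQr : (4 : ℝ) ≤ Q := by exact_mod_cast hQ4
  have hℓr : (1 : ℝ) ≤ ℓ := by exact_mod_cast hℓ
  set t : ℝ := κ₃ * (Q * ℓ) with ht
  have ht0 : 0 < t := by positivity
  set M : Set (Site d → ℝ) := ⋃ k ∈ box (0 : Site d) (10 * Q),
    {V | ∃ y ∈ box (a + sm ℓ k) (3 * ℓ),
      |gr V (box 0 N) E (a + sm ℓ k) y| < Real.exp (-t)} with hM
  have hsub : ∀ k ∈ box (0 : Site d) (10 * Q), box (a + sm ℓ k) (3 * ℓ) ⊆ box 0 N := by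
    intro k hk y hy
    apply ha
    rw [mem_box] at hy ⊢
    have h1 := sd_sm_le (ℓ := ℓ) (a := a) hk
    have h2 := sd_triangle a (a + sm ℓ k) y
    have h3 : 10 * Q * ℓ + 3 * ℓ ≤ 12 * (Q * ℓ) := by nlinarith
    omega
  have hincl : {V : Site d → ℝ | ¬ GoodB V N Q ℓ a E κ₃} ⊆ M := by
    intro V hV
    by_contra hcon
    apply hV
    intro k hk y hy
    by_contra h0
    rw [not_le] at h0
    apply hcon
    rw [hM]
    simp only [Set.mem_iUnion, exists_prop]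
    refine ⟨k, hk, y, hy, ?_⟩
    unfold DL at h0
    by_cases hg : gr V (box 0 N) E (a + sm ℓ k) y = 0
    · rw [hg, abs_zero]
      exact Real.exp_pos _
    · rw [← Real.log_lt_iff_lt_exp (abs_pos.2 hg)]
      linarith
  refine (measure_mono hincl).trans ?_
  apply union_le (q := C * ((3 * ℓ : ℕ) / t) ^ (4 * d))
  · intro k hk
    have h1 : Pool.Agent.Mob.H75.Loc {V : Site d → ℝ | ∃ y ∈ box (a + sm ℓ k) (3 * ℓ),
        |gr V (box 0 N) E (a + sm ℓ k) y| < Real.exp (-t)} (box 0 N) := by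
      intro V V' h
      rw [Set.mem_ofPred_eq, Set.mem_ofPred_eq]
      simp only [gr_congr h]
    refine (Pool.Agent.Mob.H75.PP_le_PL h1).trans ?_
    exact hC N (3 * ℓ) (a + sm ℓ k) t (by omega) (hsub k hk) ht0
  · have e1 : ((3 * ℓ : ℕ) : ℝ) / t = 1 / (κ₃ / 3 * Q) := by
      rw [ht]
      push_cast
      field_simp
    rw [e1, card_box]
    have e2 : (((2 * (10 * Q) + 1) ^ d : ℕ) : ℝ) ≤ 11 ^ d * (2 * (Q : ℝ)) ^ d := by
      push_cast
      rw [← mul_pow]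
      apply pow_le_pow_left₀ (by positivity)
      linarith
    calc (((2 * (10 * Q) + 1) ^ d : ℕ) : ℝ) * (C * (1 / (κ₃ / 3 * Q)) ^ (4 * d))
        ≤ (((2 * (10 * Q) + 1) ^ d : ℕ) : ℝ) * (|C| * (1 / (κ₃ / 3 * Q)) ^ (4 * d)) := by
          apply mul_le_mul_of_nonneg_left _ (by positivity)
          exact mul_le_mul_of_nonneg_right (le_abs_self C) (by positivity)
      _ ≤ (11 ^ d * (2 * (Q : ℝ)) ^ d) * (|C| * (1 / (κ₃ / 3 * Q)) ^ (4 * d)) :=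
          mul_le_mul_of_nonneg_right e2 (by positivity)
      _ = (2 * (Q : ℝ)) ^ d * (|C| * 11 ^ d * (1 / (κ₃ / 3 * Q)) ^ (4 * d)) := by ring
      _ ≤ p := hQ

end Pool.Agent.LE.H59
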