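import Pool.Agent.Helper59_LE.Gev1
import Pool.Agent.Helper59_LE.Gev2

/-!
# GEV, third part: near invariance (pigeonhole and Markov) and the good event
-/

set_option autoImplicit false

open MeasureTheory ProbabilityTheory Function Filter

open scoped ENNReal BigOperators

noncomputable section

namespace Pool.Agent.LE.H59

open Pool.Agent.Anderson Pool.Agent.Loc Pool.Agent.Helper54.Bal Pool.Agent.LE.H96

variable {d : ℕ}

theorem markov {Ω : Type} [MeasurableSpace Ω] (P : Measure Ω) [IsProbabilityMeasure P]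
    {f : Ω → ℝ} (h0 : ∀ ω, 0 ≤ f ω) (hi : Integrable f P) {t I : ℝ} (ht : 0 < t)
    (hI : ∫ ω, f ω ∂P ≤ I) : P {ω | t < f ω} ≤ ENNReal.ofReal (I / t) := by
  have h1 := mul_meas_ge_le_integral_of_nonneg (Filter.Eventually.of_forall h0) hi t
  have h2 : P {ω | t < f ω} ≤ P {ω | t ≤ f ω} := measure_mono fun ω (h : t < f ω) => h.le
  refine h2.trans ?_
  rw [← ofReal_measureReal (measure_ne_top P _)]
  apply ENNReal.ofReal_le_ofReal
  rw [le_div_iff₀ ht, mul_comm]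
  exact h1.trans hI

theorem FamN.integrable {N : ℕ} {Ω : Type} [MeasurableSpace Ω] {P : Measure Ω}
    [IsProbabilityMeasure P] {C : ℝ} {D : Ω → Site d → Site d → ℝ} (h : FamN d N P C D)
    {x y : Site d} (hx : x ∈ box (0 : Site d) N) (hy : y ∈ box (0 : Site d) N) :
    Integrable (fun ω => D ω x y) P := by
  have h1 := (memLp_two_iff_integrable_sq (h.meas x y).aestronglyMeasurable).2 (h.int x hx y hy)
  exact h1.integrable one_le_two

/-- the part 5 of `GoodEv` -/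
def GoodD (V : Site d → ℝ) (N Q ℓ : ℕ) (a : Site d) (E κ₃ : ℝ) : Prop :=
  ∀ k ∈ box (0 : Site d) (8 * Q), ∀ y ∈ box (0 : Site d) Q,
    |DL (box 0 N) E V a (a + sm ℓ y) -
      DL (box 0 N) E V (a + sm ℓ k) (a + sm ℓ k + sm ℓ y)| ≤ κ₃ * (Q * ℓ)

theorem gev3 {σ E κ₃ C ε p : ℝ} {N Q ℓ : ℕ} {a : Site d} (hκ : 0 < κ₃) (hQ : 1 ≤ Q)
    (hℓ : 1 ≤ ℓ) (hF : FamN d N (PP d (gl σ)) C (DL (box 0 N) E))
    (ha : box a (12 * (Q * ℓ)) ⊆ box 0 N)
    (h : ∀ y k : Site d, sd 0 y ≤ 8 * Q → sd 0 k ≤ 8 * Q →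
      ∫ V, |DL (box 0 N) E V a (a + sm ℓ y) -
        DL (box 0 N) E V (a + sm ℓ k) (a + sm ℓ k + sm ℓ y)| ∂(PP d (gl σ)) ≤ ε * (ℓ : ℕ))
    (hp : (16 * (Q : ℝ) + 1) ^ d * (2 * (Q : ℝ) + 1) ^ d * (ε / (κ₃ * Q)) ≤ p) :
    PP d (gl σ) {V | ¬ GoodD V N Q ℓ a E κ₃} ≤ ENNReal.ofReal p := by
  classical
  have hQr : (1 : ℝ) ≤ Q := by exact_mod_cast hQ
  have hℓr : (1 : ℝ) ≤ ℓ := by exact_mod_cast hℓ
  set M : Set (Site d → ℝ) := ⋃ z ∈ box (0 : Site d) (8 * Q) ×ˢ box (0 : Site d) Q,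
    {V | κ₃ * (Q * ℓ) < |DL (box 0 N) E V a (a + sm ℓ z.2) -
        DL (box 0 N) E V (a + sm ℓ z.1) (a + sm ℓ z.1 + sm ℓ z.2)|} with hM
  have hincl : {V : Site d → ℝ | ¬ GoodD V N Q ℓ a E κ₃} ⊆ M := by
    intro V hV
    by_contra hcon
    apply hV
    intro k hk y hy
    by_contra h0
    rw [not_le] at h0
    apply hcon
    rw [hM]
    simp only [Set.mem_iUnion, exists_prop]
    exact ⟨(k, y), Finset.mem_product.2 ⟨hk, hy⟩, h0⟩
  have hin : ∀ x : Site d, sd a x ≤ 9 * (Q * ℓ) → x ∈ box (0 : Site d) N := by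
    intro x hx
    apply ha
    rw [mem_box]
    omega
  refine (measure_mono hincl).trans ?_
  apply union_le (q := ε / (κ₃ * Q))
  · intro z hz
    rw [Finset.mem_product] at hz
    have h1 := sd_sm_le (ℓ := ℓ) (a := a) hz.1
    have h2 := sd_sm_le (ℓ := ℓ) (a := a) hz.2
    have h3 := sd_sm_le (ℓ := ℓ) (a := a + sm ℓ z.1) hz.2
    have h4 := sd_triangle a (a + sm ℓ z.1) (a + sm ℓ z.1 + sm ℓ z.2)
    have h5 : 8 * Q * ℓ = 8 * (Q * ℓ) := by ring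
    have i1 := FamN.integrable hF (x := a) (y := a + sm ℓ z.2)
      (hin _ (by rw [sd_self]; omega)) (hin _ (by omega))
    have i2 := FamN.integrable hF (x := a + sm ℓ z.1) (y := a + sm ℓ z.1 + sm ℓ z.2)
      (hin _ (by omega)) (hin _ (by omega))
    have hz1 : sd 0 z.1 ≤ 8 * Q := mem_box.1 hz.1
    have hz2 : sd 0 z.2 ≤ 8 * Q := (mem_box.1 hz.2).trans (by omega)
    have h6 := markov (PP d (gl σ)) (fun V => abs_nonneg _) (i1.sub i2).abs
      (t := κ₃ * (Q * ℓ)) (by positivity) (h z.2 z.1 hz2 hz1)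
    refine h6.trans (le_of_eq ?_)
    congr 1
    field_simp
  · refine le_trans (le_of_eq ?_) hp
    rw [Finset.card_product, card_box, card_box]
    push_cast
    congr 3
    ring

theorem gev (hpig : PigStmt) (hfmn : FmnStmt)
    (hone : ∀ (d : ℕ) (σ E : ℝ), 1 ≤ d → σ ≠ 0 → ∃ C, OneTail d (gl σ) E C)
    (hchn : ∀ (d : ℕ) (σ E : ℝ), 1 ≤ d → σ ≠ 0 → ∃ C, ChnTail d (gl σ) E C) : GevStmt := by
  intro d σ E κ₃ p hd hσ hκ hp
  obtain ⟨Q, hQ4, hB⟩ := gev2 (d := d) σ E κ₃ (p / 3) hd hκ (by positivity) (hchn d σ E hd hσ)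
  have hQ1 : 1 ≤ Q := by omega
  have hQr : (4 : ℝ) ≤ Q := by exact_mod_cast hQ4
  obtain ⟨l₁, hA⟩ := gev1 (d := d) hfmn σ E κ₃ (p / 3) Q hd hσ hκ (by positivity) hQ1
    (hone d σ E hd hσ)
  obtain ⟨C, hC, hF⟩ := hfmn d σ E hd hσ
  set W : ℝ := (16 * (Q : ℝ) + 1) ^ d * (2 * (Q : ℝ) + 1) ^ d with hW
  have hW0 : 0 < W := by positivity
  set ε : ℝ := p / 3 * (κ₃ * Q) / W with hε
  have hε0 : 0 < ε := by positivity
  obtain ⟨J, l₂, hl₂, hP⟩ := hpig d (8 * Q) (12 * Q) C ε hC hε0 (by omega)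
  refine ⟨Q, hQ1, fun l => ?_⟩
  obtain ⟨N, hN⟩ := hP (max l (max l₁ l₂)) (by omega)
  obtain ⟨j, _, a, ha, hE⟩ := hN N le_rfl (Site d → ℝ) (PP d (gl σ)) (DL (box 0 N) E) (hF N).1
  set ℓ : ℕ := 2 ^ j * max l (max l₁ l₂) with hℓ
  have hge : max l (max l₁ l₂) ≤ ℓ := Nat.le_mul_of_pos_left _ (by positivity)
  have ha' : box a (12 * (Q * ℓ)) ⊆ box 0 N := by
    rw [← mul_assoc]
    exact ha
  refine ⟨ℓ, N, a, by omega, by omega, ha', ?_⟩
  have p1 := hA ℓ (by omega) N a ha'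
  have p2 := hB ℓ (by omega) N a ha'
  have p3 : PP d (gl σ) {V | ¬ GoodD V N Q ℓ a E κ₃} ≤ ENNReal.ofReal (p / 3) := by
    apply gev3 hκ hQ1 (by omega) (hF N).1 ha' hE
    rw [← hW, hε]
    apply le_of_eq
    field_simp
  have hincl : {V : Site d → ℝ | ¬ GoodEv V N Q ℓ a E κ₃} ⊆
      {V | ¬ GoodA V N Q ℓ a E κ₃} ∪ ({V | ¬ GoodB V N Q ℓ a E κ₃} ∪
        {V | ¬ GoodD V N Q ℓ a E κ₃}) := by
    intro V hV
    by_contra hcon
    simp only [Set.mem_union, Set.mem_ofPred_eq, not_or, not_not] at hcon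
    obtain ⟨⟨a1, a2, a3, a6⟩, a4, a5⟩ := hcon
    exact hV ⟨a1, a2, a3, a4, a5, a6⟩
  refine (measure_mono hincl).trans ?_
  refine (measure_union_le _ _).trans ?_
  refine (add_le_add p1 ((measure_union_le _ _).trans (add_le_add p2 p3))).trans ?_
  rw [← ENNReal.ofReal_add (by positivity) (by positivity),
    ← ENNReal.ofReal_add (by positivity) (by positivity)]
  apply ENNReal.ofReal_le_ofReal
  linarith

end Pool.Agent.LE.H59
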