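import Pool.Agent.LE.StmtsA
import Pool.Agent.Helper96_EXP.Cvr
import Pool.Agent.Helper75_Mob.Transfer

/-!
# GEV, first part: the parts of the good event which hold for every choice of `Q`
-/

set_option autoImplicit false

open MeasureTheory ProbabilityTheory Function Filter

open scoped ENNReal BigOperators

noncomputable section

namespace Pool.Agent.LE.H59

open Pool.Agent.Anderson Pool.Agent.Loc Pool.Agent.Helper54.Bal Pool.Agent.LE.H96

variable {d : ℕ}

/-- the parts 1, 2, 3 and 6 of `GoodEv` -/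
def GoodA (V : Site d → ℝ) (N Q ℓ : ℕ) (a : Site d) (E κ₃ : ℝ) : Prop :=
  (RM V (box 0 N) E).det ≠ 0 ∧
  (∀ x ∈ box a (12 * (Q * ℓ)), ∀ y ∈ box a (12 * (Q * ℓ)), gr V (box 0 N) E x y ≠ 0 ∧
    |gr V (box 0 N) E x y| ≤ Real.exp (κ₃ * (Q * ℓ))) ∧
  (∀ x ∈ box a (12 * (Q * ℓ)), ∀ u ∈ box a (12 * (Q * ℓ)), ∀ y ∈ box a (12 * (Q * ℓ)),
    DL (box 0 N) E V x y ≤ DL (box 0 N) E V x u + DL (box 0 N) E V u y + κ₃ * (Q * ℓ)) ∧
  (∀ s ∈ box a (8 * (Q * ℓ)), (RM V (box s (Q * ℓ)) E).det ≠ 0 ∧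
    ∀ x y, |gr V (box s (Q * ℓ)) E x y| ≤ Real.exp (κ₃ * (Q * ℓ)))

theorem dl_le {Λ : Finset (Site d)} {E t : ℝ} {V : Site d → ℝ} {x u y : Site d}
    (h1 : gr V Λ E x y ≠ 0) (h2 : gr V Λ E x u ≠ 0) (h3 : gr V Λ E u y ≠ 0)
    (h : |gr V Λ E x u| * |gr V Λ E u y| ≤ Real.exp t * |gr V Λ E x y|) :
    DL Λ E V x y ≤ DL Λ E V x u + DL Λ E V u y + t := by
  have p1 := abs_pos.2 h1
  have p2 := abs_pos.2 h2
  have p3 := abs_pos.2 h3
  have h4 := Real.log_le_log (mul_pos p2 p3) h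
  rw [Real.log_mul p2.ne' p3.ne', Real.log_mul (Real.exp_pos _).ne' p1.ne', Real.log_exp] at h4
  unfold DL
  linarith

theorem gev1 (hfmn : FmnStmt) (σ E κ₃ p : ℝ) (Q : ℕ) (hd : 1 ≤ d) (hσ : σ ≠ 0) (hκ : 0 < κ₃)
    (hp : 0 < p) (hQ : 1 ≤ Q) (hone : ∃ C, OneTail d (gl σ) E C) :
    ∃ l₀ : ℕ, ∀ ℓ : ℕ, l₀ ≤ ℓ → ∀ (N : ℕ) (a : Site d), box a (12 * (Q * ℓ)) ⊆ box 0 N →
      PP d (gl σ) {V | ¬ GoodA V N Q ℓ a E κ₃} ≤ ENNReal.ofReal p := by
  classical
  obtain ⟨C, hC⟩ := hone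
  have hν := bddDens_gl hσ
  set ρ : ℝ := 1 / |σ| with hρd
  have hρ := hν.1
  have hρ0 : 0 ≤ ρ := by positivity
  obtain ⟨_, _, hF⟩ := hfmn d σ E hd hσ
  set K : ℝ := 6 * ρ + |C| with hK
  have hK0 : 0 ≤ K := by positivity
  have hsmall := poly_small (3 * d) (μ := κ₃ / 3) (by positivity) 1 (12 ^ (3 * d) * K)
    (q := p / 3) (by positivity)
  obtain ⟨L₀, hL₀⟩ := eventually_atTop.1 hsmall
  refine ⟨L₀, fun ℓ hℓ N a ha => ?_⟩
  obtain ⟨L, hL⟩ : ∃ L : ℕ, L = Q * ℓ := ⟨_, rfl⟩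
  have hLr : (Q : ℝ) * ℓ = (L : ℝ) := by rw [hL]; push_cast; ring
  have hLL : L₀ ≤ L := by
    rw [hL]
    exact hℓ.trans (Nat.le_mul_of_pos_left _ hQ)
  have hnum := hL₀ L hLL
  have hLnn : (0 : ℝ) ≤ L := Nat.cast_nonneg L
  have hnum' : (24 * (L : ℝ) + 1) ^ (3 * d) * (K * Real.exp (-(κ₃ / 3) * L)) ≤ p / 3 := by
    refine le_trans ?_ hnum
    have h1 : (24 * (L : ℝ) + 1) ^ (3 * d) ≤ 12 ^ (3 * d) * (2 * (L : ℝ) + 1) ^ (3 * d) := by
      rw [← mul_pow]
      apply pow_le_pow_left₀ (by positivity)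
      linarith
    calc (24 * (L : ℝ) + 1) ^ (3 * d) * (K * Real.exp (-(κ₃ / 3) * L))
        ≤ 12 ^ (3 * d) * (2 * (L : ℝ) + 1) ^ (3 * d) * (K * Real.exp (-(κ₃ / 3) * L)) :=
          mul_le_mul_of_nonneg_right h1 (by positivity)
      _ = 12 ^ (3 * d) * K * (2 * (L : ℝ) + 1) ^ (3 * d) * Real.exp (-(κ₃ / 3) * L) := by ring
  unfold GoodA
  rw [← hL, hLr]
  set A := box a (12 * L) with hA
  rw [← hL] at ha
  set T : ℝ := Real.exp (κ₃ * L) with hT
  have hTpos : 0 < T := Real.exp_pos _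
  have hTe : 6 * ρ / T ≤ K * Real.exp (-(κ₃ / 3) * L) := by
    rw [div_eq_mul_inv, hT, ← Real.exp_neg]
    apply mul_le_mul
    · rw [hK]
      linarith [abs_nonneg C]
    · rw [Real.exp_le_exp]
      have : 0 ≤ κ₃ * L := by positivity
      linarith
    · positivity
    · positivity
  have hCe : C * Real.exp (-(κ₃ * L) / 3) ≤ K * Real.exp (-(κ₃ / 3) * L) := by
    rw [show -(κ₃ * (L : ℝ)) / 3 = -(κ₃ / 3) * L by ring]
    apply mul_le_mul_of_nonneg_right _ (Real.exp_pos _).le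
    rw [hK]
    linarith [le_abs_self C]
  have hcA : (A.card : ℝ) = (24 * L + 1) ^ d := by
    rw [hA, card_box]
    push_cast
    congr 1
    ring
  have hone' : (1 : ℝ) ≤ 24 * L + 1 := by linarith
  set q : ℝ := K * Real.exp (-(κ₃ / 3) * L) with hq
  have hq0 : 0 ≤ q := by positivity
  set M0 : Set (Site d → ℝ) := {V | (RM V (box 0 N) E).det = 0} with hM0
  set M1 : Set (Site d → ℝ) := ⋃ z ∈ A ×ˢ A, {V | gr V (box 0 N) E z.1 z.2 = 0} with hM1
  set M2 : Set (Site d → ℝ) := ⋃ z ∈ A ×ˢ A, {V | T < |gr V (box 0 N) E z.1 z.2|} with hM2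
  set M3 : Set (Site d → ℝ) := ⋃ z ∈ A ×ˢ (A ×ˢ A),
    {V | Real.exp (κ₃ * L) * |gr V (box 0 N) E z.1 z.2.2| <
      |gr V (box 0 N) E z.1 z.2.1| * |gr V (box 0 N) E z.2.1 z.2.2|} with hM3
  set M4 : Set (Site d → ℝ) := ⋃ s ∈ box a (8 * L), {V | (RM V (box s L) E).det = 0} with hM4
  set M5 : Set (Site d → ℝ) := ⋃ s ∈ box a (8 * L), ⋃ z ∈ box s L ×ˢ box s L,
    {V | T < |gr V (box s L) E z.1 z.2|} with hM5
  have hnull : ∀ Λ : Finset (Site d), PP d (gl σ) {V | (RM V Λ E).det = 0} = 0 := by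
    intro Λ
    have h1 : Pool.Agent.Mob.H75.Loc {V : Site d → ℝ | (RM V Λ E).det = 0} Λ := by
      intro V V' h
      rw [Set.mem_ofPred_eq, Set.mem_ofPred_eq, RM_congr h]
    exact le_antisymm ((Pool.Agent.Mob.H75.PP_le_PL h1).trans (PL_det hν _ _ le_rfl E).le) zero_le
  have hweak : ∀ (Λ : Finset (Site d)) (x y : Site d),
      PP d (gl σ) {V | T < |gr V Λ E x y|} ≤ ENNReal.ofReal q := by
    intro Λ x y
    have h1 : Pool.Agent.Mob.H75.Loc {V : Site d → ℝ | T < |gr V Λ E x y|} Λ := by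
      intro V V' h
      rw [Set.mem_ofPred_eq, Set.mem_ofPred_eq, gr_congr h]
    exact ((Pool.Agent.Mob.H75.PP_le_PL h1).trans (PL_weak hν _ E x y hTpos)).trans
      (ENNReal.ofReal_le_ofReal hTe)
  have p0 : PP d (gl σ) M0 = 0 := hnull _
  have p1 : PP d (gl σ) M1 = 0 := by
    refine le_antisymm ((measure_biUnion_finset_le _ _).trans
      (le_of_eq (Finset.sum_eq_zero fun z hz => ?_))) zero_le
    have hz' := Finset.mem_product.1 hz
    exact (hF N).2 z.1 (ha hz'.1) z.2 (ha hz'.2)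
  have p4 : PP d (gl σ) M4 = 0 := by
    exact le_antisymm ((measure_biUnion_finset_le _ _).trans
      (le_of_eq (Finset.sum_eq_zero fun s _ => hnull _))) zero_le
  have hpow : ∀ k : ℕ, k ≤ 3 → (24 * (L : ℝ) + 1) ^ (k * d) ≤ (24 * (L : ℝ) + 1) ^ (3 * d) := by
    intro k hk
    exact pow_le_pow_right₀ hone' (Nat.mul_le_mul_right d hk)
  have p2 : PP d (gl σ) M2 ≤ ENNReal.ofReal (p / 3) := by
    apply union_le (q := q)
    · intro z _
      exact hweak _ _ _
    · refine le_trans ?_ hnum'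
      apply mul_le_mul_of_nonneg_right _ hq0
      rw [Finset.card_product]
      push_cast
      rw [hcA, ← pow_add, show d + d = 2 * d by ring]
      exact hpow 2 (by norm_num)
  have p3 : PP d (gl σ) M3 ≤ ENNReal.ofReal (p / 3) := by
    apply union_le (q := q)
    · intro z hz
      rw [Finset.mem_product, Finset.mem_product] at hz
      have h1 : Pool.Agent.Mob.H75.Loc {V : Site d → ℝ |
          Real.exp (κ₃ * L) * |gr V (box 0 N) E z.1 z.2.2| <
            |gr V (box 0 N) E z.1 z.2.1| * |gr V (box 0 N) E z.2.1 z.2.2|} (box 0 N) := by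
        intro V V' h
        rw [Set.mem_ofPred_eq, Set.mem_ofPred_eq, gr_congr h, gr_congr h, gr_congr h]
      refine (Pool.Agent.Mob.H75.PP_le_PL h1).trans ?_
      refine (hC (box 0 N) z.1 z.2.1 z.2.2 (κ₃ * L) (ha hz.1) (ha hz.2.1) (ha hz.2.2)
        (by positivity)).trans ?_
      exact ENNReal.ofReal_le_ofReal hCe
    · refine le_trans ?_ hnum'
      apply mul_le_mul_of_nonneg_right _ hq0
      rw [Finset.card_product, Finset.card_product]
      push_cast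
      rw [hcA, ← pow_add, ← pow_add, show d + (d + d) = 3 * d by ring]
  have p5 : PP d (gl σ) M5 ≤ ENNReal.ofReal (p / 3) := by
    apply union_le (q := (24 * L + 1) ^ (2 * d) * q)
    · intro s _
      apply union_le (q := q)
      · intro z _
        exact hweak _ _ _
      · apply mul_le_mul_of_nonneg_right _ hq0
        rw [Finset.card_product, card_box]
        push_cast
        rw [← pow_add, show d + d = 2 * d by ring]
        apply pow_le_pow_left₀ (by positivity)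
        linarith
    · refine le_trans ?_ hnum'
      rw [← mul_assoc]
      apply mul_le_mul_of_nonneg_right _ hq0
      rw [card_box]
      push_cast
      calc (2 * (8 * (L : ℝ)) + 1) ^ d * (24 * (L : ℝ) + 1) ^ (2 * d)
          ≤ (24 * (L : ℝ) + 1) ^ d * (24 * (L : ℝ) + 1) ^ (2 * d) := by
            apply mul_le_mul_of_nonneg_right _ (by positivity)
            apply pow_le_pow_left₀ (by positivity)
            linarith
        _ = (24 * (L : ℝ) + 1) ^ (3 * d) := by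
            rw [← pow_add, show d + 2 * d = 3 * d by ring]
  have hincl : {V : Site d → ℝ | ¬ ((RM V (box 0 N) E).det ≠ 0 ∧
      (∀ x ∈ A, ∀ y ∈ A, gr V (box 0 N) E x y ≠ 0 ∧ |gr V (box 0 N) E x y| ≤ T) ∧
      (∀ x ∈ A, ∀ u ∈ A, ∀ y ∈ A,
        DL (box 0 N) E V x y ≤ DL (box 0 N) E V x u + DL (box 0 N) E V u y + κ₃ * L) ∧
      (∀ s ∈ box a (8 * L), (RM V (box s L) E).det ≠ 0 ∧
        ∀ x y, |gr V (box s L) E x y| ≤ T))} ⊆ (M0 ∪ M1 ∪ M4) ∪ (M2 ∪ (M3 ∪ M5)) := by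
    intro V hV
    by_contra hcon
    simp only [Set.mem_union, not_or] at hcon
    obtain ⟨⟨⟨c0, c1⟩, c4⟩, c2, c3, c5⟩ := hcon
    apply hV
    have hg0 : ∀ x ∈ A, ∀ y ∈ A, gr V (box 0 N) E x y ≠ 0 := by
      intro x hx y hy h0
      apply c1
      rw [hM1]
      simp only [Set.mem_iUnion, exists_prop]
      exact ⟨(x, y), Finset.mem_product.2 ⟨hx, hy⟩, h0⟩
    refine ⟨c0, fun x hx y hy => ⟨hg0 x hx y hy, ?_⟩, ?_, ?_⟩
    · by_contra h0
      rw [not_le] at h0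
      apply c2
      rw [hM2]
      simp only [Set.mem_iUnion, exists_prop]
      exact ⟨(x, y), Finset.mem_product.2 ⟨hx, hy⟩, h0⟩
    · intro x hx u hu y hy
      apply dl_le (hg0 x hx y hy) (hg0 x hx u hu) (hg0 u hu y hy)
      by_contra h0
      rw [not_le] at h0
      apply c3
      rw [hM3]
      simp only [Set.mem_iUnion, exists_prop]
      exact ⟨(x, (u, y)), Finset.mem_product.2 ⟨hx, Finset.mem_product.2 ⟨hu, hy⟩⟩, h0⟩
    · intro s hs
      refine ⟨fun h0 => ?_, fun x y => ?_⟩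
      · apply c4
        rw [hM4]
        simp only [Set.mem_iUnion, exists_prop]
        exact ⟨s, hs, h0⟩
      · by_cases hxy : x ∈ box s L ∧ y ∈ box s L
        · by_contra h0
          rw [not_le] at h0
          apply c5
          rw [hM5]
          simp only [Set.mem_iUnion, exists_prop]
          exact ⟨s, hs, (x, y), Finset.mem_product.2 hxy, h0⟩
        · unfold gr
          rw [dif_neg hxy, abs_zero]
          exact hTpos.le
  refine (measure_mono hincl).trans ?_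
  refine (measure_union_le _ _).trans ?_
  have hz : PP d (gl σ) (M0 ∪ M1 ∪ M4) = 0 := measure_union_null (measure_union_null p0 p1) p4
  rw [hz, zero_add]
  refine (measure_union_le _ _).trans ?_
  refine (add_le_add p2 ((measure_union_le _ _).trans (add_le_add p3 p5))).trans ?_
  rw [← ENNReal.ofReal_add (by positivity) (by positivity),
    ← ENNReal.ofReal_add (by positivity) (by positivity)]
  apply ENNReal.ofReal_le_ofReal
  linarith

end Pool.Agent.LE.H59
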