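import Pool.Agent.LE.StmtsG
import Pool.Agent.Helper59_LE.Gev3

/-!
# GEVG: the good events at two scales
-/

set_option autoImplicit false

open MeasureTheory ProbabilityTheory Function Filter

open scoped ENNReal BigOperators

noncomputable section

namespace Pool.Agent.LE.H59

open Pool.Agent.Anderson Pool.Agent.Loc Pool.Agent.Helper54.Bal Pool.Agent.LE.H96

variable {d : ℕ}

/-- the last part of `GoodG` -/
def GoodC6 (V : Site d → ℝ) (Q ℓ : ℕ) (a : Site d) (E κ₃ : ℝ) : Prop :=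
  ∀ r < Q, ∀ s ∈ box a (8 * (Q * ℓ)), (RM V (box s (Q * ℓ + r)) E).det ≠ 0 ∧
    ∀ x y, |gr V (box s (Q * ℓ + r)) E x y| ≤ Real.exp (κ₃ * (Q * ℓ))

theorem gev6 (σ E κ₃ p : ℝ) (Q : ℕ) (hσ : σ ≠ 0) (hκ : 0 < κ₃)
    (hp : 0 < p) (hQ : 1 ≤ Q) :
    ∃ l₀ : ℕ, ∀ ℓ : ℕ, l₀ ≤ ℓ → ∀ a : Site d,
      PP d (gl σ) {V | ¬ GoodC6 V Q ℓ a E κ₃} ≤ ENNReal.ofReal p := by
  classical
  have hν := bddDens_gl hσ
  set ρ : ℝ := 1 / |σ| with hρd
  have hρ := hν.1
  have hQr : (1 : ℝ) ≤ Q := by exact_mod_cast hQ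
  have hsmall := poly_small (3 * d) (μ := κ₃) hκ 1 (12 ^ (3 * d) * (Q * (6 * ρ)))
    (q := p) hp
  obtain ⟨L₀, hL₀⟩ := eventually_atTop.1 hsmall
  refine ⟨max L₀ 1, fun ℓ hℓ a => ?_⟩
  obtain ⟨L, hL⟩ : ∃ L : ℕ, L = Q * ℓ := ⟨_, rfl⟩
  have hLr : (Q : ℝ) * ℓ = (L : ℝ) := by rw [hL]; push_cast; ring
  have hLL : L₀ ≤ L := by
    rw [hL]
    exact ((le_max_left _ _).trans hℓ).trans (Nat.le_mul_of_pos_left _ hQ)
  have hQL : Q ≤ L := by
    rw [hL]
    exact Nat.le_mul_of_pos_right _ ((le_max_right _ _).trans hℓ)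
  have hnum := hL₀ L hLL
  have hLnn : (0 : ℝ) ≤ L := Nat.cast_nonneg L
  obtain ⟨q, hq⟩ : ∃ q : ℝ, q = 6 * ρ * Real.exp (-κ₃ * L) := ⟨_, rfl⟩
  have hq0 : 0 ≤ q := by rw [hq]; positivity
  have hnum' : (24 * (L : ℝ) + 1) ^ (3 * d) * (Q * q) ≤ p := by
    refine le_trans ?_ hnum
    have h1 : (24 * (L : ℝ) + 1) ^ (3 * d) ≤ 12 ^ (3 * d) * (2 * (L : ℝ) + 1) ^ (3 * d) := by
      rw [← mul_pow]
      apply pow_le_pow_left₀ (by positivity)
      linarith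
    calc (24 * (L : ℝ) + 1) ^ (3 * d) * (Q * q)
        ≤ 12 ^ (3 * d) * (2 * (L : ℝ) + 1) ^ (3 * d) * (Q * q) :=
          mul_le_mul_of_nonneg_right h1 (by positivity)
      _ = 12 ^ (3 * d) * (Q * (6 * ρ)) * (2 * (L : ℝ) + 1) ^ (3 * d) * Real.exp (-κ₃ * L) := by
          rw [hq]
          ring
  unfold GoodC6
  rw [← hL, hLr]
  set T : ℝ := Real.exp (κ₃ * L) with hT
  have hTpos : 0 < T := Real.exp_pos _
  have hTe : 6 * ρ / T = q := by
    rw [div_eq_mul_inv, hT, ← Real.exp_neg, hq]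
    congr 2
    ring
  set I : Finset (ℕ × Site d) := Finset.range Q ×ˢ box a (8 * L) with hI
  set M4 : Set (Site d → ℝ) := ⋃ i ∈ I, {V | (RM V (box i.2 (L + i.1)) E).det = 0} with hM4
  set M5 : Set (Site d → ℝ) := ⋃ i ∈ I, ⋃ z ∈ box i.2 (L + i.1) ×ˢ box i.2 (L + i.1),
    {V | T < |gr V (box i.2 (L + i.1)) E z.1 z.2|} with hM5
  have hnull : ∀ Λ : Finset (Site d), PP d (gl σ) {V | (RM V Λ E).det = 0} = 0 := by
    intro Λ
    have h1 : Pool.Agent.Mob.H75.Loc {V : Site d → ℝ | (RM V Λ E).det = 0} Λ := by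
      intro V V' h
      rw [Set.mem_ofPred_eq, Set.mem_ofPred_eq, RM_congr h]
    exact le_antisymm ((Pool.Agent.Mob.H75.PP_le_PL h1).trans (PL_det hν _ _ le_rfl E).le) zero_le
  have hweak : ∀ (Λ : Finset (Site d)) (x y : Site d),
      PP d (gl σ) {V | T < |gr V Λ E x y|} ≤ ENNReal.ofReal q := by
    intro Λ x y
    have h1 : Pool.Agent.Mob.H75.Loc {V : Site d → ℝ | T < |gr V Λ E x y|} Λ := by
      intro V V' h
      rw [Set.mem_ofPred_eq, Set.mem_ofPred_eq, gr_congr h]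
    have h2 := (Pool.Agent.Mob.H75.PP_le_PL h1).trans (PL_weak hν Λ E x y hTpos)
    rwa [hTe] at h2
  have p4 : PP d (gl σ) M4 = 0 :=
    le_antisymm ((measure_biUnion_finset_le _ _).trans
      (le_of_eq (Finset.sum_eq_zero fun i _ => hnull _))) zero_le
  have p5 : PP d (gl σ) M5 ≤ ENNReal.ofReal p := by
    apply union_le (q := (24 * L + 1) ^ (2 * d) * q)
    · intro i hi
      apply union_le (q := q)
      · intro z _
        exact hweak _ _ _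
      · apply mul_le_mul_of_nonneg_right _ hq0
        rw [Finset.card_product, card_box]
        push_cast
        rw [← pow_add, show d + d = 2 * d by ring]
        apply pow_le_pow_left₀ (by positivity)
        rw [hI, Finset.mem_product, Finset.mem_range] at hi
        have h3 : (i.1 : ℝ) ≤ L := by
          have : i.1 ≤ L := by omega
          exact_mod_cast this
        linarith
    · refine le_trans ?_ hnum'
      rw [hI, Finset.card_product, Finset.card_range, card_box]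
      push_cast
      calc (Q : ℝ) * (2 * (8 * (L : ℝ)) + 1) ^ d * ((24 * (L : ℝ) + 1) ^ (2 * d) * q)
          ≤ (Q : ℝ) * (24 * (L : ℝ) + 1) ^ d * ((24 * (L : ℝ) + 1) ^ (2 * d) * q) := by
            apply mul_le_mul_of_nonneg_right _ (by positivity)
            apply mul_le_mul_of_nonneg_left _ (by positivity)
            apply pow_le_pow_left₀ (by positivity)
            linarith
        _ = (24 * (L : ℝ) + 1) ^ (3 * d) * (Q * q) := by
            rw [show 3 * d = d + 2 * d by ring, pow_add]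
            ring
  have hincl : {V : Site d → ℝ | ¬ ∀ r < Q, ∀ s ∈ box a (8 * L),
      (RM V (box s (L + r)) E).det ≠ 0 ∧ ∀ x y, |gr V (box s (L + r)) E x y| ≤ T} ⊆
      M4 ∪ M5 := by
    intro V hV
    by_contra hcon
    simp only [Set.mem_union, not_or] at hcon
    obtain ⟨c4, c5⟩ := hcon
    apply hV
    intro r hr s hs
    have hmem : (r, s) ∈ I := by
      rw [hI, Finset.mem_product, Finset.mem_range]
      exact ⟨hr, hs⟩
    refine ⟨fun h0 => ?_, fun x y => ?_⟩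
    · apply c4
      rw [hM4]
      simp only [Set.mem_iUnion, exists_prop]
      exact ⟨(r, s), hmem, h0⟩
    · by_cases hxy : x ∈ box s (L + r) ∧ y ∈ box s (L + r)
      · by_contra h0
        rw [not_le] at h0
        apply c5
        rw [hM5]
        simp only [Set.mem_iUnion, exists_prop]
        exact ⟨(r, s), hmem, (x, y), Finset.mem_product.2 hxy, h0⟩
      · unfold gr
        rw [dif_neg hxy, abs_zero]
        exact hTpos.le
  refine (measure_mono hincl).trans ?_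
  refine (measure_union_le _ _).trans ?_
  rw [p4, zero_add]
  exact p5

theorem gevX {σ E κ₃ C ε p : ℝ} {N Q ℓ ℓ' : ℕ} {a : Site d} (hκ : 0 < κ₃) (hQ : 1 ≤ Q)
    (hF : FamN d N (PP d (gl σ)) C (DL (box 0 N) E))
    (ha : box a (12 * (Q * ℓ)) ⊆ box 0 N) (ha' : box a (12 * (Q * ℓ')) ⊆ box 0 N)
    (h : ∀ y : Site d, sd 0 y ≤ 8 * Q →
      ∫ V, |DL (box 0 N) E V a (a + sm ℓ y) / ℓ -
        DL (box 0 N) E V a (a + sm ℓ' y) / ℓ'| ∂(PP d (gl σ)) ≤ ε)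
    (hp : (2 * (Q : ℝ) + 1) ^ d * (ε / (κ₃ * Q)) ≤ p) :
    PP d (gl σ) {V | ¬ CrossG V N Q ℓ ℓ' a E κ₃} ≤ ENNReal.ofReal p := by
  classical
  have hQr : (1 : ℝ) ≤ Q := by exact_mod_cast hQ
  set M : Set (Site d → ℝ) := ⋃ y ∈ box (0 : Site d) Q,
    {V | κ₃ * Q < |DL (box 0 N) E V a (a + sm ℓ y) / ℓ -
        DL (box 0 N) E V a (a + sm ℓ' y) / ℓ'|} with hM
  have hincl : {V : Site d → ℝ | ¬ CrossG V N Q ℓ ℓ' a E κ₃} ⊆ M := by
    intro V hV
    by_contra hcon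
    apply hV
    intro y hy
    by_contra h0
    rw [not_le] at h0
    apply hcon
    rw [hM]
    simp only [Set.mem_iUnion, exists_prop]
    exact ⟨y, hy, h0⟩
  refine (measure_mono hincl).trans ?_
  apply union_le (q := ε / (κ₃ * Q))
  · intro y hy
    have h1 := sd_sm_le (ℓ := ℓ) (a := a) hy
    have h2 := sd_sm_le (ℓ := ℓ') (a := a) hy
    have m0 : a ∈ box (0 : Site d) N := ha (by rw [mem_box, sd_self]; omega)
    have m1 : a + sm ℓ y ∈ box (0 : Site d) N := ha (by rw [mem_box]; omega)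
    have m2 : a + sm ℓ' y ∈ box (0 : Site d) N := ha' (by rw [mem_box]; omega)
    have i1 := (FamN.integrable hF m0 m1).div_const (ℓ : ℝ)
    have i2 := (FamN.integrable hF m0 m2).div_const (ℓ' : ℝ)
    exact markov (PP d (gl σ)) (fun V => abs_nonneg _) (i1.sub i2).abs
      (t := κ₃ * Q) (by positivity) (h y ((mem_box.1 hy).trans (by omega)))
  · refine le_trans (le_of_eq ?_) hp
    rw [card_box]
    push_cast
    rfl

theorem gevg (hpig : Pig3Stmt) (hfmn : FmnStmt)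
    (hone : ∀ (d : ℕ) (σ E : ℝ), 1 ≤ d → σ ≠ 0 → ∃ C, OneTail d (gl σ) E C)
    (hchn : ∀ (d : ℕ) (σ E : ℝ), 1 ≤ d → σ ≠ 0 → ∃ C, ChnTail d (gl σ) E C) : GevGStmt := by
  intro d σ E κ₃ p hd hσ hκ hp
  have hp9 : 0 < p / 9 := by positivity
  obtain ⟨Q, hQ4, hB⟩ := gev2 (d := d) σ E κ₃ (p / 9) hd hκ hp9 (hchn d σ E hd hσ)
  have hQ1 : 1 ≤ Q := by omega
  have hQr : (4 : ℝ) ≤ Q := by exact_mod_cast hQ4
  obtain ⟨l₁, hA⟩ := gev1 (d := d) hfmn σ E κ₃ (p / 9) Q hd hσ hκ hp9 hQ1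
    (hone d σ E hd hσ)
  obtain ⟨l₃, h6⟩ := gev6 (d := d) σ E κ₃ (p / 9) Q hσ hκ hp9 hQ1
  obtain ⟨C, hC, hF⟩ := hfmn d σ E hd hσ
  set W : ℝ := (16 * (Q : ℝ) + 1) ^ d * (2 * (Q : ℝ) + 1) ^ d with hW
  have hW0 : 0 < W := by positivity
  set ε : ℝ := p / 9 * (κ₃ * Q) / W with hε
  have hε0 : 0 < ε := by positivity
  have hWε : W * (ε / (κ₃ * Q)) = p / 9 := by
    rw [hε]
    field_simp
  obtain ⟨l₂, hl₂, hP⟩ := hpig d (8 * Q) (12 * Q) C ε hC hε0 (by omega) (Site d → ℝ)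
    (PP d (gl σ)) (fun N => DL (box 0 N) E) (fun N => (hF N).1)
  refine ⟨Q, hQ1, max l₁ (max l₂ (max l₃ 1)), by omega, fun ℓ ℓ' hℓ hℓ' => ?_⟩
  obtain ⟨N, a, ha, ha', hE⟩ := hP ℓ ℓ' (by omega) (by omega)
  have hb : box a (12 * (Q * ℓ)) ⊆ box 0 N := by
    rw [← mul_assoc]
    exact ha
  have hb' : box a (12 * (Q * ℓ')) ⊆ box 0 N := by
    rw [← mul_assoc]
    exact ha'
  refine ⟨N, a, hb, hb', ?_⟩
  have a1 := hA ℓ (by omega) N a hb
  have a1' := hA ℓ' (by omega) N a hb'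
  have a2 := hB ℓ (by omega) N a hb
  have a2' := hB ℓ' (by omega) N a hb'
  have a6 := h6 ℓ (by omega) a
  have a6' := h6 ℓ' (by omega) a
  have a3 : PP d (gl σ) {V | ¬ GoodD V N Q ℓ a E κ₃} ≤ ENNReal.ofReal (p / 9) := by
    apply gev3 hκ hQ1 (by omega) (hF N).1 hb (fun y k hy hk => (hE y k hy hk).1)
    exact le_of_eq hWε
  have a3' : PP d (gl σ) {V | ¬ GoodD V N Q ℓ' a E κ₃} ≤ ENNReal.ofReal (p / 9) := by
    apply gev3 hκ hQ1 (by omega) (hF N).1 hb' (fun y k hy hk => (hE y k hy hk).2.1)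
    exact le_of_eq hWε
  have aX : PP d (gl σ) {V | ¬ CrossG V N Q ℓ ℓ' a E κ₃} ≤ ENNReal.ofReal (p / 9) := by
    apply gevX hκ hQ1 (hF N).1 hb hb'
      (fun y hy => (hE y 0 hy (by rw [sd_self]; omega)).2.2)
    rw [← hWε]
    apply mul_le_mul_of_nonneg_right _ (by positivity)
    rw [hW]
    apply le_mul_of_one_le_left (by positivity)
    apply one_le_pow₀
    linarith
  have hincl : {V : Site d → ℝ | ¬ (GoodG V N Q ℓ a E κ₃ ∧ GoodG V N Q ℓ' a E κ₃ ∧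
      CrossG V N Q ℓ ℓ' a E κ₃)} ⊆
      ((({V | ¬ GoodA V N Q ℓ a E κ₃} ∪ {V | ¬ GoodA V N Q ℓ' a E κ₃}) ∪
        ({V | ¬ GoodB V N Q ℓ a E κ₃} ∪ {V | ¬ GoodB V N Q ℓ' a E κ₃})) ∪
      (({V | ¬ GoodC6 V Q ℓ a E κ₃} ∪ {V | ¬ GoodC6 V Q ℓ' a E κ₃}) ∪
        ({V | ¬ GoodD V N Q ℓ a E κ₃} ∪ {V | ¬ GoodD V N Q ℓ' a E κ₃}))) ∪
      {V | ¬ CrossG V N Q ℓ ℓ' a E κ₃} := by
    intro V hV
    by_contra hcon
    simp only [Set.mem_union, Set.mem_ofPred_eq, not_or, not_not] at hcon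
    obtain ⟨⟨⟨⟨⟨b1, b2, b3, _⟩, ⟨b1', b2', b3', _⟩⟩, b4, b4'⟩, ⟨b6, b6'⟩, b5, b5'⟩, bX⟩ := hcon
    exact hV ⟨⟨b1, b2, b3, b4, b5, b6⟩, ⟨b1', b2', b3', b4', b5', b6'⟩, bX⟩
  refine (measure_mono hincl).trans ?_
  have hadd : ∀ {A B : Set (Site d → ℝ)} {x y : ℝ}, 0 ≤ x → 0 ≤ y →
      PP d (gl σ) A ≤ ENNReal.ofReal x → PP d (gl σ) B ≤ ENNReal.ofReal y →
      PP d (gl σ) (A ∪ B) ≤ ENNReal.ofReal (x + y) := by
    intro A B x y hx hy h1 h2
    rw [ENNReal.ofReal_add hx hy]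
    exact (measure_union_le _ _).trans (add_le_add h1 h2)
  have t1 := hadd hp9.le hp9.le a1 a1'
  have t2 := hadd hp9.le hp9.le a2 a2'
  have t3 := hadd hp9.le hp9.le a6 a6'
  have t4 := hadd hp9.le hp9.le a3 a3'
  have t12 := hadd (by positivity) (by positivity) t1 t2
  have t34 := hadd (by positivity) (by positivity) t3 t4
  have t := hadd (by positivity) hp9.le (hadd (by positivity) (by positivity) t12 t34) aX
  refine t.trans (ENNReal.ofReal_le_ofReal ?_)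
  linarith

end Pool.Agent.LE.H59
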