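import Pool.Agent.LE.StmtsA

/-!
# BLO: at a good scale, the distances `ℓ` and `nℓ`
-/

set_option autoImplicit false
set_option linter.unusedSectionVars false

open MeasureTheory ProbabilityTheory Function Filter

open scoped ENNReal BigOperators

noncomputable section

namespace Pool.Agent.LE.H59A

open Pool.Agent.Anderson Pool.Agent.Loc Pool.Agent.Helper54.Bal

variable {d : ℕ}

section
variable {Ω : Type} [MeasurableSpace Ω] {P : Measure Ω} [IsProbabilityMeasure P]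

theorem sq_int_abs {f : Ω → ℝ} (hf : MemLp f 2 P) :
    (∫ ω, |f ω| ∂P) ^ 2 ≤ ∫ ω, f ω ^ 2 ∂P := by
  have i1 : Integrable f P := hf.integrable one_le_two
  have i2 : Integrable (fun ω => f ω ^ 2) P := (memLp_two_iff_integrable_sq hf.1).1 hf
  obtain ⟨m, hm⟩ : ∃ m, m = ∫ ω, |f ω| ∂P := ⟨_, rfl⟩
  rw [← hm]
  have h1 : 0 ≤ ∫ ω, (|f ω| - m) ^ 2 ∂P := integral_nonneg fun ω => sq_nonneg _
  have h2 : ∀ ω, (|f ω| - m) ^ 2 = f ω ^ 2 - 2 * m * |f ω| + m ^ 2 := by
    intro ω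
    rw [sub_sq, sq_abs]
    ring
  simp_rw [h2] at h1
  have j1 : Integrable (fun ω => 2 * m * |f ω|) P := i1.abs.const_mul _
  have j2 : Integrable (fun ω => f ω ^ 2 - 2 * m * |f ω|) P := i2.sub j1
  rw [integral_add j2 (integrable_const _), integral_sub i2 j1, integral_const_mul,
    integral_const, ← hm, probReal_univ, one_smul] at h1
  nlinarith

theorem int_abs_le {f : Ω → ℝ} (hf : MemLp f 2 P) {c : ℝ} (hc : ∫ ω, f ω ^ 2 ∂P ≤ c ^ 2)
    (hc0 : 0 ≤ c) : ∫ ω, |f ω| ∂P ≤ c :=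
  (abs_le_of_sq_le_sq ((sq_int_abs hf).trans hc) hc0).trans' (le_abs_self _)

variable {N : ℕ} {C : ℝ} {D : Ω → Site d → Site d → ℝ}

theorem mem2 (h : FamN d N P C D) {x y : Site d} (hx : x ∈ box (0 : Site d) N)
    (hy : y ∈ box (0 : Site d) N) : MemLp (fun ω => D ω x y) 2 P :=
  (memLp_two_iff_integrable_sq (h.meas x y).aestronglyMeasurable).2 (h.int x hx y hy)

theorem abs_D (h : FamN d N P C D) (hC : 0 ≤ C) {x y : Site d} (hx : x ∈ box (0 : Site d) N)
    (hy : y ∈ box (0 : Site d) N) : ∫ ω, |D ω x y| ∂P ≤ √C * (sd x y + 1) := by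
  apply int_abs_le (mem2 h hx hy)
  · rw [mul_pow, Real.sq_sqrt hC]
    exact h.sq x hx y hy
  · positivity

theorem mem2_tri (h : FamN d N P C D) {x u y : Site d} (hx : x ∈ box (0 : Site d) N)
    (hu : u ∈ box (0 : Site d) N) (hy : y ∈ box (0 : Site d) N) :
    MemLp (fun ω => max 0 (D ω x y - D ω x u - D ω u y)) 2 P := by
  have h1 : MemLp (fun ω => D ω x y - D ω x u - D ω u y) 2 P :=
    ((mem2 h hx hy).sub (mem2 h hx hu)).sub (mem2 h hu hy)
  refine h1.mono ?_ ?_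
  · exact (measurable_const.max
      (((h.meas x y).sub (h.meas x u)).sub (h.meas u y))).aestronglyMeasurable
  · refine Filter.Eventually.of_forall fun ω => ?_
    rw [Real.norm_eq_abs, Real.norm_eq_abs, abs_of_nonneg (le_max_left _ _)]
    exact max_le (abs_nonneg _) (le_abs_self _)

theorem tri_le (h : FamN d N P C D) (hC : 0 ≤ C) {x u y : Site d}
    (hx : x ∈ box (0 : Site d) N) (hu : u ∈ box (0 : Site d) N) (hy : y ∈ box (0 : Site d) N) :
    ∫ ω, max 0 (D ω x y - D ω x u - D ω u y) ∂P ≤ √C := by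
  have h1 := int_abs_le (mem2_tri h hx hu hy) (c := √C)
    (by rw [Real.sq_sqrt hC]; exact h.tri x hx u hu y hy) (Real.sqrt_nonneg _)
  refine le_trans (le_of_eq ?_) h1
  apply integral_congr_ae
  refine Filter.Eventually.of_forall fun ω => ?_
  simp only
  rw [abs_of_nonneg (le_max_left _ _)]

end

/-! ### averages -/

theorem card_pos_real (d R : ℕ) : (0 : ℝ) < (2 * R + 1) ^ d := by positivity

theorem av_mono {R : ℕ} {f g : Site d → ℝ} (h : ∀ a ∈ box (0 : Site d) R, f a ≤ g a) :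
    Av R f ≤ Av R g :=
  div_le_div_of_nonneg_right (Finset.sum_le_sum h) (card_pos_real d R).le

theorem av_add (R : ℕ) (f g : Site d → ℝ) :
    Av R (fun a => f a + g a) = Av R f + Av R g := by
  unfold Av
  rw [Finset.sum_add_distrib, add_div]

theorem av_sub (R : ℕ) (f g : Site d → ℝ) :
    Av R (fun a => f a - g a) = Av R f - Av R g := by
  unfold Av
  rw [Finset.sum_sub_distrib, sub_div]

theorem av_const (R : ℕ) (c : ℝ) : Av R (fun _ : Site d => c) = c := by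
  unfold Av
  rw [Finset.sum_const, card_box, nsmul_eq_mul]
  push_cast
  rw [mul_div_cancel_left₀ _ (card_pos_real d R).ne']

theorem av_div (R : ℕ) (f : Site d → ℝ) (c : ℝ) :
    Av R (fun a => f a / c) = Av R f / c := by
  unfold Av
  rw [← Finset.sum_div, div_right_comm]

theorem av_sum {ι : Type*} (R : ℕ) (s : Finset ι) (f : ι → Site d → ℝ) :
    Av R (fun a => ∑ i ∈ s, f i a) = ∑ i ∈ s, Av R (f i) := by
  unfold Av
  rw [Finset.sum_comm, Finset.sum_div]

theorem av_sq (R : ℕ) (f : Site d → ℝ) : Av R f ^ 2 ≤ Av R fun a => f a ^ 2 := by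
  unfold Av
  have h1 := sq_sum_le_card_mul_sum_sq (s := box (0 : Site d) R) (f := f)
  rw [card_box] at h1
  push_cast at h1
  have h2 := card_pos_real d R
  rw [div_pow, div_le_div_iff₀ (by positivity) h2]
  calc (∑ a ∈ box (0 : Site d) R, f a) ^ 2 * (2 * (R : ℝ) + 1) ^ d
      ≤ ((2 * (R : ℝ) + 1) ^ d * ∑ a ∈ box (0 : Site d) R, f a ^ 2) * (2 * (R : ℝ) + 1) ^ d :=
        mul_le_mul_of_nonneg_right h1 h2.le
    _ = (∑ a ∈ box (0 : Site d) R, f a ^ 2) * ((2 * (R : ℝ) + 1) ^ d) ^ 2 := by ring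

/-! ### the points -/

theorem sm_zero (y : Site d) : sm 0 y = 0 := by
  funext j
  simp [sm]

theorem sm_add (k l : ℕ) (y : Site d) : sm (k + l) y = sm k y + sm l y := by
  funext j
  simp only [sm, Pi.add_apply]
  push_cast
  ring

theorem sd_sm {ℓ K : ℕ} {y : Site d} (hy : sd 0 y ≤ K) : sd 0 (sm ℓ y) ≤ K * ℓ := by
  rw [sd_le_iff] at hy ⊢
  intro i
  have h1 := hy i
  rw [Pi.zero_apply, zero_sub, abs_neg] at h1 ⊢
  unfold sm
  rw [abs_mul, Nat.abs_cast]
  push_cast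
  rw [mul_comm]
  exact mul_le_mul_of_nonneg_right h1 (by positivity)

theorem sd_add_right (a b : Site d) : sd a (a + b) = sd 0 b := by
  unfold sd
  congr 1
  funext i
  rw [Pi.add_apply, Pi.zero_apply]
  congr 1
  ring

/-- the pointwise inequality -/
theorem point {n : ℕ} (hn : 1 ≤ n) {ℓ : ℝ} (hℓ : 0 < ℓ) (δ : ℕ → ℝ) (η ρ : ℕ → ℝ)
    (h1 : η 1 = δ 0) (hρ : ∀ i, 0 ≤ ρ i) (hstep : ∀ i, η (i + 1) ≤ η i + δ i + ρ i) :
    |δ 0 / ℓ - η n / (n * ℓ)| ≤
      ((∑ i ∈ Finset.range n, δ i / ℓ) / n - η n / (n * ℓ) +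
        2 * ((∑ i ∈ Finset.range n, ρ i) / (n * ℓ))) +
      ∑ i ∈ Finset.range n, |δ i / ℓ - δ (i + 1) / ℓ| := by
  have hn' : (0 : ℝ) < n := by exact_mod_cast hn
  have h2 : ∀ m : ℕ, 1 ≤ m → η m ≤ ∑ i ∈ Finset.range m, δ i + ∑ i ∈ Finset.range m, ρ i := by
    intro m hm
    induction m, hm using Nat.le_induction with
    | base =>
      rw [Finset.sum_range_one, Finset.sum_range_one, h1]
      linarith [hρ 0]
    | succ m hm ih =>
      rw [Finset.sum_range_succ, Finset.sum_range_succ]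
      linarith [hstep m]
  have h3 := h2 n hn
  obtain ⟨A, hA⟩ : ∃ A, A = (∑ i ∈ Finset.range n, δ i / ℓ) / n := ⟨_, rfl⟩
  obtain ⟨X, hX⟩ : ∃ X, X = η n / (n * ℓ) := ⟨_, rfl⟩
  obtain ⟨S, hS⟩ : ∃ S, S = (∑ i ∈ Finset.range n, ρ i) / (n * ℓ) := ⟨_, rfl⟩
  obtain ⟨Z, hZ⟩ : ∃ Z, Z = ∑ i ∈ Finset.range n, |δ i / ℓ - δ (i + 1) / ℓ| := ⟨_, rfl⟩
  have hS0 : 0 ≤ S := by
    rw [hS]
    exact div_nonneg (Finset.sum_nonneg fun i _ => hρ i) (by positivity)
  have hAe : A = (∑ i ∈ Finset.range n, δ i) / (n * ℓ) := by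
    rw [hA, ← Finset.sum_div, div_div, mul_comm ℓ]
  have h4 : X ≤ A + S := by
    rw [hX, hAe, hS, ← add_div]
    exact div_le_div_of_nonneg_right h3 (by positivity)
  have h5 : ∀ i, i < n → |δ 0 / ℓ - δ i / ℓ| ≤ Z := by
    intro i hi
    have h6 : ∀ j, |δ 0 / ℓ - δ j / ℓ| ≤ ∑ i ∈ Finset.range j, |δ i / ℓ - δ (i + 1) / ℓ| := by
      intro j
      induction j with
      | zero => simp
      | succ j ih =>
        rw [Finset.sum_range_succ]
        calc |δ 0 / ℓ - δ (j + 1) / ℓ| =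
            |(δ 0 / ℓ - δ j / ℓ) + (δ j / ℓ - δ (j + 1) / ℓ)| := by ring_nf
          _ ≤ |δ 0 / ℓ - δ j / ℓ| + |δ j / ℓ - δ (j + 1) / ℓ| := abs_add_le _ _
          _ ≤ _ := add_le_add ih le_rfl
    refine (h6 i).trans ?_
    rw [hZ]
    exact Finset.sum_le_sum_of_subset_of_nonneg
      (Finset.range_subset_range.2 hi.le) fun _ _ _ => abs_nonneg _
  have h7 : |δ 0 / ℓ - A| ≤ Z := by
    have e : δ 0 / ℓ - A = (∑ i ∈ Finset.range n, (δ 0 / ℓ - δ i / ℓ)) / n := by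
      rw [Finset.sum_sub_distrib, Finset.sum_const, Finset.card_range, nsmul_eq_mul, sub_div,
        mul_div_cancel_left₀ _ hn'.ne', hA]
    rw [e, abs_div, abs_of_pos hn', div_le_iff₀ hn']
    calc |∑ i ∈ Finset.range n, (δ 0 / ℓ - δ i / ℓ)|
        ≤ ∑ i ∈ Finset.range n, |δ 0 / ℓ - δ i / ℓ| := Finset.abs_sum_le_sum_abs _ _
      _ ≤ ∑ _i ∈ Finset.range n, Z :=
          Finset.sum_le_sum fun i hi => h5 i (Finset.mem_range.1 hi)
      _ = Z * n := by rw [Finset.sum_const, Finset.card_range, nsmul_eq_mul, mul_comm]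
  rw [← hA, ← hX, ← hS, ← hZ]
  have h8 : |A - X| ≤ A - X + 2 * S := by
    rw [abs_le]
    constructor <;> linarith
  calc |δ 0 / ℓ - X| = |(δ 0 / ℓ - A) + (A - X)| := by ring_nf
    _ ≤ |δ 0 / ℓ - A| + |A - X| := abs_add_le _ _
    _ ≤ Z + (A - X + 2 * S) := add_le_add h7 h8
    _ = _ := by ring

theorem blo (havs : AvsStmt) : BloStmt := by
  intro d K C hC hK
  refine ⟨1 + 2 * √C, by positivity, fun ℓ n hℓ hn => ?_⟩
  have hℓr : (1 : ℝ) ≤ ℓ := by exact_mod_cast hℓ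
  have hnr : (1 : ℝ) ≤ n := by exact_mod_cast hn
  have hKr : (1 : ℝ) ≤ K := by exact_mod_cast hK
  have hℓ0 : (0 : ℝ) < ℓ := by linarith
  have hn0 : (0 : ℝ) < n := by linarith
  obtain ⟨B, hB⟩ : ∃ B : ℝ, B = 2 * (√C * (K + 1)) := ⟨_, rfl⟩
  obtain ⟨δ, hδ⟩ : ∃ δ : ℝ, δ = 1 / ((n + 1) * ℓ) := ⟨_, rfl⟩
  have hδ0 : 0 < δ := by rw [hδ]; positivity
  obtain ⟨R₀, hR₀⟩ := havs d (K * (n * ℓ)) B δ hδ0
  refine ⟨R₀, fun R N hR hN Ω _ P _ D hD y ε hy hε hh hv => ?_⟩
  have hnat1 : K * ℓ ≤ K * (n * ℓ) :=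
    Nat.mul_le_mul_left _ (Nat.le_mul_of_pos_left _ hn)
  have h4K : 4 * K * (n * ℓ) = 4 * (K * (n * ℓ)) := by ring
  -- the functions
  obtain ⟨f, hf⟩ : ∃ f : Site d → ℝ, f = fun a => ∫ ω, D ω a (a + sm ℓ y) / ℓ ∂P := ⟨_, rfl⟩
  obtain ⟨g, hg⟩ : ∃ g : Site d → ℝ, g = fun a => ∫ ω, |D ω a (a + sm ℓ y) / ℓ -
    D ω (a + sm ℓ y) (a + sm (2 * ℓ) y) / ℓ| ∂P := ⟨_, rfl⟩
  have hs1 := sd_sm (ℓ := ℓ) hy
  have hs2 := sd_sm (ℓ := 2 * ℓ) hy
  have hs2' : K * (2 * ℓ) = 2 * (K * ℓ) := by ring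
  -- membership
  have hin0 : ∀ a b : Site d, sd 0 a ≤ R + K * (n * ℓ) → sd 0 b ≤ 2 * (K * (n * ℓ)) →
      a + b ∈ box (0 : Site d) N := by
    intro a b ha hb
    rw [mem_box]
    have h1 := sd_triangle 0 a (a + b)
    rw [sd_add_right] at h1
    omega
  have hin00 : ∀ a : Site d, sd 0 a ≤ R + K * (n * ℓ) → a ∈ box (0 : Site d) N := by
    intro a ha
    rw [mem_box]
    omega
  have hDl : ∀ a b : Site d, a ∈ box (0 : Site d) N → a + b ∈ box (0 : Site d) N →
      sd 0 b ≤ K * ℓ → ∫ ω, |D ω a (a + b) / ℓ| ∂P ≤ √C * (K + 1) := by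
    intro a b ha hab hb
    have h1 := abs_D hD hC.le ha hab
    have h2 : ∀ ω, |D ω a (a + b) / ℓ| = |D ω a (a + b)| / ℓ := by
      intro ω
      rw [abs_div, abs_of_pos hℓ0]
    simp_rw [h2]
    rw [integral_div, div_le_iff₀ hℓ0]
    refine h1.trans ?_
    rw [mul_assoc]
    apply mul_le_mul_of_nonneg_left _ (Real.sqrt_nonneg _)
    rw [sd_add_right]
    have h3 : (sd 0 b : ℝ) ≤ K * ℓ := by exact_mod_cast hb
    nlinarith
  have memD : ∀ a b : Site d, a ∈ box (0 : Site d) N → b ∈ box (0 : Site d) N →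
      MemLp (fun ω => D ω a b / ℓ) 2 P := by
    intro a b ha hb
    have h1 := (mem2 hD ha hb).const_mul (1 / (ℓ : ℝ))
    refine (memLp_congr_ae (Filter.Eventually.of_forall fun ω => ?_)).1 h1
    ring
  have hsplit : ∀ a : Site d, a + sm (2 * ℓ) y = (a + sm ℓ y) + sm ℓ y := by
    intro a
    rw [two_mul, sm_add, add_assoc]
  have hfb : ∀ a ∈ box (0 : Site d) (R + K * (n * ℓ)), |f a| ≤ B := by
    intro a ha
    rw [mem_box] at ha
    have h1 := hDl a (sm ℓ y) (hin00 a ha) (hin0 a _ ha (by omega)) hs1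
    rw [hf, hB]
    refine (abs_integral_le_integral_abs).trans (h1.trans ?_)
    have : 0 ≤ √C * ((K : ℝ) + 1) := by positivity
    linarith
  have hgb : ∀ a ∈ box (0 : Site d) (R + K * (n * ℓ)), |g a| ≤ B := by
    intro a ha
    rw [mem_box] at ha
    have e1 : a + sm ℓ y ∈ box (0 : Site d) N := hin0 a _ ha (by omega)
    have e2 : a + sm (2 * ℓ) y ∈ box (0 : Site d) N := hin0 a _ ha (by omega)
    have h1 := hDl a (sm ℓ y) (hin00 a ha) e1 hs1
    have h2 := hDl (a + sm ℓ y) (sm ℓ y) e1 (by rw [← hsplit]; exact e2) hs1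
    rw [← hsplit] at h2
    have i1 := (memD a (a + sm ℓ y) (hin00 a ha) e1).integrable one_le_two
    have i2 := (memD (a + sm ℓ y) (a + sm (2 * ℓ) y) e1 e2).integrable one_le_two
    have h3 : ∫ ω, |D ω a (a + sm ℓ y) / ℓ - D ω (a + sm ℓ y) (a + sm (2 * ℓ) y) / ℓ| ∂P ≤
        ∫ ω, (|D ω a (a + sm ℓ y) / ℓ| + |D ω (a + sm ℓ y) (a + sm (2 * ℓ) y) / ℓ|) ∂P := by
      apply integral_mono (i1.sub i2).abs (i1.abs.add i2.abs)
      intro ω
      exact abs_sub _ _
    rw [integral_add i1.abs i2.abs] at h3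
    rw [hg, hB]
    rw [abs_of_nonneg (integral_nonneg fun ω => abs_nonneg _)]
    linarith
  have hsh : ∀ i, i < n → sd 0 (sm (i * ℓ) y) ≤ K * (n * ℓ) := by
    intro i hi
    refine (sd_sm hy).trans ?_
    exact Nat.mul_le_mul_left _ (Nat.mul_le_mul_right _ hi.le)
  have hAf : ∀ i, i < n → Av R (fun a => f (a + sm (i * ℓ) y)) ≤ Av R f + δ := by
    intro i hi
    have := (abs_le.1 (hR₀ R hR f (sm (i * ℓ) y) (hsh i hi) hfb)).2
    linarith
  have hAg : ∀ i, i < n → Av R (fun a => g (a + sm (i * ℓ) y)) ≤ Av R g + δ := by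
    intro i hi
    have := (abs_le.1 (hR₀ R hR g (sm (i * ℓ) y) (hsh i hi) hgb)).2
    linarith
  -- the average of g
  have hge : Av R g ≤ ε := by
    have h1 : Av R g ^ 2 ≤ ε ^ 2 := by
      refine (av_sq R g).trans (le_trans ?_ hv)
      unfold vA
      apply av_mono
      intro a ha
      rw [mem_box] at ha
      have ha' : sd 0 a ≤ R + K * (n * ℓ) := by omega
      have e1 : a + sm ℓ y ∈ box (0 : Site d) N := hin0 a _ ha' (by omega)
      have e2 : a + sm (2 * ℓ) y ∈ box (0 : Site d) N := hin0 a _ ha' (by omega)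
      rw [hg]
      exact sq_int_abs ((memD a (a + sm ℓ y) (hin00 a ha') e1).sub
        (memD (a + sm ℓ y) (a + sm (2 * ℓ) y) e1 e2))
    exact (abs_le_of_sq_le_sq h1 hε).trans' (le_abs_self _)
  -- the pointwise bound, integrated
  have hpt : ∀ a ∈ box (0 : Site d) R,
      ∫ ω, |D ω a (a + sm ℓ y) / ℓ - D ω a (a + sm (n * ℓ) y) / (n * ℓ)| ∂P ≤
      (∑ i ∈ Finset.range n, f (a + sm (i * ℓ) y)) / n -
        ∫ ω, D ω a (a + sm (n * ℓ) y) / (n * ℓ : ℕ) ∂P + 2 * (√C / ℓ) +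
        ∑ i ∈ Finset.range n, g (a + sm (i * ℓ) y) := by
    intro a ha
    rw [mem_box] at ha
    obtain ⟨p, hp⟩ : ∃ p : ℕ → Site d, p = fun i => a + sm (i * ℓ) y := ⟨_, rfl⟩
    have hp1 : ∀ i, p (i + 1) = p i + sm ℓ y := by
      intro i
      rw [hp]
      simp only
      rw [add_mul, one_mul, sm_add, add_assoc]
    have hp0 : p 0 = a := by
      rw [hp]
      simp only
      rw [zero_mul, sm_zero, add_zero]
    have hpin : ∀ i, i ≤ n + 2 → p i ∈ box (0 : Site d) N := by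
      intro i hi
      rw [hp, mem_box]
      simp only
      have h1 := sd_triangle 0 a (a + sm (i * ℓ) y)
      rw [sd_add_right] at h1
      have h2 := sd_sm (ℓ := i * ℓ) hy
      have h3 : K * (i * ℓ) ≤ K * ((n + 2) * ℓ) :=
        Nat.mul_le_mul_left _ (Nat.mul_le_mul_right _ hi)
      have h4 : K * ((n + 2) * ℓ) = K * (n * ℓ) + 2 * (K * ℓ) := by ring
      omega
    have hpin' : ∀ i, i ≤ n + 1 → p i + sm ℓ y ∈ box (0 : Site d) N := by
      intro i hi
      rw [← hp1]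
      exact hpin (i + 1) (by omega)
    have hpa : a ∈ box (0 : Site d) N := by
      have := hpin 0 (by omega)
      rwa [hp0] at this
    have hpoint : ∀ ω, |D ω a (a + sm ℓ y) / ℓ - D ω a (a + sm (n * ℓ) y) / (n * ℓ)| ≤
        ((∑ i ∈ Finset.range n, D ω (p i) (p i + sm ℓ y) / ℓ) / n -
          D ω a (p n) / (n * ℓ) +
          2 * ((∑ i ∈ Finset.range n, max 0 (D ω a (p i + sm ℓ y) - D ω a (p i) -
            D ω (p i) (p i + sm ℓ y))) / (n * ℓ))) +
        ∑ i ∈ Finset.range n, |D ω (p i) (p i + sm ℓ y) / ℓ -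
          D ω (p i + sm ℓ y) (p i + sm (2 * ℓ) y) / ℓ| := by
      intro ω
      have h1 := point hn hℓ0 (fun i => D ω (p i) (p i + sm ℓ y)) (fun i => D ω a (p i))
        (fun i => max 0 (D ω a (p i + sm ℓ y) - D ω a (p i) - D ω (p i) (p i + sm ℓ y)))
        (by rw [hp1 0, hp0]) (fun i => le_max_left _ _) (by
          intro i
          rw [hp1]
          have := le_max_right 0 (D ω a (p i + sm ℓ y) - D ω a (p i) -
            D ω (p i) (p i + sm ℓ y))
          linarith)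
      rw [hp0] at h1
      have e1 : p n = a + sm (n * ℓ) y := by rw [hp]
      have e2 : ∀ i, D ω (p (i + 1)) (p (i + 1) + sm ℓ y) =
          D ω (p i + sm ℓ y) (p i + sm (2 * ℓ) y) := by
        intro i
        rw [hp1, hsplit]
      simp_rw [e2] at h1
      rw [← e1]
      exact h1
    -- integrability
    have I1 : ∀ i ∈ Finset.range n, Integrable (fun ω => D ω (p i) (p i + sm ℓ y) / ℓ) P := by
      intro i hi
      have hi' := Finset.mem_range.1 hi
      exact (memD _ _ (hpin i (by omega)) (hpin' i (by omega))).integrable one_le_two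
    have I2 : Integrable (fun ω => D ω a (p n) / (n * ℓ)) P :=
      ((mem2 hD hpa (hpin n (by omega))).integrable one_le_two).div_const _
    have I3 : ∀ i ∈ Finset.range n, Integrable (fun ω => max 0 (D ω a (p i + sm ℓ y) -
        D ω a (p i) - D ω (p i) (p i + sm ℓ y))) P := by
      intro i hi
      have hi' := Finset.mem_range.1 hi
      exact (mem2_tri hD hpa (hpin i (by omega)) (hpin' i (by omega))).integrable one_le_two
    have I4 : ∀ i ∈ Finset.range n, Integrable (fun ω => |D ω (p i) (p i + sm ℓ y) / ℓ -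
        D ω (p i + sm ℓ y) (p i + sm (2 * ℓ) y) / ℓ|) P := by
      intro i hi
      have hi' := Finset.mem_range.1 hi
      have h1 : p i + sm (2 * ℓ) y ∈ box (0 : Site d) N := by
        rw [hsplit, ← hp1]
        exact hpin' (i + 1) (by omega)
      exact (((memD _ _ (hpin i (by omega)) (hpin' i (by omega))).integrable one_le_two).sub
        ((memD _ _ (hpin' i (by omega)) h1).integrable one_le_two)).abs
    have J1 : Integrable (fun ω => (∑ i ∈ Finset.range n, D ω (p i) (p i + sm ℓ y) / ℓ) / n) P :=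
      (integrable_finsetSum _ I1).div_const _
    have J3 : Integrable (fun ω => 2 * ((∑ i ∈ Finset.range n, max 0 (D ω a (p i + sm ℓ y) -
        D ω a (p i) - D ω (p i) (p i + sm ℓ y))) / (n * ℓ))) P :=
      ((integrable_finsetSum _ I3).div_const _).const_mul _
    have J4 : Integrable (fun ω => ∑ i ∈ Finset.range n, |D ω (p i) (p i + sm ℓ y) / ℓ -
        D ω (p i + sm ℓ y) (p i + sm (2 * ℓ) y) / ℓ|) P := integrable_finsetSum _ I4
    have J12 : Integrable (fun ω => (∑ i ∈ Finset.range n, D ω (p i) (p i + sm ℓ y) / ℓ) / n -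
        D ω a (p n) / (n * ℓ)) P := J1.sub I2
    have J123 : Integrable (fun ω => (∑ i ∈ Finset.range n, D ω (p i) (p i + sm ℓ y) / ℓ) / n -
        D ω a (p n) / (n * ℓ) + 2 * ((∑ i ∈ Finset.range n, max 0 (D ω a (p i + sm ℓ y) -
        D ω a (p i) - D ω (p i) (p i + sm ℓ y))) / (n * ℓ))) P := J12.add J3
    have e1 : p n = a + sm (n * ℓ) y := by rw [hp]
    have K0 : Integrable (fun ω => |D ω a (a + sm ℓ y) / ℓ -
        D ω a (a + sm (n * ℓ) y) / (n * ℓ)|) P := by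
      rw [← e1]
      have h1 : a + sm ℓ y ∈ box (0 : Site d) N := by
        have := hpin' 0 (by omega)
        rwa [hp0] at this
      exact (((memD _ _ hpa h1).integrable one_le_two).sub I2).abs
    refine (integral_mono K0 (J123.add J4) hpoint).trans ?_
    simp only [Pi.add_apply]
    have hsum3 : ∑ i ∈ Finset.range n, ∫ ω, max 0 (D ω a (p i + sm ℓ y) - D ω a (p i) -
        D ω (p i) (p i + sm ℓ y)) ∂P ≤ n * √C := by
      calc ∑ i ∈ Finset.range n, ∫ ω, max 0 (D ω a (p i + sm ℓ y) - D ω a (p i) -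
          D ω (p i) (p i + sm ℓ y)) ∂P ≤ ∑ _i ∈ Finset.range n, √C := by
            apply Finset.sum_le_sum
            intro i hi
            have hi' := Finset.mem_range.1 hi
            exact tri_le hD hC.le hpa (hpin i (by omega)) (hpin' i (by omega))
        _ = n * √C := by rw [Finset.sum_const, Finset.card_range, nsmul_eq_mul]
    have E1 : ∫ ω, (∑ i ∈ Finset.range n, D ω (p i) (p i + sm ℓ y) / ℓ) / n ∂P =
        (∑ i ∈ Finset.range n, ∫ ω, D ω (p i) (p i + sm ℓ y) / ℓ ∂P) / n := by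
      rw [integral_div, integral_finsetSum _ I1]
    have E3 : ∫ ω, 2 * ((∑ i ∈ Finset.range n, max 0 (D ω a (p i + sm ℓ y) -
        D ω a (p i) - D ω (p i) (p i + sm ℓ y))) / (n * ℓ)) ∂P =
        2 * ((∑ i ∈ Finset.range n, ∫ ω, max 0 (D ω a (p i + sm ℓ y) -
        D ω a (p i) - D ω (p i) (p i + sm ℓ y)) ∂P) / (n * ℓ)) := by
      rw [integral_const_mul, integral_div, integral_finsetSum _ I3]
    rw [integral_add J123 J4, integral_add J12 J3, integral_sub J1 I2, E1, E3,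
      integral_finsetSum _ I4]
    have F1 : ∑ i ∈ Finset.range n, ∫ ω, D ω (p i) (p i + sm ℓ y) / ℓ ∂P =
        ∑ i ∈ Finset.range n, f (a + sm (i * ℓ) y) := by
      rw [hp, hf]
    have F4 : ∑ i ∈ Finset.range n, ∫ ω, |D ω (p i) (p i + sm ℓ y) / ℓ -
        D ω (p i + sm ℓ y) (p i + sm (2 * ℓ) y) / ℓ| ∂P =
        ∑ i ∈ Finset.range n, g (a + sm (i * ℓ) y) := by
      rw [hp, hg]
    rw [F1, F4, e1]
    have F3 : (∑ i ∈ Finset.range n, ∫ ω, max 0 (D ω a (p i + sm ℓ y) - D ω a (p i) -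
        D ω (p i) (p i + sm ℓ y)) ∂P) / (n * ℓ) ≤ √C / ℓ := by
      rw [div_le_div_iff₀ (by positivity) hℓ0]
      calc _ ≤ n * √C * ℓ := mul_le_mul_of_nonneg_right hsum3 hℓ0.le
        _ = √C * (n * ℓ) := by ring
    push_cast
    linarith
  -- average
  refine (av_mono hpt).trans ?_
  rw [av_add, av_add, av_sub, av_div, av_sum, av_sum, av_const]
  have G1 : (∑ i ∈ Finset.range n, Av R fun a => f (a + sm (i * ℓ) y)) / n ≤ Av R f + δ := by
    rw [div_le_iff₀ hn0]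
    calc ∑ i ∈ Finset.range n, Av R (fun a => f (a + sm (i * ℓ) y))
        ≤ ∑ _i ∈ Finset.range n, (Av R f + δ) :=
          Finset.sum_le_sum fun i hi => hAf i (Finset.mem_range.1 hi)
      _ = (Av R f + δ) * n := by
          rw [Finset.sum_const, Finset.card_range, nsmul_eq_mul, mul_comm]
  have G2 : ∑ i ∈ Finset.range n, Av R (fun a => g (a + sm (i * ℓ) y)) ≤ n * (ε + δ) := by
    calc ∑ i ∈ Finset.range n, Av R (fun a => g (a + sm (i * ℓ) y))
        ≤ ∑ _i ∈ Finset.range n, (ε + δ) :=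
          Finset.sum_le_sum fun i hi => (hAg i (Finset.mem_range.1 hi)).trans (by linarith)
      _ = n * (ε + δ) := by rw [Finset.sum_const, Finset.card_range, nsmul_eq_mul]
  have G3 : Av R f = hA P D R y ℓ := by rw [hf]; rfl
  have G4 : (Av R fun a => ∫ ω, D ω a (a + sm (n * ℓ) y) / (n * ℓ : ℕ) ∂P) =
      hA P D R y (n * ℓ) := rfl
  have G5 : (n + 1) * δ = 1 / ℓ := by
    rw [hδ]
    field_simp
  rw [G4]
  rw [G3] at G1
  have G6 : (1 + 2 * √C) / ℓ = 1 / ℓ + 2 * (√C / ℓ) := by ring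
  rw [G6]
  linarith

end Pool.Agent.LE.H59A
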