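import Pool.Agent.LE.StmtsG
import Pool.Agent.Helper26_LE.Pig
import Pool.Agent.Helper59_LE.Blo

/-!
# PIG3: near invariance under shifts at two scales and at one base point
-/

set_option autoImplicit false
set_option linter.unusedSectionVars false

open MeasureTheory ProbabilityTheory Function Filter

open scoped ENNReal BigOperators

noncomputable section

namespace Pool.Agent.LE.H59A

open Pool.Agent.Anderson Pool.Agent.Loc Pool.Agent.Mob Pool.Agent.Helper54.Bal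
open Pool.Agent.LE.H26A (mem_add integrable_D abs_le' exists_le_Av)

variable {d : ℕ}

section
variable {Ω : Type} [MeasurableSpace Ω] {P : Measure Ω} [IsProbabilityMeasure P]
  {N : ℕ} {C : ℝ} {D : Ω → Site d → Site d → ℝ}

/-- one scale: the average of the change under a shift -/
theorem avT {K n ℓ R : ℕ} {η Bd : ℝ} (hℓ1 : 1 ≤ ℓ) (hn1 : 1 ≤ n) (hC : 0 ≤ C)
    (hN : R + 8 * (K * (n * ℓ)) ≤ N) (hD : FamN d N P C D)
    (hBd : Bd = 2 * (1 + C * ((K * (n * ℓ) : ℕ) + 1) ^ 2))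
    (HS : ∀ a y k : Site d, sd 0 y ≤ K → sd 0 k ≤ K →
      box a (4 * K * (n * ℓ)) ⊆ box 0 N →
        ∫ ω, |D ω a (a + sm (n * ℓ) y) / (n * ℓ) -
          D ω (a + sm ℓ k) (a + sm ℓ k + sm (n * ℓ) y) / (n * ℓ)| ∂P ≤ η)
    (HA : ∀ (f : Site d → ℝ) (b : Site d), sd 0 b ≤ K * ℓ →
      (∀ a ∈ box (0 : Site d) (R + K * ℓ), |f a| ≤ Bd) →
      |Av R (fun a => f (a + b)) - Av R f| ≤ η)
    {y k : Site d} (hy : sd 0 y ≤ K) (hk : sd 0 k ≤ K)
    (hf : Av R (fun a => ∫ ω, |D ω a (a + sm ℓ y) / ℓ -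
      D ω a (a + sm (n * ℓ) y) / (n * ℓ)| ∂P) ≤ η) :
    Av R (fun a => ∫ ω, |D ω a (a + sm ℓ y) / ℓ -
      D ω (a + sm ℓ k) (a + sm ℓ k + sm ℓ y) / ℓ| ∂P) ≤ 4 * η := by
  have hℓpos : (0 : ℝ) < ℓ := by exact_mod_cast hℓ1
  have hnS : ℓ ≤ n * ℓ := Nat.le_mul_of_pos_left _ (by omega)
  have hKS : K * ℓ ≤ K * (n * ℓ) := Nat.mul_le_mul_left _ hnS
  have hNn : R + K * ℓ + K * (n * ℓ) ≤ N := by omega
  have hsml : ∀ y : Site d, sd 0 y ≤ K → sd 0 (sm ℓ y) ≤ K * ℓ := fun y hy => sd_sm hy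
  have hsmn : ∀ y : Site d, sd 0 y ≤ K → sd 0 (sm (n * ℓ) y) ≤ K * (n * ℓ) :=
    fun y hy => sd_sm hy
  have m1 : ∀ a ∈ box (0 : Site d) (R + K * ℓ), a ∈ box (0 : Site d) N := by
    intro a ha
    exact box_mono _ (by omega) ha
  have m2 : ∀ a ∈ box (0 : Site d) (R + K * ℓ), ∀ y : Site d, sd 0 y ≤ K →
      a + sm ℓ y ∈ box (0 : Site d) N := fun a ha y hy =>
    mem_add ha (hsml y hy) (by omega)
  have m3 : ∀ a ∈ box (0 : Site d) (R + K * ℓ), ∀ y : Site d, sd 0 y ≤ K →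
      a + sm (n * ℓ) y ∈ box (0 : Site d) N := fun a ha y hy =>
    mem_add ha (hsmn y hy) hNn
  have m4 : ∀ a ∈ box (0 : Site d) R, ∀ k : Site d, sd 0 k ≤ K →
      a + sm ℓ k ∈ box (0 : Site d) (R + K * ℓ) := fun a ha k hk =>
    mem_add ha (hsml k hk) le_rfl
  have m0 : ∀ a ∈ box (0 : Site d) R, a ∈ box (0 : Site d) (R + K * ℓ) := fun a ha =>
    box_mono _ (by omega) ha
  have hn0 : (0:ℝ) < n := by exact_mod_cast hn1
  have hn1' : (1:ℝ) ≤ n := by exact_mod_cast hn1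
  have hℓ1' : (1:ℝ) ≤ ℓ := by exact_mod_cast hℓ1
  set f : Site d → ℝ := fun a => ∫ ω, |D ω a (a + sm ℓ y) / ℓ -
      D ω a (a + sm (n * ℓ) y) / (n * ℓ)| ∂P with hfdef
  set T : Site d → ℝ := fun a => ∫ ω, |D ω a (a + sm ℓ y) / ℓ -
      D ω (a + sm ℓ k) (a + sm ℓ k + sm ℓ y) / ℓ| ∂P with hT
  have hI : ∀ {x y : Site d} (c : ℝ), x ∈ box (0 : Site d) N → y ∈ box (0 : Site d) N →
      Integrable (fun ω => D ω x y / c) P := fun c hx hy => (integrable_D hD hx hy).div_const c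
  have hfB : ∀ a ∈ box (0 : Site d) (R + K * ℓ), |f a| ≤ Bd := by
    intro a ha
    have i1 := hI (ℓ : ℝ) (m1 a ha) (m2 a ha y hy)
    have i2 := hI ((n : ℝ) * ℓ) (m1 a ha) (m3 a ha y hy)
    have b1 := abs_le' hD (m1 a ha) (m2 a ha y hy)
    have b2 := abs_le' hD (m1 a ha) (m3 a ha y hy)
    rw [sd_add_right] at b1 b2
    have c1 : (sd 0 (sm ℓ y) : ℝ) ≤ (K * (n * ℓ) : ℕ) := by
      exact_mod_cast (hsml y hy).trans hKS
    have c2 : (sd 0 (sm (n * ℓ) y) : ℝ) ≤ (K * (n * ℓ) : ℕ) := by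
      exact_mod_cast hsmn y hy
    have e1 : ∫ ω, |D ω a (a + sm ℓ y)| ∂P ≤ 1 + C * ((K * (n * ℓ) : ℕ) + 1) ^ 2 :=
      b1.trans (by gcongr)
    have e2 : ∫ ω, |D ω a (a + sm (n * ℓ) y)| ∂P ≤ 1 + C * ((K * (n * ℓ) : ℕ) + 1) ^ 2 :=
      b2.trans (by gcongr)
    have i1' := (integrable_D hD (m1 a ha) (m2 a ha y hy)).abs
    have i2' := (integrable_D hD (m1 a ha) (m3 a ha y hy)).abs
    have h0 : 0 ≤ f a := integral_nonneg fun ω => abs_nonneg _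
    rw [abs_of_nonneg h0]
    calc f a ≤ ∫ ω, (|D ω a (a + sm ℓ y)| + |D ω a (a + sm (n * ℓ) y)|) ∂P := by
          refine integral_mono (i1.sub i2).abs (i1'.add i2') fun ω => ?_
          simp only
          refine (abs_sub _ _).trans (add_le_add ?_ ?_)
          · rw [abs_div, abs_of_pos hℓpos]
            exact div_le_self (abs_nonneg _) hℓ1'
          · rw [abs_div, abs_of_pos (by positivity : (0:ℝ) < n * ℓ)]
            exact div_le_self (abs_nonneg _) (by nlinarith)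
      _ = ∫ ω, |D ω a (a + sm ℓ y)| ∂P + ∫ ω, |D ω a (a + sm (n * ℓ) y)| ∂P :=
          integral_add i1' i2'
      _ ≤ Bd := by
          rw [hBd]
          linarith
  have hTle : ∀ a ∈ box (0 : Site d) R, T a ≤ f a + η + f (a + sm ℓ k) := by
    intro a ha
    have ha' := m0 a ha
    have hb' := m4 a ha k hk
    have i1 := hI (ℓ : ℝ) (m1 a ha') (m2 a ha' y hy)
    have i2 := hI ((n : ℝ) * ℓ) (m1 a ha') (m3 a ha' y hy)
    have i3 := hI (ℓ : ℝ) (m1 _ hb') (m2 _ hb' y hy)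
    have i4 := hI ((n : ℝ) * ℓ) (m1 _ hb') (m3 _ hb' y hy)
    have hs : ∫ ω, |D ω a (a + sm (n * ℓ) y) / (n * ℓ) -
        D ω (a + sm ℓ k) (a + sm ℓ k + sm (n * ℓ) y) / (n * ℓ)| ∂P ≤ η := by
      refine HS a y k hy hk ?_
      intro x hx
      rw [mem_box] at hx ha ⊢
      have h2 : 4 * K * (n * ℓ) = 4 * (K * (n * ℓ)) := by ring
      have h3 := sd_triangle 0 a x
      omega
    have j1 : Integrable (fun ω => |D ω a (a + sm ℓ y) / ℓ -
        D ω a (a + sm (n * ℓ) y) / (n * ℓ)|) P := (i1.sub i2).abs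
    have j2 : Integrable (fun ω => |D ω a (a + sm (n * ℓ) y) / (n * ℓ) -
        D ω (a + sm ℓ k) (a + sm ℓ k + sm (n * ℓ) y) / (n * ℓ)|) P := (i2.sub i4).abs
    have j3 : Integrable (fun ω => |D ω (a + sm ℓ k) (a + sm ℓ k + sm ℓ y) / ℓ -
        D ω (a + sm ℓ k) (a + sm ℓ k + sm (n * ℓ) y) / (n * ℓ)|) P := (i3.sub i4).abs
    have j12 : Integrable (fun ω => |D ω a (a + sm ℓ y) / ℓ -
        D ω a (a + sm (n * ℓ) y) / (n * ℓ)| + |D ω a (a + sm (n * ℓ) y) / (n * ℓ) -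
        D ω (a + sm ℓ k) (a + sm ℓ k + sm (n * ℓ) y) / (n * ℓ)|) P := j1.add j2
    calc T a ≤ ∫ ω, (|D ω a (a + sm ℓ y) / ℓ - D ω a (a + sm (n * ℓ) y) / (n * ℓ)| +
          |D ω a (a + sm (n * ℓ) y) / (n * ℓ) -
            D ω (a + sm ℓ k) (a + sm ℓ k + sm (n * ℓ) y) / (n * ℓ)| +
          |D ω (a + sm ℓ k) (a + sm ℓ k + sm ℓ y) / ℓ -
            D ω (a + sm ℓ k) (a + sm ℓ k + sm (n * ℓ) y) / (n * ℓ)|) ∂P := by
          refine integral_mono (i1.sub i3).abs (j12.add j3) fun ω => ?_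
          simp only
          have t1 := abs_sub_le (D ω a (a + sm ℓ y) / ℓ) (D ω a (a + sm (n * ℓ) y) / (n * ℓ))
            (D ω (a + sm ℓ k) (a + sm ℓ k + sm ℓ y) / ℓ)
          have t2 := abs_sub_le (D ω a (a + sm (n * ℓ) y) / (n * ℓ))
            (D ω (a + sm ℓ k) (a + sm ℓ k + sm (n * ℓ) y) / (n * ℓ))
            (D ω (a + sm ℓ k) (a + sm ℓ k + sm ℓ y) / ℓ)
          have t3 := abs_sub_comm (D ω (a + sm ℓ k) (a + sm ℓ k + sm (n * ℓ) y) / (n * ℓ))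
            (D ω (a + sm ℓ k) (a + sm ℓ k + sm ℓ y) / ℓ)
          linarith
      _ = f a + ∫ ω, |D ω a (a + sm (n * ℓ) y) / (n * ℓ) -
            D ω (a + sm ℓ k) (a + sm ℓ k + sm (n * ℓ) y) / (n * ℓ)| ∂P + f (a + sm ℓ k) := by
          rw [integral_add j12 j3, integral_add j1 j2]
      _ ≤ _ := by linarith
  have h1 : Av R T ≤ Av R (fun a => f a + η + f (a + sm ℓ k)) := av_mono hTle
  rw [av_add, av_add, av_const] at h1
  have h2 := HA f (sm ℓ k) (hsml k hk) hfB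
  have h3 := (abs_le.1 h2).2
  linarith

/-- the average of the L¹ norms is at most the norm -/
theorem av_abs_le {R : ℕ} {f : Site d → Ω → ℝ}
    (hf : ∀ a ∈ box (0 : Site d) R, MemLp (f a) 2 P) :
    Av R (fun a => ∫ ω, |f a ω| ∂P) ≤ nA P R f := by
  unfold nA
  apply Real.le_sqrt_of_sq_le
  refine (av_sq R _).trans ?_
  exact av_mono fun a ha => sq_int_abs (hf a ha)

end

theorem pig3 (hCau : CauStmt) (hShi : ShiStmt) (hAvs : AvsStmt) : Pig3Stmt := by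
  classical
  intro d K W C ε hC hε hK Ω _ P _ D hD
  obtain ⟨M₃, hM₃, HS⟩ := hShi d K C hC hK
  set F : Finset (Site d) := box (0 : Site d) K with hF
  set c : ℝ := (F.card : ℝ) ^ 2 with hc
  have hFne : F.Nonempty := ⟨0, by rw [hF, mem_box, sd_self]; exact Nat.zero_le _⟩
  have hFc : (1 : ℝ) ≤ F.card := by exact_mod_cast Finset.card_pos.2 hFne
  have hc0 : 0 < c := by positivity
  have hFcc : (F.card : ℝ) ≤ c := by rw [hc]; nlinarith
  set η : ℝ := ε / (9 * c) with hη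
  have hη0 : 0 < η := by positivity
  obtain ⟨n, hn1, hqn⟩ : ∃ n : ℕ, 1 ≤ n ∧ M₃ / n ≤ η := by
    obtain ⟨n, hn⟩ := exists_nat_ge (M₃ / η)
    refine ⟨n + 1, by omega, ?_⟩
    push_cast
    rw [div_le_iff₀ (by positivity)]
    rw [div_le_iff₀ hη0] at hn
    nlinarith
  obtain ⟨l, hl1, hl⟩ := hCau d K C hC hK Ω P D hD η hη0
  refine ⟨l, hl1, fun ℓ ℓ' hℓ hℓ' => ?_⟩
  have hℓ1 : 1 ≤ ℓ := hl1.trans hℓ
  have hℓ1' : 1 ≤ ℓ' := hl1.trans hℓ'
  have hnl : l ≤ n * ℓ := hℓ.trans (Nat.le_mul_of_pos_left _ hn1)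
  have hnl' : l ≤ n * ℓ' := hℓ'.trans (Nat.le_mul_of_pos_left _ hn1)
  obtain ⟨Bd, hBd⟩ : ∃ Bd : ℝ, Bd = 2 * (1 + C * ((K * (n * ℓ) : ℕ) + 1) ^ 2) := ⟨_, rfl⟩
  obtain ⟨Bd', hBd'⟩ : ∃ Bd : ℝ, Bd = 2 * (1 + C * ((K * (n * ℓ') : ℕ) + 1) ^ 2) := ⟨_, rfl⟩
  obtain ⟨R₁, hR₁⟩ := hAvs d (K * ℓ) Bd η hη0
  obtain ⟨R₂, hR₂⟩ := hAvs d (K * ℓ') Bd' η hη0
  -- the choice of the size
  set N₀ : ℕ := 2 * (R₁ + R₂ + 8 * (K * (n * ℓ)) + 8 * (K * (n * ℓ')) + W * ℓ + W * ℓ') + 2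
    with hN₀
  have hbig : ∀ᶠ N in (hyperfilter ℕ : Filter ℕ), N₀ ≤ N :=
    (eventually_ge_atTop N₀).filter_mono Nat.hyperfilter_le_atTop
  obtain ⟨N, ⟨⟨hNN, e1⟩, e2⟩, e3⟩ := (((hbig.and (hl ℓ (n * ℓ) hℓ hnl)).and
    (hl ℓ' (n * ℓ') hℓ' hnl')).and (hl ℓ ℓ' hℓ hℓ')).exists
  set R : ℕ := N / 2 with hR
  have hRN : R₁ + R₂ + 8 * (K * (n * ℓ)) + 8 * (K * (n * ℓ')) + W * ℓ + W * ℓ' ≤ R := by omega
  have hRN2 : 2 * R ≤ N := by omega
  have hDN := hD N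
  have hKn : K * ℓ ≤ K * (n * ℓ) := Nat.mul_le_mul_left _ (Nat.le_mul_of_pos_left _ hn1)
  have hKn' : K * ℓ' ≤ K * (n * ℓ') := Nat.mul_le_mul_left _ (Nat.le_mul_of_pos_left _ hn1)
  have memX : ∀ (m : ℕ) (y : Site d), sd 0 y ≤ K → K * m ≤ R → ∀ a ∈ box (0 : Site d) R,
      MemLp (fun ω => XX (D N) y m a ω) 2 P := by
    intro m y hy hm a ha
    have h1 : a + sm m y ∈ box (0 : Site d) N := mem_add ha (sd_sm hy) (by omega)
    have h2 : a ∈ box (0 : Site d) N := box_mono _ (by omega) ha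
    have h3 := (mem2 hDN h2 h1).const_mul (1 / (m : ℝ))
    refine (memLp_congr_ae (Filter.Eventually.of_forall fun ω => ?_)).1 h3
    unfold XX
    ring
  have avX : ∀ (m m' : ℕ) (y : Site d), sd 0 y ≤ K → K * m ≤ R → K * m' ≤ R →
      nA P R (fun a ω => XX (D N) y m a ω - XX (D N) y m' a ω) ≤ η →
      Av R (fun a => ∫ ω, |XX (D N) y m a ω - XX (D N) y m' a ω| ∂P) ≤ η := by
    intro m m' y hy hm hm' h
    exact (av_abs_le fun a ha => (memX m y hy hm a ha).sub (memX m' y hy hm' a ha)).trans h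
  have A1 : ∀ y ∈ F, ∀ k ∈ F, Av R (fun a => ∫ ω, |D N ω a (a + sm ℓ y) / ℓ -
      D N ω (a + sm ℓ k) (a + sm ℓ k + sm ℓ y) / ℓ| ∂P) ≤ 4 * η := by
    intro y hy k hk
    rw [hF, mem_box] at hy hk
    refine avT hℓ1 hn1 hC.le (by omega) hDN hBd
      (fun a y k hy hk hsub => (HS N ℓ n hℓ1 hn1 Ω P (D N) hDN a y k hy hk hsub).trans hqn)
      (fun f b hb hfb => hR₁ R (by omega) f b hb hfb) hy hk ?_
    have h1 := avX ℓ (n * ℓ) y hy (by omega) (by omega) (e1 y hy)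
    unfold XX at h1
    push_cast at h1
    exact h1
  have A2 : ∀ y ∈ F, ∀ k ∈ F, Av R (fun a => ∫ ω, |D N ω a (a + sm ℓ' y) / ℓ' -
      D N ω (a + sm ℓ' k) (a + sm ℓ' k + sm ℓ' y) / ℓ'| ∂P) ≤ 4 * η := by
    intro y hy k hk
    rw [hF, mem_box] at hy hk
    refine avT hℓ1' hn1 hC.le (by omega) hDN hBd'
      (fun a y k hy hk hsub => (HS N ℓ' n hℓ1' hn1 Ω P (D N) hDN a y k hy hk hsub).trans hqn)
      (fun f b hb hfb => hR₂ R (by omega) f b hb hfb) hy hk ?_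
    have h1 := avX ℓ' (n * ℓ') y hy (by omega) (by omega) (e2 y hy)
    unfold XX at h1
    push_cast at h1
    exact h1
  have A3 : ∀ y ∈ F, Av R (fun a => ∫ ω, |D N ω a (a + sm ℓ y) / ℓ -
      D N ω a (a + sm ℓ' y) / ℓ'| ∂P) ≤ η := by
    intro y hy
    rw [hF, mem_box] at hy
    exact avX ℓ ℓ' y hy (by omega) (by omega) (e3 y hy)
  -- the sum
  set T : Site d → Site d → Site d → ℝ := fun y k a => ∫ ω, |D N ω a (a + sm ℓ y) / ℓ -
      D N ω (a + sm ℓ k) (a + sm ℓ k + sm ℓ y) / ℓ| ∂P with hT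
  set T' : Site d → Site d → Site d → ℝ := fun y k a => ∫ ω, |D N ω a (a + sm ℓ' y) / ℓ' -
      D N ω (a + sm ℓ' k) (a + sm ℓ' k + sm ℓ' y) / ℓ'| ∂P with hT'
  set G : Site d → Site d → ℝ := fun y a => ∫ ω, |D N ω a (a + sm ℓ y) / ℓ -
      D N ω a (a + sm ℓ' y) / ℓ'| ∂P with hG
  obtain ⟨a, haR, ha⟩ := exists_le_Av R (fun a => (∑ y ∈ F, ∑ k ∈ F, T y k a +
    ∑ y ∈ F, ∑ k ∈ F, T' y k a) + ∑ y ∈ F, G y a)
  have hsum : Av R (fun a => (∑ y ∈ F, ∑ k ∈ F, T y k a +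
      ∑ y ∈ F, ∑ k ∈ F, T' y k a) + ∑ y ∈ F, G y a) ≤ ε := by
    rw [av_add, av_add, av_sum, av_sum, av_sum]
    have s1 : ∑ y ∈ F, Av R (fun a => ∑ k ∈ F, T y k a) ≤ c * (4 * η) := by
      calc ∑ y ∈ F, Av R (fun a => ∑ k ∈ F, T y k a) = ∑ y ∈ F, ∑ k ∈ F, Av R (T y k) :=
            Finset.sum_congr rfl fun y _ => av_sum R F (T y)
        _ ≤ ∑ _y ∈ F, ∑ _k ∈ F, 4 * η := Finset.sum_le_sum fun y hy =>
            Finset.sum_le_sum fun k hk => A1 y hy k hk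
        _ = c * (4 * η) := by
            rw [Finset.sum_const, Finset.sum_const, nsmul_eq_mul, nsmul_eq_mul, hc]
            ring
    have s2 : ∑ y ∈ F, Av R (fun a => ∑ k ∈ F, T' y k a) ≤ c * (4 * η) := by
      calc ∑ y ∈ F, Av R (fun a => ∑ k ∈ F, T' y k a) = ∑ y ∈ F, ∑ k ∈ F, Av R (T' y k) :=
            Finset.sum_congr rfl fun y _ => av_sum R F (T' y)
        _ ≤ ∑ _y ∈ F, ∑ _k ∈ F, 4 * η := Finset.sum_le_sum fun y hy =>
            Finset.sum_le_sum fun k hk => A2 y hy k hk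
        _ = c * (4 * η) := by
            rw [Finset.sum_const, Finset.sum_const, nsmul_eq_mul, nsmul_eq_mul, hc]
            ring
    have s3 : ∑ y ∈ F, Av R (G y) ≤ c * η := by
      calc ∑ y ∈ F, Av R (G y) ≤ ∑ _y ∈ F, η := Finset.sum_le_sum fun y hy => A3 y hy
        _ = F.card * η := by rw [Finset.sum_const, nsmul_eq_mul]
        _ ≤ c * η := mul_le_mul_of_nonneg_right hFcc hη0.le
    have s4 : c * (4 * η) + c * (4 * η) + c * η = ε := by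
      rw [hη]
      field_simp
      ring
    linarith
  have hT0 : ∀ y' k' : Site d, 0 ≤ T y' k' a := fun y' k' => integral_nonneg fun ω => abs_nonneg _
  have hT0' : ∀ y' k' : Site d, 0 ≤ T' y' k' a := fun y' k' =>
    integral_nonneg fun ω => abs_nonneg _
  have hG0 : ∀ y' : Site d, 0 ≤ G y' a := fun y' => integral_nonneg fun ω => abs_nonneg _
  have hs1 : 0 ≤ ∑ y ∈ F, ∑ k ∈ F, T y k a :=
    Finset.sum_nonneg fun y _ => Finset.sum_nonneg fun k _ => hT0 y k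
  have hs2 : 0 ≤ ∑ y ∈ F, ∑ k ∈ F, T' y k a :=
    Finset.sum_nonneg fun y _ => Finset.sum_nonneg fun k _ => hT0' y k
  have hs3 : 0 ≤ ∑ y ∈ F, G y a := Finset.sum_nonneg fun y _ => hG0 y
  have hall := ha.trans hsum
  have key : ∀ (m : ℕ) (X : Site d → Site d → Site d → ℝ), 1 ≤ m →
      (X = fun y k a => ∫ ω, |D N ω a (a + sm m y) / m -
        D N ω (a + sm m k) (a + sm m k + sm m y) / m| ∂P) → (∀ y' k' : Site d, 0 ≤ X y' k' a) →
      ∑ y ∈ F, ∑ k ∈ F, X y k a ≤ ε → ∀ y k : Site d, sd 0 y ≤ K → sd 0 k ≤ K →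
      ∫ ω, |D N ω a (a + sm m y) - D N ω (a + sm m k) (a + sm m k + sm m y)| ∂P ≤
        ε * (m : ℕ) := by
    intro m X hm hX hX0 hXs y k hy hk
    have hmpos : (0 : ℝ) < m := by exact_mod_cast hm
    have h1 : X y k a ≤ ∑ y ∈ F, ∑ k ∈ F, X y k a := by
      have h2 : X y k a ≤ ∑ k ∈ F, X y k a :=
        Finset.single_le_sum (f := fun k => X y k a) (fun k' _ => hX0 y k')
          (by rw [hF, mem_box]; exact hk)
      exact h2.trans (Finset.single_le_sum (f := fun y => ∑ k ∈ F, X y k a)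
        (fun y' _ => Finset.sum_nonneg fun k' _ => hX0 y' k') (by rw [hF, mem_box]; exact hy))
    have h2 : X y k a ≤ ε := h1.trans hXs
    have h3 : X y k a = (∫ ω, |D N ω a (a + sm m y) -
        D N ω (a + sm m k) (a + sm m k + sm m y)| ∂P) / m := by
      rw [hX]
      rw [← integral_div]
      refine integral_congr_ae (Filter.Eventually.of_forall fun ω => ?_)
      simp only
      rw [← sub_div, abs_div, abs_of_pos hmpos]
    rw [h3, div_le_iff₀ hmpos] at h2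
    exact h2
  refine ⟨N, a, ?_, ?_, fun y k hy hk => ⟨key ℓ T hℓ1 hT hT0 (by linarith) y k hy hk,
    key ℓ' T' hℓ1' hT' hT0' (by linarith) y k hy hk, ?_⟩⟩
  · intro x hx
    rw [mem_box] at hx haR ⊢
    have h3 := sd_triangle 0 a x
    omega
  · intro x hx
    rw [mem_box] at hx haR ⊢
    have h3 := sd_triangle 0 a x
    omega
  · have h1 : G y a ≤ ∑ y ∈ F, G y a :=
      Finset.single_le_sum (f := fun y => G y a) (fun y' _ => hG0 y')
        (by rw [hF, mem_box]; exact hy)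
    have h2 : G y a ≤ ε := by linarith
    exact h2

end Pool.Agent.LE.H59A
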