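import Pool.Agent.LE.Stmts2
import Pool.Agent.Helper48_Loc.Decay

/-!
# RST: the Green function of a large cube decays from the good sites
-/

set_option autoImplicit false

open MeasureTheory ProbabilityTheory Function Filter

open scoped ENNReal BigOperators Topology

noncomputable section

namespace Pool.Agent.LE.H59

open Pool.Agent.Anderson Pool.Agent.Loc Pool.Agent.Helper54.Bal Pool.Agent.Helper96.EXP

variable {d : ℕ}

/-! ### the deterministic part -/

theorem RM_mulVec (V : Site d → ℝ) (Λ : Finset (Site d)) (E : ℝ) (f : Site d → ℝ) (x : Λ) :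
    (RM V Λ E).mulVec (fun z : Λ => f z) x =
      E * f x - V x * f x - ∑ y ∈ Λ, hop (x : Site d) y * f y := by
  have h1 : ∑ z : Λ, (HM V Λ) x z * f z = ∑ y ∈ Λ, hop (x : Site d) y * f y + V x * f x := by
    have e : ∀ z : Λ, (HM V Λ) x z * f z =
        hop (x : Site d) z * f z + if x = z then V x * f x else 0 := by
      intro z
      simp only [HM, Matrix.of_apply]
      by_cases h : x = z
      · subst h
        rw [if_pos rfl, if_pos rfl]
        ring
      · rw [if_neg h, if_neg h]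
        ring
    simp_rw [e]
    rw [Finset.sum_add_distrib, Finset.sum_ite_eq, if_pos (Finset.mem_univ _)]
    congr 1
    exact Finset.sum_coe_sort Λ fun y => hop (x : Site d) y * f y
  have h2 : (RM V Λ E).mulVec (fun z : Λ => f z) x =
      E * f x - ∑ z : Λ, (HM V Λ) x z * f z := by
    unfold RM
    rw [Matrix.sub_mulVec, Matrix.smul_mulVec, Matrix.one_mulVec]
    rfl
  rw [h2, h1]
  ring

theorem repr {V : Site d → ℝ} {Λ : Finset (Site d)} {E : ℝ} (hdet : (RM V Λ E).det ≠ 0)
    (f : Site d → ℝ) {w : Site d} (hw : w ∈ Λ) :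
    f w = ∑ x ∈ Λ, gr V Λ E w x * (E * f x - V x * f x - ∑ y ∈ Λ, hop x y * f y) := by
  have h1 : (RM V Λ E)⁻¹.mulVec ((RM V Λ E).mulVec (fun z : Λ => f z)) = fun z : Λ => f z := by
    rw [Matrix.mulVec_mulVec, Matrix.nonsing_inv_mul _ (isUnit_iff_ne_zero.2 hdet),
      Matrix.one_mulVec]
  have h2 := congrFun h1 ⟨w, hw⟩
  have h3 : (RM V Λ E)⁻¹.mulVec ((RM V Λ E).mulVec (fun z : Λ => f z)) ⟨w, hw⟩ =
      ∑ x ∈ Λ, gr V Λ E w x * (E * f x - V x * f x - ∑ y ∈ Λ, hop x y * f y) := by
    rw [← Finset.sum_coe_sort Λ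
      fun x => gr V Λ E w x * (E * f x - V x * f x - ∑ y ∈ Λ, hop x y * f y)]
    unfold Matrix.mulVec dotProduct
    apply Finset.sum_congr rfl
    intro z _
    have e1 : gr V Λ E w z = (RM V Λ E)⁻¹ ⟨w, hw⟩ z := by
      unfold gr
      rw [dif_pos ⟨hw, z.2⟩]
    rw [e1]
    congr 1
    exact RM_mulVec V Λ E f z
  rw [← h3, h2]

theorem sd_sub (s y : Site d) : sd 0 (y - s) = sd s y := by
  unfold sd
  congr 1
  funext i
  rw [Pi.zero_apply, Pi.sub_apply]
  congr 1
  ring

theorem bound {C m E T : ℝ} {V n : Site d → ℝ} {L : ℕ} {s w : Site d} (hm : 0 < m)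
    (hs : s ∈ box (0 : Site d) L) (hn : Sol C m (tau s V) E n)
    (hdet : (RM V (box (0 : Site d) (3 * L)) E).det ≠ 0)
    (hT : ∀ x y, |gr V (box (0 : Site d) (3 * L)) E x y| ≤ T)
    (hw : w ∈ box (0 : Site d) (3 * L)) :
    |E - lapR n 0 - V s| * |gr V (box (0 : Site d) (3 * L)) E s w| ≤
      C * Real.exp (-m * sd s w) +
        (6 * L + 1) ^ d * (T * (2 * d * (C * Real.exp (-m * (2 * L))))) := by
  classical
  obtain ⟨hn0, hdec, hsol⟩ := hn
  have hC := hdec.nonneg
  set B := box (0 : Site d) (3 * L) with hB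
  have hT0 : 0 ≤ T := (abs_nonneg _).trans (hT 0 0)
  set f : Site d → ℝ := fun x => n (x - s) with hf
  have hsB : s ∈ B := box_mono 0 (by omega) hs
  set κ := E - lapR n 0 - V s with hκ
  set β : Site d → ℝ := fun x => ∑ y ∈ (box x 1 ∪ B) \ B, hop x y * f y with hβ
  have hlap : ∀ x, lapR n (x - s) = ∑ y ∈ B, hop x y * f y + β x := by
    intro x
    have h1 := sum_hop x (box x 1 ∪ B) Finset.subset_union_left f
    simp only [smul_eq_mul] at h1
    have h2 : lapR n (x - s) = ∑ i : Fin d, (f (x + Pi.single i 1) + f (x - Pi.single i 1)) := by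
      unfold lapR
      apply Finset.sum_congr rfl
      intro i _
      rw [hf]
      simp only
      congr 2 <;> abel
    rw [h2, ← h1, hβ, add_comm]
    simp only
    rw [Finset.sum_sdiff Finset.subset_union_right]
  have hr : ∀ x, E * f x - V x * f x - ∑ y ∈ B, hop x y * f y =
      (if x = s then κ else 0) + β x := by
    intro x
    have h1 := hlap x
    by_cases hx : x = s
    · subst hx
      rw [if_pos rfl]
      have h2 : f x = 1 := by
        rw [hf]
        simp only [sub_self]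
        exact hn0
      rw [sub_self] at h1
      rw [h2, hκ]
      linarith
    · rw [if_neg hx]
      have h2 := hsol (x - s) (sub_ne_zero.2 hx)
      have h3 : tau s V (x - s) = V x := by
        unfold tau
        rw [sub_add_cancel]
      rw [h3] at h2
      have h4 : n (x - s) = f x := rfl
      rw [h4] at h2
      linarith
  have hβb : ∀ x, |β x| ≤ 2 * d * (C * Real.exp (-m * (2 * L))) := by
    intro x
    have h1 : ∀ y ∈ (box x 1 ∪ B) \ B, |hop x y * f y| ≤
        hop x y * (C * Real.exp (-m * (2 * L))) := by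
      intro y hy
      rw [Finset.mem_sdiff] at hy
      rw [abs_mul, abs_of_nonneg (hop_nonneg x y)]
      apply mul_le_mul_of_nonneg_left _ (hop_nonneg x y)
      have h2 := hdec (y - s)
      refine h2.trans ?_
      apply mul_le_mul_of_nonneg_left _ hC
      rw [Real.exp_le_exp, sd_sub]
      have h3 : 2 * L ≤ sd s y := by
        have h4 := hy.2
        rw [hB, mem_box] at h4
        have h5 := sd_triangle (0 : Site d) s y
        have h6 := mem_box.1 hs
        omega
      have h3' : (2 * L : ℝ) ≤ sd s y := by exact_mod_cast h3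
      nlinarith
    calc |β x| ≤ ∑ y ∈ (box x 1 ∪ B) \ B, |hop x y * f y| := Finset.abs_sum_le_sum_abs _ _
      _ ≤ ∑ y ∈ (box x 1 ∪ B) \ B, hop x y * (C * Real.exp (-m * (2 * L))) :=
        Finset.sum_le_sum h1
      _ = (∑ y ∈ (box x 1 ∪ B) \ B, hop x y) * (C * Real.exp (-m * (2 * L))) := by
        rw [Finset.sum_mul]
      _ ≤ 2 * d * (C * Real.exp (-m * (2 * L))) :=
        mul_le_mul_of_nonneg_right (sum_hop_le x _) (by positivity)
  have hrep := repr hdet f hw
  simp_rw [hr, mul_add] at hrep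
  rw [Finset.sum_add_distrib] at hrep
  have h5 : ∑ x ∈ B, gr V B E w x * (if x = s then κ else 0) = gr V B E w s * κ := by
    rw [Finset.sum_eq_single s]
    · rw [if_pos rfl]
    · intro b _ hb
      rw [if_neg hb, mul_zero]
    · intro h
      exact absurd hsB h
  rw [h5] at hrep
  have h6 : κ * gr V B E s w = f w - ∑ x ∈ B, gr V B E w x * β x := by
    rw [gr_symm V B E s w]
    linarith
  rw [← abs_mul, h6]
  have h7 : |f w| ≤ C * Real.exp (-m * sd s w) := by
    have := hdec (w - s)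
    rw [sd_sub] at this
    exact this
  have h8 : |∑ x ∈ B, gr V B E w x * β x| ≤
      (6 * L + 1) ^ d * (T * (2 * d * (C * Real.exp (-m * (2 * L))))) := by
    calc |∑ x ∈ B, gr V B E w x * β x| ≤ ∑ x ∈ B, |gr V B E w x * β x| :=
        Finset.abs_sum_le_sum_abs _ _
      _ ≤ ∑ _x ∈ B, T * (2 * d * (C * Real.exp (-m * (2 * L)))) := by
        apply Finset.sum_le_sum
        intro x _
        rw [abs_mul]
        exact mul_le_mul (hT w x) (hβb x) (abs_nonneg _) hT0
      _ = (6 * L + 1) ^ d * (T * (2 * d * (C * Real.exp (-m * (2 * L))))) := by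
        rw [Finset.sum_const, nsmul_eq_mul, hB, card_box]
        congr 1
        push_cast
        ring
  calc |f w - ∑ x ∈ B, gr V B E w x * β x| ≤ |f w| + |∑ x ∈ B, gr V B E w x * β x| :=
      abs_sub _ _
    _ ≤ _ := add_le_add h7 h8

/-! ### the probability that the tuned value is close to the potential -/

theorem sol_update {C m E r : ℝ} {V n : Site d → ℝ} :
    Sol C m (update V 0 r) E n ↔ Sol C m V E n := by
  unfold Sol
  constructor
  · rintro ⟨h1, h2, h3⟩
    refine ⟨h1, h2, fun x hx => ?_⟩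
    have := h3 x hx
    rwa [update_of_ne hx] at this
  · rintro ⟨h1, h2, h3⟩
    refine ⟨h1, h2, fun x hx => ?_⟩
    rw [update_of_ne hx]
    exact h3 x hx

/-- potentials near a potential with an eigenfunction -/
def Near (C m E τ : ℝ) : Set (Site d → ℝ) :=
  {W | ∃ r ∈ Set.Icc (-τ) τ, ∃ n, Sol C m W E n ∧ lapR n 0 + (W 0 + r) = E}

theorem closed_Near (hclo : CloStmt) (C m E τ : ℝ) :
    IsClosed (Near (d := d) C m E τ) := by
  have hZ := (hclo d C m).2 {E} isCompact_singleton
  set Z : Set (Site d → ℝ) := {V | ∃ E' ∈ ({E} : Set ℝ), ∃ n, Sol C m V E' n ∧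
    lapR n 0 + V 0 = E'} with hZdef
  have hK : CompactSpace (Set.Icc (-τ) τ) := isCompact_iff_compactSpace.1 isCompact_Icc
  have h1 : IsClosed {p : (Site d → ℝ) × Set.Icc (-τ) τ |
      update p.1 0 (p.1 0 + (p.2 : ℝ)) ∈ Z} := by
    apply hZ.preimage
    apply Continuous.update continuous_fst
    exact ((continuous_apply (0 : Site d)).comp continuous_fst).add
      (continuous_subtype_val.comp continuous_snd)
  have h2 := isClosedMap_fst_of_compactSpace (X := Site d → ℝ) (Y := Set.Icc (-τ) τ) _ h1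
  have h3 : Near (d := d) C m E τ = Prod.fst '' {p : (Site d → ℝ) × Set.Icc (-τ) τ |
      update p.1 0 (p.1 0 + (p.2 : ℝ)) ∈ Z} := by
    ext W
    constructor
    · rintro ⟨r, hr, n, hn, he⟩
      refine ⟨(W, ⟨r, hr⟩), ?_, rfl⟩
      refine ⟨E, rfl, n, sol_update.2 hn, ?_⟩
      rw [update_self]
      exact he
    · rintro ⟨⟨W', r⟩, ⟨E', hE', n, hn, he⟩, rfl⟩
      have hE'' : E' = E := hE'
      subst hE''
      refine ⟨r, r.2, n, sol_update.1 hn, ?_⟩
      rw [update_self] at he
      exact he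
  rw [h3]
  exact h2

theorem prob_Near (hclo : CloStmt) {ν : Measure ℝ} [IsProbabilityMeasure ν] {ρ : ℝ}
    (hν : BddDens ν ρ) {C m E τ : ℝ} (hm : 0 < m) :
    PP d ν (Near C m E τ) ≤ ENNReal.ofReal (ρ * (2 * τ)) := by
  have hmeas : MeasurableSet (Near (d := d) C m E τ) := (closed_Near hclo C m E τ).measurableSet
  have hres := resamp_PP (d := d) (μ := ν)
  rw [← hres.measure_preimage hmeas.nullMeasurableSet,
    Measure.prod_apply (hres.measurable hmeas)]
  calc ∫⁻ V, ν (Prod.mk V ⁻¹' ((fun p : Cfg d × ℝ => update p.1 0 p.2) ⁻¹'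
        Near C m E τ)) ∂(PP d ν)
      ≤ ∫⁻ _V, ENNReal.ofReal (ρ * (2 * τ)) ∂(PP d ν) := by
        apply lintegral_mono
        intro V
        by_cases hV : GoodE C m V E
        · obtain ⟨n, hn⟩ := hV
          have hsub : Prod.mk V ⁻¹' ((fun p : Cfg d × ℝ => update p.1 0 p.2) ⁻¹'
              Near C m E τ) ⊆ Set.Icc (E - lapR n 0 - τ) (E - lapR n 0 + τ) := by
            rintro t ⟨r, hr, n', hn', he⟩
            change lapR n' 0 + (update V 0 t 0 + r) = E at he
            rw [update_self] at he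
            have h1 := key hm hn (sol_update.1 hn')
            rw [sub_self, zero_mul, sub_eq_zero] at h1
            rw [Set.mem_Icc] at hr ⊢
            constructor <;> linarith [hr.1, hr.2]
          refine (measure_mono hsub).trans ((hν.2 _ _).trans (le_of_eq ?_))
          congr 1
          ring
        · have hsub : Prod.mk V ⁻¹' ((fun p : Cfg d × ℝ => update p.1 0 p.2) ⁻¹'
              Near C m E τ) ⊆ ∅ := by
            rintro t ⟨r, hr, n', hn', he⟩
            exact hV ⟨n', sol_update.1 hn'⟩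
          refine (measure_mono hsub).trans ?_
          rw [measure_empty]
          exact zero_le
    _ = ENNReal.ofReal (ρ * (2 * τ)) := by
      rw [lintegral_const, measure_univ, mul_one]

theorem prob_tau_Near (hclo : CloStmt) {ν : Measure ℝ} [IsProbabilityMeasure ν] {ρ : ℝ}
    (hν : BddDens ν ρ) {C m E τ : ℝ} (hm : 0 < m) (s : Site d) :
    PP d ν {V | tau s V ∈ Near C m E τ} ≤ ENNReal.ofReal (ρ * (2 * τ)) := by
  have hmeas : MeasurableSet (Near (d := d) C m E τ) := (closed_Near hclo C m E τ).measurableSet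
  have h1 := (shiftInv_PP (d := d) (μ := ν) s).measure_preimage hmeas.nullMeasurableSet
  have h2 : {V : Site d → ℝ | tau s V ∈ Near C m E τ} = tau s ⁻¹' Near C m E τ := rfl
  rw [h2, h1]
  exact prob_Near hclo hν hm

/-! ### the theorem -/

theorem threshold {m : ℝ} (hm : 0 < m) (D q : ℝ) (hq : 0 < q) :
    ∃ L₀ : ℕ, ∀ L : ℕ, L₀ ≤ L → D * Real.exp (-(m / 16) * L) ≤ q := by
  have h1 : Tendsto (fun L : ℕ => D * Real.exp (-(m / 16) * L)) atTop (𝓝 (D * 0)) := by
    apply Tendsto.const_mul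
    have h2 : Tendsto (fun L : ℕ => (m / 16) * (L : ℝ)) atTop atTop :=
      tendsto_natCast_atTop_atTop.const_mul_atTop (by positivity)
    have h3 := Real.tendsto_exp_neg_atTop_nhds_zero.comp h2
    refine h3.congr fun L => ?_
    simp only [Function.comp_apply]
    congr 1
    ring
  rw [mul_zero] at h1
  obtain ⟨L₀, h⟩ := (h1.eventually_le_const hq).exists_forall_of_atTop
  exact ⟨L₀, h⟩

theorem rst (hclo : CloStmt) : RstStmt := by
  intro d ν _ ρ hν C m E hm p hp
  classical
  have hρ := hν.1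
  obtain ⟨B', hB'0, hB'⟩ := exists_pow_exp_bound (2 * d) (c := m / 16) (by positivity)
  set Q : ℝ := 6 ^ (2 * d) * B' with hQ
  have hQ0 : 0 ≤ Q := by positivity
  have hpow : ∀ L : ℕ, (6 * (L : ℝ) + 1) ^ (2 * d) * Real.exp (-(m / 16) * L) ≤ Q := by
    intro L
    have h1 : (6 * (L : ℝ) + 1) ^ (2 * d) ≤ 6 ^ (2 * d) * ((L : ℝ) + 1) ^ (2 * d) := by
      rw [← mul_pow]
      apply pow_le_pow_left₀ (by positivity)
      linarith
    calc (6 * (L : ℝ) + 1) ^ (2 * d) * Real.exp (-(m / 16) * L)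
        ≤ 6 ^ (2 * d) * ((L : ℝ) + 1) ^ (2 * d) * Real.exp (-(m / 16) * L) :=
          mul_le_mul_of_nonneg_right h1 (Real.exp_pos _).le
      _ = 6 ^ (2 * d) * (((L : ℝ) + 1) ^ (2 * d) * Real.exp (-(m / 16) * L)) := by ring
      _ ≤ Q := mul_le_mul_of_nonneg_left (hB' L) (by positivity)
  obtain ⟨L₁, hL₁⟩ := threshold hm (8 * ρ * Q) p hp
  obtain ⟨L₂, hL₂⟩ := threshold hm ((|C| + 2 * d * |C|) * Q) 1 one_pos
  refine ⟨max L₁ L₂, fun L hL => ?_⟩
  have hL1 := hL₁ L ((le_max_left _ _).trans hL)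
  have hL2 := hL₂ L ((le_max_right _ _).trans hL)
  set B := box (0 : Site d) (3 * L) with hB
  set T : ℝ := Real.exp ((m / 8) * L) with hT
  set τ : ℝ := Real.exp (-(m / 8) * L) with hτ
  have hTpos : 0 < T := Real.exp_pos _
  have hτpos : 0 < τ := Real.exp_pos _
  have hTτ : T * τ = 1 := by
    rw [hT, hτ, ← Real.exp_add]
    rw [show (m / 8) * (L : ℝ) + -(m / 8) * L = 0 by ring, Real.exp_zero]
  -- the inclusion
  have hsub : {V : Site d → ℝ | ∃ s ∈ box (0 : Site d) L, GoodE C m (tau s V) E ∧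
      ∃ w ∈ B, L ≤ 2 * sd s w ∧ Real.exp (-(m / 8) * L) < |gr V B E s w|} ⊆
      ({V | (RM V B E).det = 0} ∪ ⋃ x ∈ B, ⋃ y ∈ B, {V | T < |gr V B E x y|}) ∪
        ⋃ s ∈ box (0 : Site d) L, {V | tau s V ∈ Near C m E τ} := by
    rintro V ⟨s, hs, ⟨n, hn⟩, w, hw, hsw, hlt⟩
    by_contra hV
    simp only [Set.mem_union, Set.mem_iUnion, Set.mem_ofPred_eq, not_or, not_exists] at hV
    obtain ⟨⟨hdet, hgT⟩, hnear⟩ := hV
    have hgT' : ∀ x y, |gr V B E x y| ≤ T := by
      intro x y
      by_cases hxy : x ∈ B ∧ y ∈ B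
      · exact not_lt.1 (hgT x hxy.1 y hxy.2)
      · unfold gr
        rw [dif_neg hxy, abs_zero]
        exact hTpos.le
    have hC : 0 ≤ C := hn.2.1.nonneg
    have hκ : τ < |E - lapR n 0 - V s| := by
      by_contra hk
      rw [not_lt] at hk
      apply hnear s hs
      refine ⟨E - lapR n 0 - V s, abs_le.1 hk, n, hn, ?_⟩
      unfold tau
      rw [zero_add]
      ring
    have hb := bound hm hs hn hdet hgT' hw
    have h1 : τ * |gr V B E s w| ≤ |E - lapR n 0 - V s| * |gr V B E s w| :=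
      mul_le_mul_of_nonneg_right hκ.le (abs_nonneg _)
    have h2 : τ * τ < τ * |gr V B E s w| := mul_lt_mul_of_pos_left hlt hτpos
    have h3 : Real.exp (-m * sd s w) ≤ τ * τ * Real.exp (-(m / 8) * L) := by
      rw [hτ, ← Real.exp_add, ← Real.exp_add, Real.exp_le_exp]
      have : (L : ℝ) ≤ 2 * sd s w := by exact_mod_cast hsw
      nlinarith
    have h4 : T * Real.exp (-m * (2 * L)) ≤ τ * τ * Real.exp (-(m / 8) * L) := by
      rw [hT, hτ, ← Real.exp_add, ← Real.exp_add, ← Real.exp_add, Real.exp_le_exp]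
      have : (0 : ℝ) ≤ L := Nat.cast_nonneg L
      nlinarith
    have h5 : C * Real.exp (-m * sd s w) +
        (6 * L + 1) ^ d * (T * (2 * d * (C * Real.exp (-m * (2 * L))))) ≤ τ * τ := by
      have hpos : (1 : ℝ) ≤ (6 * (L : ℝ) + 1) ^ d := by
        apply one_le_pow₀
        have : (0 : ℝ) ≤ L := Nat.cast_nonneg L
        linarith
      have h6 : (6 * (L : ℝ) + 1) ^ d ≤ (6 * (L : ℝ) + 1) ^ (2 * d) := by
        apply pow_le_pow_right₀
        · have : (0 : ℝ) ≤ L := Nat.cast_nonneg L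
          linarith
        · omega
      have h7 : Real.exp (-(m / 8) * L) =
          Real.exp (-(m / 16) * L) * Real.exp (-(m / 16) * L) := by
        rw [← Real.exp_add]
        congr 1
        ring
      have h8 : (6 * (L : ℝ) + 1) ^ d * Real.exp (-(m / 8) * L) ≤
          Q * Real.exp (-(m / 16) * L) := by
        rw [h7, ← mul_assoc]
        apply mul_le_mul_of_nonneg_right _ (Real.exp_pos _).le
        exact (mul_le_mul_of_nonneg_right h6 (Real.exp_pos _).le).trans (hpow L)
      calc C * Real.exp (-m * sd s w) +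
          (6 * L + 1) ^ d * (T * (2 * d * (C * Real.exp (-m * (2 * L)))))
          = C * Real.exp (-m * sd s w) +
          2 * d * C * ((6 * L + 1) ^ d * (T * Real.exp (-m * (2 * L)))) := by ring
        _ ≤ C * (τ * τ * Real.exp (-(m / 8) * L)) +
          2 * d * C * ((6 * L + 1) ^ d * (τ * τ * Real.exp (-(m / 8) * L))) := by
          apply add_le_add
          · exact mul_le_mul_of_nonneg_left h3 hC
          · apply mul_le_mul_of_nonneg_left _ (by positivity)
            exact mul_le_mul_of_nonneg_left h4 (by positivity)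
        _ ≤ C * ((6 * L + 1) ^ d * (τ * τ * Real.exp (-(m / 8) * L))) +
          2 * d * C * ((6 * L + 1) ^ d * (τ * τ * Real.exp (-(m / 8) * L))) := by
          apply add_le_add _ le_rfl
          apply mul_le_mul_of_nonneg_left _ hC
          exact le_mul_of_one_le_left (by positivity) hpos
        _ = (τ * τ) * ((C + 2 * d * C) * ((6 * (L : ℝ) + 1) ^ d * Real.exp (-(m / 8) * L))) := by
          ring
        _ ≤ (τ * τ) * ((C + 2 * d * C) * (Q * Real.exp (-(m / 16) * L))) := by
          apply mul_le_mul_of_nonneg_left _ (by positivity)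
          exact mul_le_mul_of_nonneg_left h8 (by positivity)
        _ ≤ (τ * τ) * 1 := by
          apply mul_le_mul_of_nonneg_left _ (by positivity)
          rw [abs_of_nonneg hC] at hL2
          linarith
        _ = τ * τ := mul_one _
    linarith
  refine (measure_mono hsub).trans ?_
  -- the three probabilities
  have hN1 : PP d ν {V | (RM V B E).det = 0} = 0 := by
    have h1 : Pool.Agent.Mob.H75.Loc {V : Site d → ℝ | (RM V B E).det = 0} B := by
      intro V V' h
      rw [Set.mem_ofPred_eq, Set.mem_ofPred_eq, RM_congr h]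
    exact le_antisymm ((Pool.Agent.Mob.H75.PP_le_PL h1).trans (PL_det hν B B le_rfl E).le) zero_le
  have hN2 : ∀ x y, PP d ν {V | T < |gr V B E x y|} ≤ ENNReal.ofReal (6 * ρ / T) := by
    intro x y
    have h1 : Pool.Agent.Mob.H75.Loc {V : Site d → ℝ | T < |gr V B E x y|} B := by
      intro V V' h
      rw [Set.mem_ofPred_eq, Set.mem_ofPred_eq, gr_congr h]
    exact (Pool.Agent.Mob.H75.PP_le_PL h1).trans (PL_weak hν B E x y hTpos)
  have hN3 : ∀ s, PP d ν {V | tau s V ∈ Near C m E τ} ≤ ENNReal.ofReal (ρ * (2 * τ)) :=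
    fun s => prob_tau_Near hclo hν hm s
  have hcB : (B.card : ℝ) = (6 * L + 1) ^ d := by
    rw [hB, card_box]
    push_cast
    congr 1
    ring
  have hcL : ((box (0 : Site d) L).card : ℝ) = (2 * L + 1) ^ d := by
    rw [card_box]
    push_cast
    rfl
  have hU2 : PP d ν (⋃ x ∈ B, ⋃ y ∈ B, {V | T < |gr V B E x y|}) ≤
      ENNReal.ofReal ((6 * L + 1) ^ (2 * d) * (6 * ρ / T)) := by
    calc PP d ν (⋃ x ∈ B, ⋃ y ∈ B, {V | T < |gr V B E x y|})
        ≤ ∑ x ∈ B, ∑ y ∈ B, PP d ν {V | T < |gr V B E x y|} := by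
          refine (measure_biUnion_finset_le _ _).trans ?_
          exact Finset.sum_le_sum fun x _ => measure_biUnion_finset_le _ _
      _ ≤ ∑ _x ∈ B, ∑ _y ∈ B, ENNReal.ofReal (6 * ρ / T) :=
          Finset.sum_le_sum fun x _ => Finset.sum_le_sum fun y _ => hN2 x y
      _ = ENNReal.ofReal ((6 * L + 1) ^ (2 * d) * (6 * ρ / T)) := by
          rw [Finset.sum_const, Finset.sum_const, nsmul_eq_mul, nsmul_eq_mul,
            ← ENNReal.ofReal_natCast, ← ENNReal.ofReal_mul (Nat.cast_nonneg _),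
            ← ENNReal.ofReal_mul (Nat.cast_nonneg _), hcB]
          congr 1
          ring
  have hU3 : PP d ν (⋃ s ∈ box (0 : Site d) L, {V | tau s V ∈ Near C m E τ}) ≤
      ENNReal.ofReal ((2 * L + 1) ^ d * (ρ * (2 * τ))) := by
    calc PP d ν (⋃ s ∈ box (0 : Site d) L, {V | tau s V ∈ Near C m E τ})
        ≤ ∑ s ∈ box (0 : Site d) L, PP d ν {V | tau s V ∈ Near C m E τ} :=
          measure_biUnion_finset_le _ _
      _ ≤ ∑ _s ∈ box (0 : Site d) L, ENNReal.ofReal (ρ * (2 * τ)) :=
          Finset.sum_le_sum fun s _ => hN3 s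
      _ = ENNReal.ofReal ((2 * L + 1) ^ d * (ρ * (2 * τ))) := by
          rw [Finset.sum_const, nsmul_eq_mul, ← ENNReal.ofReal_natCast,
            ← ENNReal.ofReal_mul (Nat.cast_nonneg _), hcL]
  refine (measure_union_le _ _).trans ?_
  refine (add_le_add (measure_union_le _ _) le_rfl).trans ?_
  rw [hN1, zero_add]
  refine (add_le_add hU2 hU3).trans ?_
  rw [← ENNReal.ofReal_add (by positivity) (by positivity)]
  apply ENNReal.ofReal_le_ofReal
  have hTi : 6 * ρ / T = 6 * ρ * τ := by
    rw [div_eq_iff hTpos.ne', mul_assoc, mul_comm τ T, hTτ, mul_one]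
  have hLnn : (0 : ℝ) ≤ L := Nat.cast_nonneg L
  have h2d : (2 * (L : ℝ) + 1) ^ d ≤ (6 * (L : ℝ) + 1) ^ (2 * d) := by
    calc (2 * (L : ℝ) + 1) ^ d ≤ (6 * (L : ℝ) + 1) ^ d := by
          apply pow_le_pow_left₀ (by positivity)
          linarith
      _ ≤ (6 * (L : ℝ) + 1) ^ (2 * d) := by
          apply pow_le_pow_right₀
          · linarith
          · omega
  have h7 : τ = Real.exp (-(m / 16) * L) * Real.exp (-(m / 16) * L) := by
    rw [hτ, ← Real.exp_add]
    congr 1
    ring
  calc (6 * (L : ℝ) + 1) ^ (2 * d) * (6 * ρ / T) + (2 * (L : ℝ) + 1) ^ d * (ρ * (2 * τ))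
      ≤ (6 * (L : ℝ) + 1) ^ (2 * d) * (6 * ρ * τ) +
        (6 * (L : ℝ) + 1) ^ (2 * d) * (ρ * (2 * τ)) := by
        rw [hTi]
        apply add_le_add le_rfl
        exact mul_le_mul_of_nonneg_right h2d (by positivity)
    _ = 8 * ρ * (((6 * (L : ℝ) + 1) ^ (2 * d) * Real.exp (-(m / 16) * L)) *
        Real.exp (-(m / 16) * L)) := by
        rw [h7]
        ring
    _ ≤ 8 * ρ * (Q * Real.exp (-(m / 16) * L)) := by
        apply mul_le_mul_of_nonneg_left _ (by positivity)
        exact mul_le_mul_of_nonneg_right (hpow L) (Real.exp_pos _).le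
    _ = 8 * ρ * Q * Real.exp (-(m / 16) * L) := by ring
    _ ≤ p := hL1

end Pool.Agent.LE.H59
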