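import Pool.Agent.LE.StmtsR
import Pool.Agent.Helper59_LE.Rst
import Pool.Agent.Helper77_LE.Clo

/-!
# RSX: a decaying solution off the site `0` gives decay of the Green function at the same rate
-/

set_option autoImplicit false

open MeasureTheory ProbabilityTheory Function Filter

open scoped ENNReal BigOperators Topology

noncomputable section

namespace Pool.Agent.LE.H59R

open Pool.Agent.Anderson Pool.Agent.Loc Pool.Agent.Mob Pool.Agent.Helper54.Bal
  Pool.Agent.Helper96.EXP Pool.Agent.LE.H59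

variable {d : ℕ}

theorem bound {C m E T : ℝ} {V n : Site d → ℝ} {L : ℕ} {w : Site d} (hm : 0 < m)
    (hn : Sol C m V E n)
    (hdet : (RM V (box (0 : Site d) L) E).det ≠ 0)
    (hT : ∀ x y, |gr V (box (0 : Site d) L) E x y| ≤ T)
    (hw : w ∈ box (0 : Site d) L) :
    |E - lapR n 0 - V 0| * |gr V (box (0 : Site d) L) E 0 w| ≤
      C * Real.exp (-m * sd 0 w) +
        (2 * L + 1) ^ d * (T * (2 * d * (C * Real.exp (-m * L)))) := by
  classical
  obtain ⟨hn0, hdec, hsol⟩ := hn
  have hC := hdec.nonneg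
  set B := box (0 : Site d) L with hB
  have hT0 : 0 ≤ T := (abs_nonneg _).trans (hT 0 0)
  have hsB : (0 : Site d) ∈ B := mem_box.2 (by rw [sd_self]; exact Nat.zero_le _)
  set κ := E - lapR n 0 - V 0 with hκ
  set β : Site d → ℝ := fun x => ∑ y ∈ (box x 1 ∪ B) \ B, hop x y * n y with hβ
  have hlap : ∀ x, lapR n x = ∑ y ∈ B, hop x y * n y + β x := by
    intro x
    have h1 := sum_hop x (box x 1 ∪ B) Finset.subset_union_left n
    simp only [smul_eq_mul] at h1
    have h2 : lapR n x = ∑ i : Fin d, (n (x + Pi.single i 1) + n (x - Pi.single i 1)) := rfl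
    rw [h2, ← h1, hβ, add_comm]
    simp only
    rw [Finset.sum_sdiff Finset.subset_union_right]
  have hr : ∀ x, E * n x - V x * n x - ∑ y ∈ B, hop x y * n y =
      (if x = 0 then κ else 0) + β x := by
    intro x
    have h1 := hlap x
    by_cases hx : x = 0
    · subst hx
      rw [if_pos rfl]
      rw [hn0, hκ]
      linarith
    · rw [if_neg hx]
      have h2 := hsol x hx
      linarith
  have hβb : ∀ x, |β x| ≤ 2 * d * (C * Real.exp (-m * L)) := by
    intro x
    have h1 : ∀ y ∈ (box x 1 ∪ B) \ B, |hop x y * n y| ≤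
        hop x y * (C * Real.exp (-m * L)) := by
      intro y hy
      rw [Finset.mem_sdiff] at hy
      rw [abs_mul, abs_of_nonneg (hop_nonneg x y)]
      apply mul_le_mul_of_nonneg_left _ (hop_nonneg x y)
      have h2 := hdec y
      refine h2.trans ?_
      apply mul_le_mul_of_nonneg_left _ hC
      rw [Real.exp_le_exp]
      have h3 : L ≤ sd 0 y := by
        have h4 := hy.2
        rw [hB, mem_box] at h4
        omega
      have h3' : (L : ℝ) ≤ sd 0 y := by exact_mod_cast h3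
      nlinarith
    calc |β x| ≤ ∑ y ∈ (box x 1 ∪ B) \ B, |hop x y * n y| := Finset.abs_sum_le_sum_abs _ _
      _ ≤ ∑ y ∈ (box x 1 ∪ B) \ B, hop x y * (C * Real.exp (-m * L)) :=
        Finset.sum_le_sum h1
      _ = (∑ y ∈ (box x 1 ∪ B) \ B, hop x y) * (C * Real.exp (-m * L)) := by
        rw [Finset.sum_mul]
      _ ≤ 2 * d * (C * Real.exp (-m * L)) :=
        mul_le_mul_of_nonneg_right (sum_hop_le x _) (by positivity)
  have hrep := repr hdet n hw
  simp_rw [hr, mul_add] at hrep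
  rw [Finset.sum_add_distrib] at hrep
  have h5 : ∑ x ∈ B, gr V B E w x * (if x = 0 then κ else 0) = gr V B E w 0 * κ := by
    rw [Finset.sum_eq_single 0]
    · rw [if_pos rfl]
    · intro b _ hb
      rw [if_neg hb, mul_zero]
    · intro h
      exact absurd hsB h
  rw [h5] at hrep
  have h6 : κ * gr V B E 0 w = n w - ∑ x ∈ B, gr V B E w x * β x := by
    rw [gr_symm V B E 0 w]
    linarith
  rw [← abs_mul, h6]
  have h7 : |n w| ≤ C * Real.exp (-m * sd 0 w) := hdec w
  have h8 : |∑ x ∈ B, gr V B E w x * β x| ≤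
      (2 * L + 1) ^ d * (T * (2 * d * (C * Real.exp (-m * L)))) := by
    calc |∑ x ∈ B, gr V B E w x * β x| ≤ ∑ x ∈ B, |gr V B E w x * β x| :=
        Finset.abs_sum_le_sum_abs _ _
      _ ≤ ∑ _x ∈ B, T * (2 * d * (C * Real.exp (-m * L))) := by
        apply Finset.sum_le_sum
        intro x _
        rw [abs_mul]
        exact mul_le_mul (hT w x) (hβb x) (abs_nonneg _) hT0
      _ = (2 * L + 1) ^ d * (T * (2 * d * (C * Real.exp (-m * L)))) := by
        rw [Finset.sum_const, nsmul_eq_mul, hB, card_box]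
        push_cast
        rfl
  calc |n w - ∑ x ∈ B, gr V B E w x * β x| ≤ |n w| + |∑ x ∈ B, gr V B E w x * β x| :=
      abs_sub _ _
    _ ≤ _ := add_le_add h7 h8

theorem threshold {c : ℝ} (hc : 0 < c) (D q : ℝ) (hq : 0 < q) :
    ∃ L₀ : ℕ, ∀ L : ℕ, L₀ ≤ L → D * Real.exp (-c * L) ≤ q := by
  obtain ⟨L₀, h⟩ := H59.threshold (m := 16 * c) (by positivity) D q hq
  refine ⟨L₀, fun L hL => ?_⟩
  have := h L hL
  rwa [show 16 * c / 16 = c by ring] at this

/-- the exceptional event -/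
theorem rsx_prob (hclo : CloStmt) {ν : Measure ℝ} [IsProbabilityMeasure ν] {ρ : ℝ}
    (hν : BddDens ν ρ) {C m E ε : ℝ} (hm : 0 < m) (hε : 0 < ε) {p : ℝ} (hp : 0 < p) :
    ∃ L₀ : ℕ, ∀ L : ℕ, L₀ ≤ L →
      PP d ν {V | GoodE C m V E ∧ ¬ SG V L (m - ε) E 0} ≤ ENNReal.ofReal p := by
  classical
  have hρ := hν.1
  -- a = ε / 16
  obtain ⟨B', hB'0, hB'⟩ := exists_pow_exp_bound (2 * d) (c := ε / 16) (by positivity)
  set Q : ℝ := 2 ^ (2 * d) * B' with hQ
  have hQ0 : 0 ≤ Q := by positivity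
  have hpow : ∀ L : ℕ, (2 * (L : ℝ) + 1) ^ (2 * d) * Real.exp (-(ε / 16) * L) ≤ Q := by
    intro L
    have h1 : (2 * (L : ℝ) + 1) ^ (2 * d) ≤ 2 ^ (2 * d) * ((L : ℝ) + 1) ^ (2 * d) := by
      rw [← mul_pow]
      apply pow_le_pow_left₀ (by positivity)
      linarith
    calc (2 * (L : ℝ) + 1) ^ (2 * d) * Real.exp (-(ε / 16) * L)
        ≤ 2 ^ (2 * d) * ((L : ℝ) + 1) ^ (2 * d) * Real.exp (-(ε / 16) * L) :=
          mul_le_mul_of_nonneg_right h1 (Real.exp_pos _).le
      _ = 2 ^ (2 * d) * (((L : ℝ) + 1) ^ (2 * d) * Real.exp (-(ε / 16) * L)) := by ring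
      _ ≤ Q := mul_le_mul_of_nonneg_left (hB' L) (by positivity)
  obtain ⟨L₁, hL₁⟩ := threshold (c := ε / 16) (by positivity) (8 * ρ * Q) p hp
  obtain ⟨L₂, hL₂⟩ := threshold (c := ε / 16) (by positivity) ((|C| + 2 * d * |C|) * Q) 1 one_pos
  refine ⟨max L₁ L₂, fun L hL => ?_⟩
  have hL1 := hL₁ L ((le_max_left _ _).trans hL)
  have hL2 := hL₂ L ((le_max_right _ _).trans hL)
  set B := box (0 : Site d) L with hB
  set T : ℝ := Real.exp ((ε / 4) * L) with hT
  set τ : ℝ := Real.exp (-(ε / 4) * L) with hτ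
  have hTpos : 0 < T := Real.exp_pos _
  have hτpos : 0 < τ := Real.exp_pos _
  have hLnn : (0 : ℝ) ≤ L := Nat.cast_nonneg L
  have hTτ : T * τ = 1 := by
    rw [hT, hτ, ← Real.exp_add]
    rw [show (ε / 4) * (L : ℝ) + -(ε / 4) * L = 0 by ring, Real.exp_zero]
  -- the inclusion
  have hsub : {V : Site d → ℝ | GoodE C m V E ∧ ¬ SG V L (m - ε) E 0} ⊆
      ({V | (RM V B E).det = 0} ∪ ⋃ x ∈ B, ⋃ y ∈ B, {V | T < |gr V B E x y|}) ∪
        Near C m E τ := by
    rintro V ⟨⟨n, hn⟩, hns⟩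
    by_contra hV
    simp only [Set.mem_union, Set.mem_iUnion, Set.mem_ofPred_eq, not_or, not_exists] at hV
    obtain ⟨⟨hdet, hgT⟩, hnear⟩ := hV
    apply hns
    refine ⟨hdet, fun w hsw => ?_⟩
    have hw : w ∈ B := mem_box.2 hsw.le
    have hgT' : ∀ x y, |gr V B E x y| ≤ T := by
      intro x y
      by_cases hxy : x ∈ B ∧ y ∈ B
      · exact not_lt.1 (hgT x hxy.1 y hxy.2)
      · unfold gr
        rw [dif_neg hxy, abs_zero]
        exact hTpos.le
    have hC : 0 ≤ C := hn.2.1.nonneg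
    have hκ : τ < |E - lapR n 0 - V 0| := by
      by_contra hk
      rw [not_lt] at hk
      apply hnear
      refine ⟨E - lapR n 0 - V 0, abs_le.1 hk, n, hn, ?_⟩
      ring
    have hb := bound hm hn hdet hgT' hw
    rw [hsw] at hb
    have h1 : τ * |gr V B E 0 w| ≤ |E - lapR n 0 - V 0| * |gr V B E 0 w| :=
      mul_le_mul_of_nonneg_right hκ.le (abs_nonneg _)
    -- the two terms against `τ * exp (-(m - ε) L)`
    set G : ℝ := Real.exp (-(m - ε) * L) with hG
    have hGpos : 0 < G := Real.exp_pos _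
    have h3 : Real.exp (-m * L) ≤ τ * G * Real.exp (-(ε / 8) * L) := by
      rw [hτ, hG, ← Real.exp_add, ← Real.exp_add, Real.exp_le_exp]
      nlinarith
    have h4 : T * Real.exp (-m * L) ≤ τ * G * Real.exp (-(ε / 8) * L) := by
      rw [hT, hτ, hG, ← Real.exp_add, ← Real.exp_add, ← Real.exp_add, Real.exp_le_exp]
      nlinarith
    have h5 : C * Real.exp (-m * L) +
        (2 * L + 1) ^ d * (T * (2 * d * (C * Real.exp (-m * L)))) ≤ τ * G := by
      have hpos : (1 : ℝ) ≤ (2 * (L : ℝ) + 1) ^ d := by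
        apply one_le_pow₀
        linarith
      have h6 : (2 * (L : ℝ) + 1) ^ d ≤ (2 * (L : ℝ) + 1) ^ (2 * d) := by
        apply pow_le_pow_right₀
        · linarith
        · omega
      have h7 : Real.exp (-(ε / 8) * L) =
          Real.exp (-(ε / 16) * L) * Real.exp (-(ε / 16) * L) := by
        rw [← Real.exp_add]
        congr 1
        ring
      have h8 : (2 * (L : ℝ) + 1) ^ d * Real.exp (-(ε / 8) * L) ≤
          Q * Real.exp (-(ε / 16) * L) := by
        rw [h7, ← mul_assoc]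
        apply mul_le_mul_of_nonneg_right _ (Real.exp_pos _).le
        exact (mul_le_mul_of_nonneg_right h6 (Real.exp_pos _).le).trans (hpow L)
      calc C * Real.exp (-m * L) +
          (2 * L + 1) ^ d * (T * (2 * d * (C * Real.exp (-m * L))))
          = C * Real.exp (-m * L) +
          2 * d * C * ((2 * L + 1) ^ d * (T * Real.exp (-m * L))) := by ring
        _ ≤ C * (τ * G * Real.exp (-(ε / 8) * L)) +
          2 * d * C * ((2 * L + 1) ^ d * (τ * G * Real.exp (-(ε / 8) * L))) := by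
          apply add_le_add
          · exact mul_le_mul_of_nonneg_left h3 hC
          · apply mul_le_mul_of_nonneg_left _ (by positivity)
            exact mul_le_mul_of_nonneg_left h4 (by positivity)
        _ ≤ C * ((2 * L + 1) ^ d * (τ * G * Real.exp (-(ε / 8) * L))) +
          2 * d * C * ((2 * L + 1) ^ d * (τ * G * Real.exp (-(ε / 8) * L))) := by
          apply add_le_add _ le_rfl
          apply mul_le_mul_of_nonneg_left _ hC
          exact le_mul_of_one_le_left (by positivity) hpos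
        _ = (τ * G) * ((C + 2 * d * C) * ((2 * (L : ℝ) + 1) ^ d * Real.exp (-(ε / 8) * L))) := by
          ring
        _ ≤ (τ * G) * ((C + 2 * d * C) * (Q * Real.exp (-(ε / 16) * L))) := by
          apply mul_le_mul_of_nonneg_left _ (by positivity)
          exact mul_le_mul_of_nonneg_left h8 (by positivity)
        _ ≤ (τ * G) * 1 := by
          apply mul_le_mul_of_nonneg_left _ (by positivity)
          rw [abs_of_nonneg hC] at hL2
          linarith
        _ = τ * G := mul_one _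
    have h9 : τ * |gr V B E 0 w| ≤ τ * G := h1.trans (hb.trans h5)
    exact le_of_mul_le_mul_left h9 hτpos
  refine (measure_mono hsub).trans ?_
  -- the three probabilities
  have hN1 : PP d ν {V | (RM V B E).det = 0} = 0 := by
    have h1 : Pool.Agent.Mob.H75.Loc {V : Site d → ℝ | (RM V B E).det = 0} B := by
      intro V V' h
      rw [Set.mem_ofPred_eq, Set.mem_ofPred_eq, RM_congr h]
    exact le_antisymm ((Pool.Agent.Mob.H75.PP_le_PL h1).trans (PL_det hν B B le_rfl E).le) zero_le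
  have hN2 : ∀ x y, PP d ν {V | T < |gr V B E x y|} ≤ ENNReal.ofReal (6 * ρ / T) := by
    intro x y
    have h1 : Pool.Agent.Mob.H75.Loc {V : Site d → ℝ | T < |gr V B E x y|} B := by
      intro V V' h
      rw [Set.mem_ofPred_eq, Set.mem_ofPred_eq, gr_congr h]
    exact (Pool.Agent.Mob.H75.PP_le_PL h1).trans (PL_weak hν B E x y hTpos)
  have hN3 : PP d ν (Near C m E τ) ≤ ENNReal.ofReal (ρ * (2 * τ)) := prob_Near hclo hν hm
  have hcB : (B.card : ℝ) = (2 * L + 1) ^ d := by
    rw [hB, card_box]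
    push_cast
    rfl
  have hU2 : PP d ν (⋃ x ∈ B, ⋃ y ∈ B, {V | T < |gr V B E x y|}) ≤
      ENNReal.ofReal ((2 * L + 1) ^ (2 * d) * (6 * ρ / T)) := by
    calc PP d ν (⋃ x ∈ B, ⋃ y ∈ B, {V | T < |gr V B E x y|})
        ≤ ∑ x ∈ B, ∑ y ∈ B, PP d ν {V | T < |gr V B E x y|} := by
          refine (measure_biUnion_finset_le _ _).trans ?_
          exact Finset.sum_le_sum fun x _ => measure_biUnion_finset_le _ _
      _ ≤ ∑ _x ∈ B, ∑ _y ∈ B, ENNReal.ofReal (6 * ρ / T) :=
          Finset.sum_le_sum fun x _ => Finset.sum_le_sum fun y _ => hN2 x y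
      _ = ENNReal.ofReal ((2 * L + 1) ^ (2 * d) * (6 * ρ / T)) := by
          rw [Finset.sum_const, Finset.sum_const, nsmul_eq_mul, nsmul_eq_mul,
            ← ENNReal.ofReal_natCast, ← ENNReal.ofReal_mul (Nat.cast_nonneg _),
            ← ENNReal.ofReal_mul (Nat.cast_nonneg _), hcB]
          congr 1
          ring
  refine (measure_union_le _ _).trans ?_
  refine (add_le_add (measure_union_le _ _) le_rfl).trans ?_
  rw [hN1, zero_add]
  refine (add_le_add hU2 hN3).trans ?_
  rw [← ENNReal.ofReal_add (by positivity) (by positivity)]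
  apply ENNReal.ofReal_le_ofReal
  have hTi : 6 * ρ / T = 6 * ρ * τ := by
    rw [div_eq_iff hTpos.ne', mul_assoc, mul_comm τ T, hTτ, mul_one]
  have h2d : (1 : ℝ) ≤ (2 * (L : ℝ) + 1) ^ (2 * d) := by
    apply one_le_pow₀
    linarith
  have h7 : τ ≤ Real.exp (-(ε / 16) * L) * Real.exp (-(ε / 16) * L) := by
    rw [hτ, ← Real.exp_add, Real.exp_le_exp]
    nlinarith
  calc (2 * (L : ℝ) + 1) ^ (2 * d) * (6 * ρ / T) + ρ * (2 * τ)
      ≤ (2 * (L : ℝ) + 1) ^ (2 * d) * (6 * ρ * τ) +
        (2 * (L : ℝ) + 1) ^ (2 * d) * (ρ * (2 * τ)) := by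
        rw [hTi]
        apply add_le_add le_rfl
        exact le_mul_of_one_le_left (by positivity) h2d
    _ = 8 * ρ * (2 * (L : ℝ) + 1) ^ (2 * d) * τ := by ring
    _ ≤ 8 * ρ * (2 * (L : ℝ) + 1) ^ (2 * d) *
        (Real.exp (-(ε / 16) * L) * Real.exp (-(ε / 16) * L)) :=
        mul_le_mul_of_nonneg_left h7 (by positivity)
    _ = 8 * ρ * (((2 * (L : ℝ) + 1) ^ (2 * d) * Real.exp (-(ε / 16) * L)) *
        Real.exp (-(ε / 16) * L)) := by ring
    _ ≤ 8 * ρ * (Q * Real.exp (-(ε / 16) * L)) := by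
        apply mul_le_mul_of_nonneg_left _ (by positivity)
        exact mul_le_mul_of_nonneg_right (hpow L) (Real.exp_pos _).le
    _ = 8 * ρ * Q * Real.exp (-(ε / 16) * L) := by ring
    _ ≤ p := hL1

theorem rsx_of (hclo : CloStmt) : RsxStmt := by
  intro d σ E C m ε _ hσ hm hε hne
  set P := PP d (gl σ) {V | GoodE C m V E} with hP
  have hPtop : P ≠ ⊤ := measure_ne_top _ _
  set δ : ℝ := P.toReal / 2 with hδ
  have hPpos : 0 < P.toReal := ENNReal.toReal_pos hne hPtop
  have hδpos : 0 < δ := by positivity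
  obtain ⟨L₀, hL₀⟩ := rsx_prob (d := d) hclo (bddDens_gl hσ) (C := C) (m := m) (E := E) hm hε
    hδpos
  refine ⟨δ, hδpos, L₀, fun L hL => ?_⟩
  have h1 := hL₀ L hL
  have h2 : P ≤ PP d (gl σ) {V | SG V L (m - ε) E 0} +
      PP d (gl σ) {V | GoodE C m V E ∧ ¬ SG V L (m - ε) E 0} := by
    rw [hP]
    refine (measure_mono ?_).trans (measure_union_le _ _)
    intro V hV
    by_cases h : SG V L (m - ε) E 0
    · exact Or.inl h
    · exact Or.inr ⟨hV, h⟩
  have h3 : P = ENNReal.ofReal δ + ENNReal.ofReal δ := by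
    rw [← ENNReal.ofReal_add hδpos.le hδpos.le, hδ, add_halves, ENNReal.ofReal_toReal hPtop]
  have h4 : ENNReal.ofReal δ + ENNReal.ofReal δ ≤ PP d (gl σ) {V | SG V L (m - ε) E 0} +
      ENNReal.ofReal δ := by
    rw [← h3]
    exact h2.trans (add_le_add le_rfl h1)
  exact (ENNReal.add_le_add_iff_right ENNReal.ofReal_ne_top).1 h4

theorem rsx : RsxStmt := rsx_of Pool.Agent.LE.H77.clo

end Pool.Agent.LE.H59R
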