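import Pool.Agent.LE.StmtsR
import Pool.Agent.Helper42_LE.Msd

/-!
# SMD: the sharp deterministic step of the multiscale induction
-/

set_option autoImplicit false

open MeasureTheory ProbabilityTheory Function

open scoped ENNReal BigOperators

noncomputable section

namespace Pool.Agent.LE.H59S

open Pool.Agent.Anderson Pool.Agent.Loc Pool.Agent.Mob

variable {d : ℕ}

/-- a maximal separated family -/
theorem exists_net (S : Finset (Site d)) (R : ℕ) :
    ∃ F : Finset (Site d), F ⊆ S ∧ (∀ v ∈ F, ∀ v' ∈ F, v ≠ v' → R < sd v v') ∧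
      ∀ w ∈ S, ∃ v ∈ F, sd v w ≤ R := by
  classical
  set P := S.powerset.filter fun F => ∀ v ∈ F, ∀ v' ∈ F, v ≠ v' → R < sd v v' with hP
  have hne : P.Nonempty := ⟨∅, by simp [hP]⟩
  obtain ⟨F, hF, hmax⟩ := Finset.exists_max_image P Finset.card hne
  rw [hP, Finset.mem_filter, Finset.mem_powerset] at hF
  refine ⟨F, hF.1, hF.2, fun w hw => ?_⟩
  by_contra hc
  push Not at hc
  have hwF : w ∉ F := by
    intro h
    have := hc w h
    rw [sd_self] at this
    omega
  have hmem : insert w F ∈ P := by
    rw [hP, Finset.mem_filter, Finset.mem_powerset]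
    refine ⟨Finset.insert_subset hw hF.1, ?_⟩
    intro v hv v' hv' hne'
    rw [Finset.mem_insert] at hv hv'
    rcases hv with rfl | hv <;> rcases hv' with rfl | hv'
    · exact absurd rfl hne'
    · rw [sd_comm]
      exact hc v' hv'
    · exact hc v hv
    · exact hF.2 v hv v' hv' hne'
  have h1 := hmax _ hmem
  rw [Finset.card_insert_of_notMem hwF] at h1
  omega

theorem smd : SmdStmt := by
  classical
  intro d V E m T q L M N n s u hL hN hT hq hqq hTq hregM hreg hcl hnM hsu
  set Λ : Finset (Site d) := box s M with hΛ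
  have hL' : (1 : ℝ) ≤ L := by exact_mod_cast hL
  have hN' : (1 : ℝ) ≤ N := by exact_mod_cast hN
  have hNL : 1 ≤ N * L := Nat.mul_pos hN hL
  have hLNL : L ≤ N * L := Nat.le_mul_of_pos_left L hN
  have hNNL : N * L ≤ N ^ 2 * L := by
    rw [pow_two, mul_assoc]
    exact Nat.le_mul_of_pos_left _ hN
  have hq0 : 0 ≤ q := le_trans (by positivity) hqq
  set f : Site d → ℝ := fun v => |gr V Λ E v u| with hf
  have hf0 : ∀ v, 0 ≤ f v := fun v => abs_nonneg _
  have hfT : ∀ v, f v ≤ T := fun v => hregM.2 v u
  -- the good step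
  have hgood : ∀ v, SG V L m E v → sd s v + L + 1 ≤ M → ∀ w : ℝ, 0 ≤ w →
      (∀ v', sd v v' ≤ L + 1 → f v' ≤ w) → f v ≤ q * w := by
    intro v hv hvM w hw hW
    have hA : box v L ⊆ Λ := by
      intro z hz
      rw [mem_box] at hz
      rw [hΛ, mem_box]
      have := sd_triangle s v z
      omega
    have huA : u ∈ Λ \ box v L := by
      rw [Finset.mem_sdiff, hΛ, mem_box, mem_box, hsu]
      refine ⟨le_rfl, fun hc => ?_⟩
      have := sd_triangle s v u
      omega
    have key := H42.geo_bound (α := Real.exp (-m * L)) (β := w) hA hregM.1 hv.1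
      (mem_box.2 (by rw [sd_self]; omega)) huA (by positivity) hw (by
        intro b hb b' hb' hne
        have h8 := sd_of_hop hne
        rw [mem_box] at hb
        rw [Finset.mem_sdiff, hΛ, mem_box, mem_box] at hb'
        have h9 := sd_triangle v b b'
        refine ⟨hv.2 b (by omega), hW b' (by omega)⟩)
    have hcard : ((box v L).card : ℝ) ≤ (3 * L) ^ d := by
      rw [card_box]
      push_cast
      gcongr
      linarith
    calc f v ≤ Real.exp (-m * L) * (2 * d * (box v L).card) * w := key
      _ ≤ Real.exp (-m * L) * (2 * d * (3 * L) ^ d) * w := by gcongr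
      _ = (2 * d * (3 * L) ^ d * Real.exp (-m * L)) * w := by ring
      _ ≤ q * w := by gcongr
  -- the bad sites and a maximal separated family
  set S : Finset (Site d) := Λ.filter fun v => ¬ SG V L m E v with hS
  obtain ⟨F, hFS, hFsep, hFnet⟩ := exists_net S (6 * L)
  have hFN : F.card ≤ N := by
    apply hcl F _ hFsep
    intro v hv
    have := hFS hv
    rw [hS, Finset.mem_filter] at this
    exact this
  -- a sphere without bad sites
  have hsph : ∀ v : Site d, ∃ ρ : ℕ, ρ ≤ 13 * N * L ∧
      ∀ b' ∈ Λ, sd v b' = ρ + 1 → SG V L m E b' := by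
    intro v
    by_contra hc
    push Not at hc
    have hsub : (Finset.range (13 * N * L + 1)).image (fun ρ => ρ + 1) ⊆
        F.biUnion fun a => Finset.Icc (sd v a - 6 * L) (sd v a + 6 * L) := by
      intro k hk
      rw [Finset.mem_image] at hk
      obtain ⟨ρ, hρ, rfl⟩ := hk
      rw [Finset.mem_range] at hρ
      obtain ⟨b', hb', hsd, hbad⟩ := hc ρ (by omega)
      obtain ⟨a, haF, ha⟩ := hFnet b' (by
        rw [hS, Finset.mem_filter]
        exact ⟨hb', hbad⟩)
      rw [Finset.mem_biUnion]
      refine ⟨a, haF, ?_⟩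
      rw [Finset.mem_Icc]
      have h1 := sd_triangle v a b'
      have h2 := sd_triangle v b' a
      rw [sd_comm b' a] at h2
      omega
    have h1 := Finset.card_le_card hsub
    rw [Finset.card_image_of_injective _ (fun a b h => by simpa using h),
      Finset.card_range] at h1
    have h2 : (F.biUnion fun a => Finset.Icc (sd v a - 6 * L) (sd v a + 6 * L)).card ≤
        F.card * (12 * L + 1) := by
      apply Finset.card_biUnion_le_card_mul
      intro a _
      rw [Nat.card_Icc]
      omega
    have h3 : F.card * (12 * L + 1) ≤ N * (12 * L + 1) := Nat.mul_le_mul_right _ hFN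
    have h4 : N * (12 * L + 1) ≤ 13 * N * L := by
      have : N * (12 * L + 1) ≤ N * (13 * L) := Nat.mul_le_mul_left N (by omega)
      calc N * (12 * L + 1) ≤ N * (13 * L) := this
        _ = 13 * N * L := by ring
    omega
  -- the bad step
  have hbadst : ∀ v, sd s v + 16 * N * L + 1 ≤ M → ∀ w : ℝ, 0 ≤ w →
      (∀ v', sd v v' ≤ 16 * N * L → f v' ≤ w) → f v ≤ 1 / 2 * w := by
    intro v hvM w hw hW
    obtain ⟨ρ, hρ, hρg⟩ := hsph v
    have e13 : 13 * N * L = 13 * (N * L) := by ring
    have e16 : 16 * N * L = 16 * (N * L) := by ring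
    rw [e13] at hρ
    rw [e16] at hvM hW
    have hvΛ : v ∈ box s M := mem_box.2 (by omega)
    have hA : box v ρ ⊆ Λ := by
      intro z hz
      rw [mem_box] at hz
      rw [hΛ, mem_box]
      have := sd_triangle s v z
      omega
    have huA : u ∈ Λ \ box v ρ := by
      rw [Finset.mem_sdiff, hΛ, mem_box, mem_box, hsu]
      refine ⟨le_rfl, fun hc => ?_⟩
      have := sd_triangle s v u
      omega
    have hρr := hreg v hvΛ ρ (by rw [e16]; omega)
    have key := H42.geo_bound (α := T) (β := q * w) hA hregM.1 hρr.1
      (mem_box.2 (by rw [sd_self]; omega)) huA hT (by positivity) (by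
        intro b hb b' hb' hne
        refine ⟨hρr.2 v b, ?_⟩
        have h8 := sd_of_hop hne
        rw [mem_box] at hb
        rw [Finset.mem_sdiff, hΛ, mem_box, mem_box] at hb'
        have h9 := sd_triangle v b b'
        have h10 : sd v b' = ρ + 1 := by omega
        have h11 := hρg b' (mem_box.2 hb'.1) h10
        have h12 := sd_triangle s v b'
        apply hgood b' h11 (by omega) w hw
        intro v' hv'
        apply hW
        have h13 := sd_triangle v b' v'
        omega)
    have hcard : ((box v ρ).card : ℝ) ≤ (33 * N * L) ^ d := by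
      rw [card_box]
      push_cast
      have h1 : (ρ : ℝ) ≤ 13 * (N * L) := by exact_mod_cast hρ
      have h2 : (1 : ℝ) ≤ N * L := by exact_mod_cast hNL
      gcongr
      nlinarith
    calc f v ≤ T * (2 * d * (box v ρ).card) * (q * w) := key
      _ ≤ T * (2 * d * (33 * N * L) ^ d) * (q * w) := by gcongr
      _ = T * (2 * d * (33 * N * L) ^ d) * q * w := by ring
      _ ≤ 1 / 2 * w := by gcongr
  -- the maxima
  have hne : ∀ r : ℕ, (box s r).Nonempty := fun r => ⟨s, mem_box.2 (by rw [sd_self]; omega)⟩
  set W : ℕ → ℝ := fun r => (box s r).sup' (hne r) f with hW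
  have hWle : ∀ r v, sd s v ≤ r → f v ≤ W r := fun r v hv =>
    Finset.le_sup' f (mem_box.2 hv)
  have hW0 : ∀ r, 0 ≤ W r := fun r => (hf0 s).trans (hWle r s (by rw [sd_self]; omega))
  have hWT : ∀ r, W r ≤ T := fun r => Finset.sup'_le _ _ fun v _ => hfT v
  have hWmono : ∀ r r', r ≤ r' → W r ≤ W r' := by
    intro r r' h
    apply Finset.sup'_le
    intro v hv
    exact hWle r' v ((mem_box.1 hv).trans h)
  -- clean radii
  have hclean : ∀ r : ℕ, (∀ w ∈ S, sd s w ≤ r → sd s w + 16 * N * L ≤ r) →
      r + 16 * N * L + 1 ≤ M → W r ≤ q * W (r + L + 1) := by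
    intro r hr hrM
    have e16 : 16 * N * L = 16 * (N * L) := by ring
    obtain ⟨v, hv, hvW⟩ := Finset.exists_mem_eq_sup' (hne r) f
    rw [mem_box] at hv
    have hvW' : W r = f v := hvW
    by_cases hg : SG V L m E v
    · rw [hvW']
      apply hgood v hg (by omega) _ (hW0 _)
      intro v' hv'
      apply hWle
      have := sd_triangle s v v'
      omega
    · have h1 := hr v (by
        rw [hS, Finset.mem_filter, hΛ, mem_box]
        exact ⟨by omega, hg⟩) hv
      have h2 : f v ≤ 1 / 2 * W r := by
        apply hbadst v (by omega) _ (hW0 _)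
        intro v' hv'
        apply hWle
        have := sd_triangle s v v'
        omega
      rw [← hvW'] at h2
      have h3 : W r ≤ 0 := by linarith
      exact h3.trans (mul_nonneg hq0 (hW0 _))
  -- the number of the radii which are not clean
  set U : Finset ℕ := (Finset.range M).filter fun r =>
    ∃ w ∈ S, sd s w ≤ r ∧ r < sd s w + 16 * N * L with hU
  have hUcard : U.card ≤ 28 * N ^ 2 * L := by
    have hsub : U ⊆ F.biUnion fun a =>
        Finset.Ico (sd s a - 6 * L) (sd s a + 6 * L + 16 * N * L) := by
      intro r hr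
      rw [hU, Finset.mem_filter] at hr
      obtain ⟨_, w, hw, h1, h2⟩ := hr
      obtain ⟨a, haF, ha⟩ := hFnet w hw
      rw [Finset.mem_biUnion]
      refine ⟨a, haF, ?_⟩
      rw [Finset.mem_Ico]
      have h3 := sd_triangle s a w
      have h4 := sd_triangle s w a
      rw [sd_comm w a] at h4
      omega
    have h1 := Finset.card_le_card hsub
    have h2 : (F.biUnion fun a =>
        Finset.Ico (sd s a - 6 * L) (sd s a + 6 * L + 16 * N * L)).card ≤
        F.card * (12 * L + 16 * N * L) := by
      apply Finset.card_biUnion_le_card_mul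
      intro a _
      rw [Nat.card_Ico]
      omega
    have h3 : F.card * (12 * L + 16 * N * L) ≤ N * (12 * L + 16 * N * L) :=
      Nat.mul_le_mul_right _ hFN
    have h4 : N * (12 * L + 16 * N * L) = 12 * (N * L) + 16 * (N ^ 2 * L) := by ring
    have h5 : 28 * N ^ 2 * L = 28 * (N ^ 2 * L) := by ring
    omega
  set c : ℕ → ℕ := fun r => (U.filter fun i => r ≤ i).card with hc
  have hcmono : ∀ r r', r ≤ r' → c r' ≤ c r := by
    intro r r' h
    apply Finset.card_le_card
    intro i hi
    rw [Finset.mem_filter] at hi ⊢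
    exact ⟨hi.1, h.trans hi.2⟩
  have hcs : ∀ r, r ∈ U → c (r + 1) + 1 ≤ c r := by
    intro r hr
    have h1 : insert r (U.filter fun i => r + 1 ≤ i) ⊆ U.filter fun i => r ≤ i := by
      intro i hi
      rw [Finset.mem_insert] at hi
      rw [Finset.mem_filter]
      rcases hi with rfl | hi
      · exact ⟨hr, le_rfl⟩
      · rw [Finset.mem_filter] at hi
        exact ⟨hi.1, by omega⟩
    have h2 := Finset.card_le_card h1
    rw [Finset.card_insert_of_notMem (by
      rw [Finset.mem_filter]
      omega)] at h2
    exact h2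
  -- the induction
  have main : ∀ (k r n : ℕ), M - r ≤ k → r + n * (L + 1) + c r + 16 * N * L + 1 ≤ M →
      W r ≤ q ^ n * T := by
    intro k
    induction k with
    | zero =>
      intro r n h1 h2
      omega
    | succ k ih =>
      intro r n h1 h2
      cases n with
      | zero =>
        rw [pow_zero, one_mul]
        exact hWT r
      | succ n =>
        by_cases hr : r ∈ U
        · have h3 := hcs r hr
          have h4 := ih (r + 1) (n + 1) (by omega) (by omega)
          exact (hWmono r (r + 1) (by omega)).trans h4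
        · have e1 : (n + 1) * (L + 1) = n * (L + 1) + (L + 1) := by ring
          have h3 := hcmono r (r + L + 1) (by omega)
          have h4 := ih (r + L + 1) n (by omega) (by omega)
          have h5 : W r ≤ q * W (r + L + 1) := by
            apply hclean r _ (by omega)
            intro w hw hwr
            by_contra hlt
            apply hr
            rw [hU, Finset.mem_filter, Finset.mem_range]
            exact ⟨by omega, w, hw, hwr, by omega⟩
          calc W r ≤ q * W (r + L + 1) := h5
            _ ≤ q * (q ^ n * T) := mul_le_mul_of_nonneg_left h4 hq0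
            _ = q ^ (n + 1) * T := by ring
  have hc0 : c 0 ≤ 28 * N ^ 2 * L := (Finset.card_le_card (Finset.filter_subset _ _)).trans hUcard
  have hfin := main M 0 n (by omega) (by
    have e1 : 28 * N ^ 2 * L = 28 * (N ^ 2 * L) := by ring
    have e2 : 45 * N ^ 2 * L = 45 * (N ^ 2 * L) := by ring
    have e3 : 16 * N * L = 16 * (N * L) := by ring
    omega)
  exact (hWle 0 s (by rw [sd_self])).trans hfin

end Pool.Agent.LE.H59S
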