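import Pool.Agent.LE.Stmts3
import Pool.Agent.Helper96_EXP.Cvr
import Pool.Agent.Helper42_LE.Tol
import Pool.Agent.Helper6_Mob.Sep

/-!
# MSP: the probability step of the multiscale induction
-/

set_option autoImplicit false

open MeasureTheory ProbabilityTheory Function

open scoped ENNReal BigOperators

noncomputable section

namespace Pool.Agent.LE.H59

open Pool.Agent.Anderson Pool.Agent.Loc Pool.Agent.Helper54.Bal Pool.Agent.Helper96.EXP
  Pool.Agent.LE.H42 Pool.Agent.LE.H96

variable {d : ℕ}

/-! ### translations of the event -/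

theorem allGood_tau (V : Site d → ℝ) (a : Site d) (L : ℕ) (m E : ℝ) :
    AllGoodC V a L m E ↔ AllGoodC (tau a V) 0 L m E := by
  constructor
  · intro h s hs
    have hs' : s + a ∈ box a L := by
      have := (mem_box_add 0 a L s).1 hs
      rwa [zero_add] at this
    have h1 := h (s + a) hs'
    refine ⟨?_, fun u hu => ?_⟩
    · rw [det_tau V a (mem_box_add s a L)]
      exact h1.1
    · rw [gr_tau V a (mem_box_add s a L)]
      apply h1.2
      rw [sd_add]
      exact hu
  · intro h s hs
    have hs' : s - a ∈ box 0 L := by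
      rw [mem_box_add 0 a L, zero_add, sub_add_cancel]
      exact hs
    have h1 := h (s - a) hs'
    rw [det_tau V a (mem_box_add (s - a) a L), sub_add_cancel] at h1
    refine ⟨h1.1, fun u hu => ?_⟩
    have h2 := h1.2 (u - a) (by rw [← sd_add _ _ a, sub_add_cancel, sub_add_cancel]; exact hu)
    rw [gr_tau V a (mem_box_add (s - a) a L), sub_add_cancel, sub_add_cancel] at h2
    exact h2

theorem measurable_allGood (a : Site d) (L : ℕ) (m E : ℝ) :
    MeasurableSet {V : Site d → ℝ | AllGoodC V a L m E} := by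
  have h1 : {V : Site d → ℝ | AllGoodC V a L m E} =
      tau a ⁻¹' {V : Site d → ℝ | AllGoodC V 0 L m E} := by
    ext V
    exact allGood_tau V a L m E
  rw [h1]
  exact (shiftInv_PP (d := d) (μ := Measure.dirac 0) a).measurable (measurableSet_allGood L m E)

theorem allGood_congr' (a : Site d) (L : ℕ) (m E : ℝ) {V V' : Site d → ℝ}
    (h : ∀ x ∈ box a (2 * L), V x = V' x) :
    AllGoodC V a L m E ↔ AllGoodC V' a L m E := by
  rw [allGood_tau V, allGood_tau V']
  apply allGood_congr
  intro x hx
  unfold tau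
  apply h
  have := (mem_box_add 0 a (2 * L) x).1 hx
  rwa [zero_add] at this

theorem prob_allGood {ν : Measure ℝ} [IsProbabilityMeasure ν] (a : Site d) (L : ℕ) (m E : ℝ) :
    PP d ν {V | ¬ AllGoodC V a L m E} = PP d ν {V | ¬ AllGoodC V 0 L m E} := by
  have h1 : {V : Site d → ℝ | ¬ AllGoodC V a L m E} =
      tau a ⁻¹' {V : Site d → ℝ | ¬ AllGoodC V 0 L m E} := by
    ext V
    exact not_congr (allGood_tau V a L m E)
  rw [h1]
  exact (shiftInv_PP (d := d) (μ := ν) a).measure_preimage
    (measurableSet_allGood L m E).compl.nullMeasurableSet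

/-! ### cells -/

theorem sd_pt_le {n c : ℕ} (hn : 1 ≤ n) {k k' : Site d}
    (h : sd (pt n k) (pt n k') ≤ c * n) : sd k k' ≤ c := by
  rw [sd_le_iff] at h ⊢
  intro i
  have h1 := h i
  unfold pt at h1
  rw [← mul_sub, abs_mul, Nat.abs_cast] at h1
  push_cast at h1
  have hn' : (0 : ℤ) < n := by exact_mod_cast hn
  have h2 : (n : ℤ) * |k i - k' i| ≤ n * c := by linarith
  exact le_of_mul_le_mul_left h2 hn'

theorem sd_pt_le' {n c : ℕ} {k k' : Site d} (h : sd k k' ≤ c) :
    sd (pt n k) (pt n k') ≤ c * n := by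
  rw [sd_le_iff] at h ⊢
  intro i
  have h1 := h i
  unfold pt
  rw [← mul_sub, abs_mul, Nat.abs_cast]
  push_cast
  rw [mul_comm]
  exact mul_le_mul_of_nonneg_right h1 (by positivity)

theorem prob_pair {ν : Measure ℝ} [IsProbabilityMeasure ν] {L : ℕ} {m E p : ℝ} (hL : 1 ≤ L)
    (hp0 : 0 ≤ p) (hp : PP d ν {V | ¬ AllGoodC V 0 L m E} ≤ ENNReal.ofReal p) {k k' : Site d}
    (hk : 5 ≤ sd k k') :
    PP d ν ({V | ¬ AllGoodC V (pt L k) L m E} ∩ {V | ¬ AllGoodC V (pt L k') L m E}) ≤
      ENNReal.ofReal (p ^ 2) := by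
  have hdis : Disjoint (box (pt L k) (2 * L)) (box (pt L k') (2 * L)) := by
    rw [Finset.disjoint_left]
    intro x hx hx'
    rw [mem_box] at hx hx'
    have h1 := sd_triangle (pt L k) x (pt L k')
    rw [sd_comm x] at h1
    have h2 : sd k k' ≤ 4 := sd_pt_le (n := L) hL (by omega)
    omega
  have h1 := Pool.Agent.Mob.H6.PP_inter ν hdis
    (S := {V : Site d → ℝ | ¬ AllGoodC V (pt L k) L m E})
    (T := {V : Site d → ℝ | ¬ AllGoodC V (pt L k') L m E})
    (measurable_allGood _ L m E).compl (measurable_allGood _ L m E).compl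
    (fun W W' hW => not_congr (allGood_congr' _ L m E hW))
    (fun W W' hW => not_congr (allGood_congr' _ L m E hW))
  rw [h1, prob_allGood (pt L k), prob_allGood (pt L k'), sq, ENNReal.ofReal_mul hp0]
  exact mul_le_mul' hp hp

/-! ### the step -/

theorem msp (hmsd : MsdStmt) : MspStmt := by
  intro d ν _ ρ hν E m p L hL hm hp0 hsmall hp
  classical
  have hρ := hν.1
  set T : ℝ := Real.exp (m * L / 4) with hT
  set q : ℝ := Real.exp (-(m * L) / 2) with hq
  have hTpos : 0 < T := Real.exp_pos _
  have hLr : (1 : ℝ) ≤ L := by exact_mod_cast hL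
  have hq1 : q ≤ 1 := by
    rw [hq, Real.exp_le_one_iff]
    have : 0 ≤ m * L := by positivity
    linarith
  have hTi : 6 * ρ / T = 6 * ρ * Real.exp (-(m * L) / 4) := by
    rw [div_eq_mul_inv, hT, ← Real.exp_neg]
    congr 2
    ring
  have hTq : q ^ 13 * T ≤ Real.exp (-(m / 13) * ((52 * L : ℕ) : ℝ)) := by
    rw [hq, hT, ← Real.exp_nat_mul, ← Real.exp_add, Real.exp_le_exp]
    push_cast
    have : 0 ≤ m * L := by positivity
    linarith
  have hcond : T * (2 * d * (105 * L) ^ d) * (2 * d * (3 * L) ^ d * Real.exp (-m * L)) ≤ q := by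
    have e1 : T * Real.exp (-m * L) = Real.exp (-(m * L) / 4) * q := by
      rw [hT, hq, ← Real.exp_add, ← Real.exp_add]
      congr 1
      ring
    have e2 : (3 * (L : ℝ)) ^ d ≤ (105 * (L : ℝ)) ^ d := by
      apply pow_le_pow_left₀ (by positivity)
      linarith
    calc T * (2 * d * (105 * L) ^ d) * (2 * d * (3 * L) ^ d * Real.exp (-m * L))
        = (2 * d) ^ 2 * ((105 * L) ^ d * (3 * L) ^ d) * (T * Real.exp (-m * L)) := by ring
      _ ≤ (2 * d) ^ 2 * ((105 * L) ^ d * (105 * L) ^ d) * (T * Real.exp (-m * L)) := by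
        gcongr
      _ = ((2 * d) ^ 2 * (105 * L) ^ (2 * d) * Real.exp (-(m * L) / 4)) * q := by
        rw [e1]
        ring
      _ ≤ 1 * q := mul_le_mul_of_nonneg_right hsmall (Real.exp_pos _).le
      _ = q := one_mul q
  -- the three bad events
  set I : Finset (Site d × ℕ) := box (0 : Site d) (52 * L) ×ˢ Finset.range (52 * L + 1) with hI
  set J : Finset (Site d × Site d) :=
    (box (0 : Site d) 101 ×ˢ box (0 : Site d) 101).filter fun z => 5 ≤ sd z.1 z.2 with hJ
  set N1 : Set (Site d → ℝ) := ⋃ i ∈ I, {V | (RM V (box i.1 i.2) E).det = 0} with hN1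
  set N2 : Set (Site d → ℝ) := ⋃ i ∈ I, ⋃ z ∈ box i.1 (52 * L) ×ˢ box i.1 (52 * L),
    {V | T < |gr V (box i.1 i.2) E z.1 z.2|} with hN2
  set N3 : Set (Site d → ℝ) := ⋃ z ∈ J,
    ({V | ¬ AllGoodC V (pt L z.1) L m E} ∩ {V | ¬ AllGoodC V (pt L z.2) L m E}) with hN3
  have hcB : ∀ x : Site d, ((box x (52 * L)).card : ℝ) ≤ (105 * L) ^ d := by
    intro x
    rw [card_box]
    push_cast
    apply pow_le_pow_left₀ (by positivity)
    linarith
  have hcI : (I.card : ℝ) ≤ (105 * L) ^ d * (105 * L) := by
    rw [hI, Finset.card_product, Finset.card_range]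
    push_cast
    apply mul_le_mul (hcB 0) _ (by positivity) (by positivity)
    linarith
  have hcJ : (J.card : ℝ) ≤ 209 ^ (2 * d) := by
    have h1 : J.card ≤ 209 ^ (2 * d) := by
      calc J.card ≤ (box (0 : Site d) 101 ×ˢ box (0 : Site d) 101).card :=
            Finset.card_filter_le _ _
        _ = 203 ^ (2 * d) := by
            rw [Finset.card_product, card_box]
            ring
        _ ≤ 209 ^ (2 * d) := Nat.pow_le_pow_left (by norm_num) _
    exact_mod_cast h1
  have p1 : PP d ν N1 ≤ ENNReal.ofReal 0 := by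
    apply union_le (q := 0)
    · intro i _
      have h1 : Pool.Agent.Mob.H75.Loc {V : Site d → ℝ | (RM V (box i.1 i.2) E).det = 0}
          (box i.1 i.2) := by
        intro V V' h
        rw [Set.mem_ofPred_eq, Set.mem_ofPred_eq, RM_congr h]
      rw [ENNReal.ofReal_zero]
      exact (Pool.Agent.Mob.H75.PP_le_PL h1).trans (PL_det hν _ _ le_rfl E).le
    · rw [mul_zero]
  have p2 : PP d ν N2 ≤ ENNReal.ofReal (6 * ρ * (105 * L) ^ (3 * d + 1) *
      Real.exp (-(m * L) / 4)) := by
    apply union_le (q := (105 * L) ^ (2 * d) * (6 * ρ / T))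
    · intro i _
      apply union_le (q := 6 * ρ / T)
      · intro z _
        have h1 : Pool.Agent.Mob.H75.Loc
            {V : Site d → ℝ | T < |gr V (box i.1 i.2) E z.1 z.2|} (box i.1 i.2) := by
          intro V V' h
          rw [Set.mem_ofPred_eq, Set.mem_ofPred_eq, gr_congr h]
        exact (Pool.Agent.Mob.H75.PP_le_PL h1).trans (PL_weak hν _ E z.1 z.2 hTpos)
      · apply mul_le_mul_of_nonneg_right _ (by positivity)
        rw [Finset.card_product]
        push_cast
        calc ((box i.1 (52 * L)).card : ℝ) * ((box i.1 (52 * L)).card : ℝ)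
            ≤ (105 * L) ^ d * (105 * L) ^ d :=
              mul_le_mul (hcB _) (hcB _) (by positivity) (by positivity)
          _ = (105 * L) ^ (2 * d) := by ring
    · calc (I.card : ℝ) * ((105 * L) ^ (2 * d) * (6 * ρ / T))
          ≤ ((105 * L) ^ d * (105 * L)) * ((105 * L) ^ (2 * d) * (6 * ρ / T)) :=
            mul_le_mul_of_nonneg_right hcI (by positivity)
        _ = 6 * ρ * (105 * L) ^ (3 * d + 1) * Real.exp (-(m * L) / 4) := by
            rw [hTi]
            ring
  have p3 : PP d ν N3 ≤ ENNReal.ofReal (209 ^ (2 * d) * p ^ 2) := by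
    apply union_le (q := p ^ 2)
    · intro z hz
      rw [hJ, Finset.mem_filter] at hz
      exact prob_pair hL hp0 hp hz.2
    · exact mul_le_mul_of_nonneg_right hcJ (by positivity)
  -- the inclusion
  have hincl : {V : Site d → ℝ | ¬ AllGoodC V 0 (52 * L) (m / 13) E} ⊆ N3 ∪ (N2 ∪ N1) := by
    intro V hV
    by_contra hcon
    simp only [Set.mem_union, not_or] at hcon
    obtain ⟨c3, c2, c1⟩ := hcon
    apply hV
    have hdet : ∀ s ∈ box (0 : Site d) (52 * L), ∀ r, r ≤ 52 * L →
        (RM V (box s r) E).det ≠ 0 := by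
      intro s hs r hr h0
      apply c1
      rw [hN1]
      simp only [Set.mem_iUnion, exists_prop]
      refine ⟨(s, r), ?_, h0⟩
      rw [hI, Finset.mem_product, Finset.mem_range]
      exact ⟨hs, by simp only; omega⟩
    have hgr : ∀ s ∈ box (0 : Site d) (52 * L), ∀ r, r ≤ 52 * L → ∀ x y,
        |gr V (box s r) E x y| ≤ T := by
      intro s hs r hr x y
      by_cases hxy : x ∈ box s r ∧ y ∈ box s r
      · by_contra h0
        rw [not_le] at h0
        apply c2
        rw [hN2]
        simp only [Set.mem_iUnion, exists_prop]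
        refine ⟨(s, r), ?_, (x, y), ?_, h0⟩
        · rw [hI, Finset.mem_product, Finset.mem_range]
          exact ⟨hs, by simp only; omega⟩
        · rw [Finset.mem_product]
          exact ⟨box_mono s hr hxy.1, box_mono s hr hxy.2⟩
      · unfold gr
        rw [dif_neg hxy, abs_zero]
        exact hTpos.le
    have hpair : ∀ v ∈ box (0 : Site d) (102 * L), ∀ v' ∈ box (0 : Site d) (102 * L),
        ¬ SG V L m E v → ¬ SG V L m E v' → sd v v' ≤ 6 * L := by
      intro v hv v' hv' hb hb'
      obtain ⟨k, hk, hkv⟩ := cover (by norm_num) hv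
      obtain ⟨k', hk', hkv'⟩ := cover (by norm_num) hv'
      have hkb : ¬ AllGoodC V (pt L k) L m E := fun h => hb (h v (mem_box.2 hkv))
      have hkb' : ¬ AllGoodC V (pt L k') L m E := fun h => hb' (h v' (mem_box.2 hkv'))
      have h4 : sd k k' ≤ 4 := by
        by_contra h5
        apply c3
        rw [hN3]
        simp only [Set.mem_iUnion, exists_prop]
        refine ⟨(k, k'), ?_, hkb, hkb'⟩
        rw [hJ, Finset.mem_filter, Finset.mem_product]
        exact ⟨⟨hk, hk'⟩, by simp only; omega⟩
      have h5 := sd_pt_le' (n := L) h4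
      have h6 := sd_triangle v (pt L k) v'
      have h7 := sd_triangle (pt L k) (pt L k') v'
      rw [sd_comm v (pt L k)] at h6
      omega
    intro s hs
    refine ⟨hdet s hs _ le_rfl, fun u hu => ?_⟩
    refine (hmsd d V E m T q L s u hL hTpos.le hq1
      (fun r hr => ⟨hdet s hs r hr, hgr s hs r hr⟩) ?_ hcond hu).trans hTq
    have hin : ∀ v ∈ box s (50 * L), v ∈ box (0 : Site d) (102 * L) := by
      intro v hv
      rw [mem_box] at *
      have := sd_triangle 0 s v
      omega
    exact fun v hv v' hv' => hpair v (hin v hv) v' (hin v' hv')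
  refine (measure_mono hincl).trans ?_
  refine (measure_union_le _ _).trans ?_
  rw [ENNReal.ofReal_add (by positivity) (by positivity)]
  refine add_le_add p3 ((measure_union_le _ _).trans ?_)
  have h0 : PP d ν N1 = 0 := by
    rw [ENNReal.ofReal_zero] at p1
    exact le_antisymm p1 zero_le
  rw [h0, add_zero]
  exact p2

end Pool.Agent.LE.H59
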