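import Pool.Agent.Helper59_LE.Blo

/-!
# DBL: the mean and the second moment when the distance is doubled
-/

set_option autoImplicit false
set_option linter.unusedSectionVars false

open MeasureTheory ProbabilityTheory Function Filter

open scoped ENNReal BigOperators

noncomputable section

namespace Pool.Agent.LE.H59A

open Pool.Agent.Anderson Pool.Agent.Loc Pool.Agent.Helper54.Bal

variable {d : ℕ}

theorem av_half (R : ℕ) (f : Site d → ℝ) (c : ℝ) :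
    Av R (fun a => c * f a) = c * Av R f := by
  unfold Av
  rw [← Finset.mul_sum, mul_div_assoc]

/-- the pointwise inequality for the second moment -/
theorem point2 {Z Y0 Y1 r ℓ : ℝ} (hℓ : 1 ≤ ℓ) (_ : 0 ≤ r) (h : Z ≤ (Y0 + Y1) / 2 + r) :
    Z ^ 2 ≤ max 0 (-Z) ^ 2 + ((Y0 ^ 2 + Y1 ^ 2) / 2 - (Y0 - Y1) ^ 2 / 4) +
      (Y0 ^ 2 + Y1 ^ 2) / 2 / ℓ + 2 * (ℓ * r ^ 2) := by
  have hℓ0 : 0 < ℓ := by linarith
  obtain ⟨m, hm⟩ : ∃ m, m = (Y0 + Y1) / 2 := ⟨_, rfl⟩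
  have hm2 : (Y0 ^ 2 + Y1 ^ 2) / 2 - (Y0 - Y1) ^ 2 / 4 = m ^ 2 := by rw [hm]; ring
  have hm3 : m ^ 2 / ℓ ≤ (Y0 ^ 2 + Y1 ^ 2) / 2 / ℓ := by
    apply div_le_div_of_nonneg_right _ hℓ0.le
    nlinarith [sq_nonneg (Y0 - Y1)]
  rw [← hm] at h
  have h1 : 2 * |m| * r ≤ m ^ 2 / ℓ + ℓ * r ^ 2 := by
    have h2 : 0 ≤ (|m| - ℓ * r) ^ 2 / ℓ := by positivity
    have h3 : (|m| - ℓ * r) ^ 2 / ℓ = m ^ 2 / ℓ - 2 * |m| * r + ℓ * r ^ 2 := by
      rw [← sq_abs m]
      field_simp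
      ring
    linarith
  have h4 : r ^ 2 ≤ ℓ * r ^ 2 := le_mul_of_one_le_left (sq_nonneg r) hℓ
  have h5 : 0 ≤ m ^ 2 := sq_nonneg m
  have h6 : 0 ≤ m ^ 2 / ℓ := by positivity
  rw [hm2]
  rcases le_total 0 Z with hZ | hZ
  · have h7 : Z ^ 2 ≤ (|m| + r) ^ 2 := by
      apply pow_le_pow_left₀ hZ
      linarith [le_abs_self m]
    have h8 : (|m| + r) ^ 2 = m ^ 2 + 2 * |m| * r + r ^ 2 := by
      rw [← sq_abs m]
      ring
    have h9 : 0 ≤ max 0 (-Z) ^ 2 := sq_nonneg _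
    linarith
  · have h7 : max 0 (-Z) = -Z := max_eq_right (by linarith)
    rw [h7]
    have h8 : 0 ≤ ℓ * r ^ 2 := by positivity
    nlinarith

theorem dbl (havs : AvsStmt) : DblStmt := by
  intro d K C hC hK
  have hKr : (1 : ℝ) ≤ K := by exact_mod_cast hK
  obtain ⟨c, hc⟩ : ∃ c : ℝ, c = √C * (K + 1) := ⟨_, rfl⟩
  have hc0 : 0 ≤ c := by rw [hc]; positivity
  have hc2 : c ^ 2 = C * (K + 1) ^ 2 := by
    rw [hc, mul_pow, Real.sq_sqrt hC.le]
  have hsC : 0 ≤ √C := Real.sqrt_nonneg C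
  refine ⟨1 + √C + c + c ^ 2 + C, by positivity, fun ℓ hℓ => ?_⟩
  have hℓr : (1 : ℝ) ≤ ℓ := by exact_mod_cast hℓ
  have hℓ0 : (0 : ℝ) < ℓ := by linarith
  obtain ⟨δ, hδ⟩ : ∃ δ : ℝ, δ = 1 / ℓ := ⟨_, rfl⟩
  have hδ0 : 0 < δ := by rw [hδ]; positivity
  obtain ⟨R₀, hR₀⟩ := havs d (K * ℓ) (c + c ^ 2) δ hδ0
  refine ⟨R₀, fun R N hR hN Ω _ P _ D hD y hy => ?_⟩
  have h4K : 4 * K * ℓ = 4 * (K * ℓ) := by ring
  -- the functions
  obtain ⟨f, hf⟩ : ∃ f : Site d → ℝ, f = fun a => ∫ ω, D ω a (a + sm ℓ y) / ℓ ∂P := ⟨_, rfl⟩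
  obtain ⟨g, hg⟩ : ∃ g : Site d → ℝ, g = fun a => ∫ ω, (D ω a (a + sm ℓ y) / ℓ) ^ 2 ∂P :=
    ⟨_, rfl⟩
  have hs1 := sd_sm (ℓ := ℓ) hy
  have hs2 := sd_sm (ℓ := 2 * ℓ) hy
  have hs2' : K * (2 * ℓ) = 2 * (K * ℓ) := by ring
  have hin0 : ∀ a b : Site d, sd 0 a ≤ R + K * ℓ → sd 0 b ≤ 2 * (K * ℓ) →
      a + b ∈ box (0 : Site d) N := by
    intro a b ha hb
    rw [mem_box]
    have h1 := sd_triangle 0 a (a + b)
    rw [sd_add_right] at h1
    omega
  have hin00 : ∀ a : Site d, sd 0 a ≤ R + K * ℓ → a ∈ box (0 : Site d) N := by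
    intro a ha
    rw [mem_box]
    omega
  have memD : ∀ a b : Site d, a ∈ box (0 : Site d) N → b ∈ box (0 : Site d) N →
      MemLp (fun ω => D ω a b / ℓ) 2 P := by
    intro a b ha hb
    have h1 := (mem2 hD ha hb).const_mul (1 / (ℓ : ℝ))
    refine (memLp_congr_ae (Filter.Eventually.of_forall fun ω => ?_)).1 h1
    ring
  have hsplit : ∀ a : Site d, a + sm (2 * ℓ) y = (a + sm ℓ y) + sm ℓ y := by
    intro a
    rw [two_mul, sm_add, add_assoc]
  -- the second moment at one point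
  have hD2 : ∀ a b : Site d, a ∈ box (0 : Site d) N → a + b ∈ box (0 : Site d) N →
      sd 0 b ≤ K * ℓ → ∫ ω, (D ω a (a + b) / ℓ) ^ 2 ∂P ≤ c ^ 2 := by
    intro a b ha hab hb
    have h1 := hD.sq a ha (a + b) hab
    simp_rw [div_pow]
    rw [integral_div, div_le_iff₀ (by positivity), hc2]
    refine h1.trans ?_
    rw [mul_assoc]
    apply mul_le_mul_of_nonneg_left _ hC.le
    rw [sd_add_right, ← mul_pow]
    apply pow_le_pow_left₀ (by positivity)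
    have h3 : (sd 0 b : ℝ) ≤ K * ℓ := by exact_mod_cast hb
    nlinarith
  have hfa : ∀ a : Site d, sd 0 a ≤ R + K * ℓ → |f a| ≤ c := by
    intro a ha
    have e1 : a + sm ℓ y ∈ box (0 : Site d) N := hin0 a _ ha (by omega)
    have h1 := int_abs_le (memD a (a + sm ℓ y) (hin00 a ha) e1) (c := c)
      (hD2 a (sm ℓ y) (hin00 a ha) e1 hs1) hc0
    rw [hf]
    exact (abs_integral_le_integral_abs).trans h1
  have hga : ∀ a : Site d, sd 0 a ≤ R + K * ℓ → 0 ≤ g a ∧ g a ≤ c ^ 2 := by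
    intro a ha
    have e1 : a + sm ℓ y ∈ box (0 : Site d) N := hin0 a _ ha (by omega)
    rw [hg]
    exact ⟨integral_nonneg fun ω => sq_nonneg _, hD2 a (sm ℓ y) (hin00 a ha) e1 hs1⟩
  have hfb : ∀ a ∈ box (0 : Site d) (R + K * ℓ), |f a| ≤ c + c ^ 2 := by
    intro a ha
    have := hfa a (mem_box.1 ha)
    nlinarith [sq_nonneg c]
  have hgb : ∀ a ∈ box (0 : Site d) (R + K * ℓ), |g a| ≤ c + c ^ 2 := by
    intro a ha
    have := hga a (mem_box.1 ha)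
    rw [abs_of_nonneg this.1]
    linarith
  have hAf : Av R (fun a => f (a + sm ℓ y)) ≤ Av R f + δ := by
    have := (abs_le.1 (hR₀ R hR f (sm ℓ y) hs1 hfb)).2
    linarith
  have hAg : Av R (fun a => g (a + sm ℓ y)) ≤ Av R g + δ := by
    have := (abs_le.1 (hR₀ R hR g (sm ℓ y) hs1 hgb)).2
    linarith
  have hF : hA P D R y ℓ = Av R f := by rw [hf]; rfl
  have hG : sA P D R y ℓ = Av R g := by rw [hg]; rfl
  have hR' : ∀ a ∈ box (0 : Site d) R, sd 0 a ≤ R + K * ℓ := by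
    intro a ha
    rw [mem_box] at ha
    omega
  refine ⟨?_, ?_, ?_, ?_, ?_⟩
  · -- the mean is bounded
    have h1 : |Av R f| ≤ c := by
      rw [abs_le]
      constructor
      · rw [← av_const (d := d) R (-c)]
        exact av_mono fun a ha => (abs_le.1 (hfa a (hR' a ha))).1
      · rw [← av_const (d := d) R c]
        exact av_mono fun a ha => (abs_le.1 (hfa a (hR' a ha))).2
    rw [hF]
    nlinarith [sq_nonneg c]
  · have h1 : |Av R g| ≤ c ^ 2 := by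
      rw [abs_le]
      constructor
      · refine le_trans (neg_nonpos.2 (sq_nonneg c)) ?_
        rw [← av_const (d := d) R 0]
        exact av_mono fun a ha => (hga a (hR' a ha)).1
      · rw [← av_const (d := d) R (c ^ 2)]
        exact av_mono fun a ha => (hga a (hR' a ha)).2
    rw [hG]
    linarith
  · unfold vA
    rw [← av_const (d := d) R 0]
    exact av_mono fun a _ => integral_nonneg fun ω => sq_nonneg _
  · -- the mean at the double distance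
    have h1 : ∀ a ∈ box (0 : Site d) R, ∫ ω, D ω a (a + sm (2 * ℓ) y) / (2 * ℓ : ℕ) ∂P ≤
        (1 / 2) * f a + (1 / 2) * f (a + sm ℓ y) + √C / (2 * ℓ) := by
      intro a ha
      have ha' := hR' a ha
      have m0 := hin00 a ha'
      have m1 : a + sm ℓ y ∈ box (0 : Site d) N := hin0 a _ ha' (by omega)
      have m2 : a + sm (2 * ℓ) y ∈ box (0 : Site d) N := hin0 a _ ha' (by omega)
      have i0 := (memD a (a + sm ℓ y) m0 m1).integrable one_le_two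
      have i1 := (memD (a + sm ℓ y) (a + sm (2 * ℓ) y) m1 m2).integrable one_le_two
      have i2 : Integrable (fun ω => D ω a (a + sm (2 * ℓ) y) / (2 * ℓ : ℕ)) P :=
        ((mem2 hD m0 m2).integrable one_le_two).div_const _
      have i3 : Integrable (fun ω => max 0 (D ω a (a + sm (2 * ℓ) y) - D ω a (a + sm ℓ y) -
        D ω (a + sm ℓ y) (a + sm (2 * ℓ) y)) / (2 * ℓ)) P :=
        ((mem2_tri hD m0 m1 m2).integrable one_le_two).div_const _
      have j0 : Integrable (fun ω => (1 / 2) * (D ω a (a + sm ℓ y) / ℓ)) P := i0.const_mul _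
      have j1 : Integrable (fun ω => (1 / 2) * (D ω (a + sm ℓ y) (a + sm (2 * ℓ) y) / ℓ)) P :=
        i1.const_mul _
      have j01 : Integrable (fun ω => (1 / 2) * (D ω a (a + sm ℓ y) / ℓ) +
        (1 / 2) * (D ω (a + sm ℓ y) (a + sm (2 * ℓ) y) / ℓ)) P := j0.add j1
      have hp : ∀ ω, D ω a (a + sm (2 * ℓ) y) / (2 * ℓ : ℕ) ≤
          (1 / 2) * (D ω a (a + sm ℓ y) / ℓ) +
          (1 / 2) * (D ω (a + sm ℓ y) (a + sm (2 * ℓ) y) / ℓ) +
          max 0 (D ω a (a + sm (2 * ℓ) y) - D ω a (a + sm ℓ y) -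
            D ω (a + sm ℓ y) (a + sm (2 * ℓ) y)) / (2 * ℓ) := by
        intro ω
        have h2 := le_max_right 0 (D ω a (a + sm (2 * ℓ) y) - D ω a (a + sm ℓ y) -
            D ω (a + sm ℓ y) (a + sm (2 * ℓ) y))
        have e : (1 / 2) * (D ω a (a + sm ℓ y) / ℓ) +
          (1 / 2) * (D ω (a + sm ℓ y) (a + sm (2 * ℓ) y) / ℓ) +
          max 0 (D ω a (a + sm (2 * ℓ) y) - D ω a (a + sm ℓ y) -
            D ω (a + sm ℓ y) (a + sm (2 * ℓ) y)) / (2 * ℓ) =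
          (D ω a (a + sm ℓ y) + D ω (a + sm ℓ y) (a + sm (2 * ℓ) y) +
          max 0 (D ω a (a + sm (2 * ℓ) y) - D ω a (a + sm ℓ y) -
            D ω (a + sm ℓ y) (a + sm (2 * ℓ) y))) / (2 * ℓ) := by
          field_simp
        rw [e]
        push_cast
        apply div_le_div_of_nonneg_right _ (by positivity)
        linarith
      refine (integral_mono i2 (j01.add i3) hp).trans ?_
      simp only [Pi.add_apply]
      rw [integral_add j01 i3, integral_add j0 j1, integral_const_mul, integral_const_mul,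
        integral_div (2 * (ℓ : ℝ))]
      have h3 := tri_le hD hC.le m0 m1 m2
      have h4 : (∫ ω, max 0 (D ω a (a + sm (2 * ℓ) y) - D ω a (a + sm ℓ y) -
            D ω (a + sm ℓ y) (a + sm (2 * ℓ) y)) ∂P) / (2 * ℓ) ≤ √C / (2 * ℓ) :=
        div_le_div_of_nonneg_right h3 (by positivity)
      have h5 : f a = ∫ ω, D ω a (a + sm ℓ y) / ℓ ∂P := by rw [hf]
      have h6 : f (a + sm ℓ y) =
          ∫ ω, D ω (a + sm ℓ y) (a + sm (2 * ℓ) y) / ℓ ∂P := by rw [hf, hsplit]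
      rw [← h5, ← h6]
      linarith
    have h2 := av_mono h1
    rw [av_add, av_add, av_half, av_half, av_const] at h2
    have h3 : hA P D R y (2 * ℓ) =
        Av R fun a => ∫ ω, D ω a (a + sm (2 * ℓ) y) / (2 * ℓ : ℕ) ∂P := rfl
    rw [h3, hF]
    have h4 : √C / (2 * ℓ) = (1 / 2) * (√C / ℓ) := by field_simp
    have h5 : (1 + √C + c + c ^ 2 + C) / ℓ = δ + √C / ℓ + c / ℓ + c ^ 2 / ℓ + C / ℓ := by
      rw [hδ]
      ring
    have h6 : 0 ≤ √C / ℓ := by positivity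
    have h7 : 0 ≤ c / ℓ := by positivity
    have h8 : 0 ≤ c ^ 2 / ℓ := by positivity
    have h9 : 0 ≤ C / ℓ := by positivity
    rw [h5]
    linarith
  · -- the second moment at the double distance
    have h1 : ∀ a ∈ box (0 : Site d) R, ∫ ω, (D ω a (a + sm (2 * ℓ) y) / (2 * ℓ : ℕ)) ^ 2 ∂P ≤
        (1 / 2) * g a + (1 / 2) * g (a + sm ℓ y) -
        (1 / 4) * ∫ ω, (D ω a (a + sm ℓ y) / ℓ -
          D ω (a + sm ℓ y) (a + sm (2 * ℓ) y) / ℓ) ^ 2 ∂P + (c ^ 2 / ℓ + C / ℓ) := by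
      intro a ha
      have ha' := hR' a ha
      have m0 := hin00 a ha'
      have m1 : a + sm ℓ y ∈ box (0 : Site d) N := hin0 a _ ha' (by omega)
      have m2 : a + sm (2 * ℓ) y ∈ box (0 : Site d) N := hin0 a _ ha' (by omega)
      have l0 := memD a (a + sm ℓ y) m0 m1
      have l1 := memD (a + sm ℓ y) (a + sm (2 * ℓ) y) m1 m2
      have l01 : MemLp (fun ω => D ω a (a + sm ℓ y) / ℓ -
        D ω (a + sm ℓ y) (a + sm (2 * ℓ) y) / ℓ) 2 P := l0.sub l1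
      have i0 : Integrable (fun ω => (D ω a (a + sm ℓ y) / ℓ) ^ 2) P :=
        (memLp_two_iff_integrable_sq l0.1).1 l0
      have i1 : Integrable (fun ω => (D ω (a + sm ℓ y) (a + sm (2 * ℓ) y) / ℓ) ^ 2) P :=
        (memLp_two_iff_integrable_sq l1.1).1 l1
      have i01 : Integrable (fun ω => (D ω a (a + sm ℓ y) / ℓ -
        D ω (a + sm ℓ y) (a + sm (2 * ℓ) y) / ℓ) ^ 2) P :=
        (memLp_two_iff_integrable_sq l01.1).1 l01
      have l2 := mem2_tri hD m0 m1 m2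
      have i2 : Integrable (fun ω => (max 0 (D ω a (a + sm (2 * ℓ) y) - D ω a (a + sm ℓ y) -
        D ω (a + sm ℓ y) (a + sm (2 * ℓ) y))) ^ 2) P :=
        (memLp_two_iff_integrable_sq l2.1).1 l2
      have l3 := mem2 hD m0 m2
      have i3 : Integrable (fun ω => D ω a (a + sm (2 * ℓ) y) ^ 2) P :=
        (memLp_two_iff_integrable_sq l3.1).1 l3
      have l4 : MemLp (fun ω => max 0 (-D ω a (a + sm (2 * ℓ) y))) 2 P := by
        refine l3.mono ?_ ?_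
        · exact (measurable_const.max (hD.meas _ _).neg).aestronglyMeasurable
        · refine Filter.Eventually.of_forall fun ω => ?_
          rw [Real.norm_eq_abs, Real.norm_eq_abs, abs_of_nonneg (le_max_left _ _)]
          exact max_le (abs_nonneg _) (neg_le_abs _)
      have i4 : Integrable (fun ω => (max 0 (-D ω a (a + sm (2 * ℓ) y))) ^ 2) P :=
        (memLp_two_iff_integrable_sq l4.1).1 l4
      have hp : ∀ ω, (D ω a (a + sm (2 * ℓ) y) / (2 * ℓ : ℕ)) ^ 2 ≤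
          1 / (4 * ℓ ^ 2) * (max 0 (-D ω a (a + sm (2 * ℓ) y))) ^ 2 +
          (1 / 2 + 1 / (2 * ℓ)) * (D ω a (a + sm ℓ y) / ℓ) ^ 2 +
          (1 / 2 + 1 / (2 * ℓ)) * (D ω (a + sm ℓ y) (a + sm (2 * ℓ) y) / ℓ) ^ 2 +
          (-1 / 4) * (D ω a (a + sm ℓ y) / ℓ -
            D ω (a + sm ℓ y) (a + sm (2 * ℓ) y) / ℓ) ^ 2 +
          1 / (2 * ℓ) * (max 0 (D ω a (a + sm (2 * ℓ) y) - D ω a (a + sm ℓ y) -
            D ω (a + sm ℓ y) (a + sm (2 * ℓ) y))) ^ 2 := by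
        intro ω
        obtain ⟨z, hz⟩ : ∃ z, z = D ω a (a + sm (2 * ℓ) y) := ⟨_, rfl⟩
        obtain ⟨y0, hy0⟩ : ∃ y0, y0 = D ω a (a + sm ℓ y) := ⟨_, rfl⟩
        obtain ⟨y1, hy1⟩ : ∃ y1, y1 = D ω (a + sm ℓ y) (a + sm (2 * ℓ) y) := ⟨_, rfl⟩
        rw [← hz, ← hy0, ← hy1]
        have h2 := le_max_right 0 (z - y0 - y1)
        have h3 := point2 (Z := z / (2 * ℓ)) (Y0 := y0 / ℓ) (Y1 := y1 / ℓ)
          (r := max 0 (z - y0 - y1) / (2 * ℓ)) (ℓ := (ℓ : ℝ)) hℓr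
          (div_nonneg (le_max_left _ _) (by positivity)) (by
            have e : (y0 / ℓ + y1 / ℓ) / 2 + max 0 (z - y0 - y1) / (2 * ℓ) =
              (y0 + y1 + max 0 (z - y0 - y1)) / (2 * ℓ) := by field_simp
            rw [e]
            apply div_le_div_of_nonneg_right _ (by positivity)
            linarith)
        have h4 : max 0 (-(z / (2 * ℓ))) = max 0 (-z) / (2 * ℓ) := by
          rw [← neg_div, ← max_div_div_right (by positivity : (0 : ℝ) ≤ 2 * ℓ), zero_div]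
        rw [h4] at h3
        push_cast
        refine h3.trans (le_of_eq ?_)
        field_simp
        ring
      have k4 : Integrable (fun ω => 1 / (4 * (ℓ : ℝ) ^ 2) *
        (max 0 (-D ω a (a + sm (2 * ℓ) y))) ^ 2) P := i4.const_mul _
      have k0 : Integrable (fun ω => (1 / 2 + 1 / (2 * (ℓ : ℝ))) *
        (D ω a (a + sm ℓ y) / ℓ) ^ 2) P := i0.const_mul _
      have k1 : Integrable (fun ω => (1 / 2 + 1 / (2 * (ℓ : ℝ))) *
        (D ω (a + sm ℓ y) (a + sm (2 * ℓ) y) / ℓ) ^ 2) P := i1.const_mul _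
      have k01 : Integrable (fun ω => (-1 / 4) * (D ω a (a + sm ℓ y) / ℓ -
            D ω (a + sm ℓ y) (a + sm (2 * ℓ) y) / ℓ) ^ 2) P := i01.const_mul _
      have k2 : Integrable (fun ω => 1 / (2 * (ℓ : ℝ)) *
        (max 0 (D ω a (a + sm (2 * ℓ) y) - D ω a (a + sm ℓ y) -
            D ω (a + sm ℓ y) (a + sm (2 * ℓ) y))) ^ 2) P := i2.const_mul _
      have i5 : Integrable (fun ω => (D ω a (a + sm (2 * ℓ) y) / (2 * ℓ : ℕ)) ^ 2) P := by
        simp_rw [div_pow]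
        exact i3.div_const _
      have s1 : Integrable (fun ω => 1 / (4 * (ℓ : ℝ) ^ 2) *
          (max 0 (-D ω a (a + sm (2 * ℓ) y))) ^ 2 +
          (1 / 2 + 1 / (2 * (ℓ : ℝ))) * (D ω a (a + sm ℓ y) / ℓ) ^ 2) P := k4.add k0
      have s2 : Integrable (fun ω => 1 / (4 * (ℓ : ℝ) ^ 2) *
          (max 0 (-D ω a (a + sm (2 * ℓ) y))) ^ 2 +
          (1 / 2 + 1 / (2 * (ℓ : ℝ))) * (D ω a (a + sm ℓ y) / ℓ) ^ 2 +
          (1 / 2 + 1 / (2 * (ℓ : ℝ))) *
            (D ω (a + sm ℓ y) (a + sm (2 * ℓ) y) / ℓ) ^ 2) P := s1.add k1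
      have s3 : Integrable (fun ω => 1 / (4 * (ℓ : ℝ) ^ 2) *
          (max 0 (-D ω a (a + sm (2 * ℓ) y))) ^ 2 +
          (1 / 2 + 1 / (2 * (ℓ : ℝ))) * (D ω a (a + sm ℓ y) / ℓ) ^ 2 +
          (1 / 2 + 1 / (2 * (ℓ : ℝ))) *
            (D ω (a + sm ℓ y) (a + sm (2 * ℓ) y) / ℓ) ^ 2 +
          (-1 / 4) * (D ω a (a + sm ℓ y) / ℓ -
            D ω (a + sm ℓ y) (a + sm (2 * ℓ) y) / ℓ) ^ 2) P := s2.add k01
      refine (integral_mono i5 (s3.add k2) hp).trans ?_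
      simp only [Pi.add_apply]
      rw [integral_add s3 k2, integral_add s2 k01, integral_add s1 k1, integral_add k4 k0,
        integral_const_mul, integral_const_mul, integral_const_mul, integral_const_mul,
        integral_const_mul]
      have h5 : g a = ∫ ω, (D ω a (a + sm ℓ y) / ℓ) ^ 2 ∂P := by rw [hg]
      have h6 : g (a + sm ℓ y) =
          ∫ ω, (D ω (a + sm ℓ y) (a + sm (2 * ℓ) y) / ℓ) ^ 2 ∂P := by rw [hg, hsplit]
      rw [← h5, ← h6]
      have h7 := hD.neg a m0 (a + sm (2 * ℓ) y) m2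
      have h8 := hD.tri a m0 (a + sm ℓ y) m1 (a + sm (2 * ℓ) y) m2
      have g1 := (hga a ha').2
      have g2 : g (a + sm ℓ y) ≤ c ^ 2 := by
        rw [h6]
        have := hD2 (a + sm ℓ y) (sm ℓ y) m1 (by rw [← hsplit]; exact m2) hs1
        rwa [← hsplit] at this
      have q1 : 1 / (4 * (ℓ : ℝ) ^ 2) * ∫ ω, (max 0 (-D ω a (a + sm (2 * ℓ) y))) ^ 2 ∂P ≤
          (1 / 2) * (C / ℓ) := by
        calc _ ≤ 1 / (4 * (ℓ : ℝ) ^ 2) * C := mul_le_mul_of_nonneg_left h7 (by positivity)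
          _ ≤ (1 / 2) * (C / ℓ) := by
            rw [one_div_mul_eq_div, div_le_iff₀ (by positivity)]
            have : (1 / 2) * (C / (ℓ : ℝ)) * (4 * (ℓ : ℝ) ^ 2) = 2 * C * ℓ := by
              field_simp
              ring
            rw [this]
            nlinarith
      have q2 : 1 / (2 * (ℓ : ℝ)) * ∫ ω, (max 0 (D ω a (a + sm (2 * ℓ) y) -
          D ω a (a + sm ℓ y) - D ω (a + sm ℓ y) (a + sm (2 * ℓ) y))) ^ 2 ∂P ≤
          (1 / 2) * (C / ℓ) := by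
        calc _ ≤ 1 / (2 * (ℓ : ℝ)) * C := mul_le_mul_of_nonneg_left h8 (by positivity)
          _ = (1 / 2) * (C / ℓ) := by
            field_simp
      have q3 : 1 / (2 * (ℓ : ℝ)) * g a ≤ (1 / 2) * (c ^ 2 / ℓ) := by
        calc _ ≤ 1 / (2 * (ℓ : ℝ)) * c ^ 2 := mul_le_mul_of_nonneg_left g1 (by positivity)
          _ = (1 / 2) * (c ^ 2 / ℓ) := by field_simp
      have q4 : 1 / (2 * (ℓ : ℝ)) * g (a + sm ℓ y) ≤ (1 / 2) * (c ^ 2 / ℓ) := by
        calc _ ≤ 1 / (2 * (ℓ : ℝ)) * c ^ 2 := mul_le_mul_of_nonneg_left g2 (by positivity)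
          _ = (1 / 2) * (c ^ 2 / ℓ) := by field_simp
      have q5 : (1 / 2 + 1 / (2 * (ℓ : ℝ))) * g a = (1 / 2) * g a + 1 / (2 * (ℓ : ℝ)) * g a := by
        ring
      have q6 : (1 / 2 + 1 / (2 * (ℓ : ℝ))) * g (a + sm ℓ y) =
          (1 / 2) * g (a + sm ℓ y) + 1 / (2 * (ℓ : ℝ)) * g (a + sm ℓ y) := by
        ring
      rw [q5, q6]
      linarith
    have h2 := av_mono h1
    rw [av_add, av_sub, av_add, av_half, av_half, av_half, av_const] at h2
    have h3 : sA P D R y (2 * ℓ) =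
        Av R fun a => ∫ ω, (D ω a (a + sm (2 * ℓ) y) / (2 * ℓ : ℕ)) ^ 2 ∂P := rfl
    have h4 : vA P D R y ℓ = Av R fun a => ∫ ω, (D ω a (a + sm ℓ y) / ℓ -
          D ω (a + sm ℓ y) (a + sm (2 * ℓ) y) / ℓ) ^ 2 ∂P := rfl
    rw [h3, hG]
    rw [← h4] at h2
    have h5 : (1 + √C + c + c ^ 2 + C) / ℓ = δ + √C / ℓ + c / ℓ + c ^ 2 / ℓ + C / ℓ := by
      rw [hδ]
      ring
    have h6 : 0 ≤ √C / ℓ := by positivity
    have h7 : 0 ≤ c / ℓ := by positivity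
    rw [h5]
    linarith

end Pool.Agent.LE.H59A
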